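import Pool.Agent.W767.Kc.Tube

set_option autoImplicit false
set_option linter.unusedSectionVars false

/-!
Auxiliary inequalities for the assembly.
-/

open MeasureTheory Set Filter Topology ENNReal NNReal Metric

namespace Pool.Agent.W767.Kc

open Pool.Agent.H742R2.Kk

theorem three_four_pow_ne_zero (i : ℕ) : ((3 / 4 : ℝ≥0∞)) ^ i ≠ 0 := by
  apply pow_ne_zero
  rw [Ne, ENNReal.div_eq_zero_iff]
  simp

theorem three_four_lt : (3 / 4 : ℝ≥0∞) < 1 := by
  rw [ENNReal.div_lt_iff (Or.inl (by norm_num)) (Or.inl (by norm_num))]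
  norm_num

theorem three_four_pow_ne_top (i : ℕ) : ((3 / 4 : ℝ≥0∞)) ^ i ≠ ∞ :=
  ENNReal.pow_ne_top (three_four_lt.trans_le le_top).ne

/-- Cauchy–Schwarz with geometric weights. -/
theorem weighted_cs (b : ℕ → ℝ≥0∞) :
    (∑' i, b i) ^ 2 ≤ 4 * ∑' i, ((3 / 4 : ℝ≥0∞) ^ i)⁻¹ * b i ^ 2 := by
  set w : ℕ → ℝ≥0∞ := fun i => (3 / 4 : ℝ≥0∞) ^ i with hw
  have hwm : Measurable w := measurable_from_top
  set μ : Measure ℕ := Measure.count.withDensity w with hμ
  have hint : ∀ g : ℕ → ℝ≥0∞, ∫⁻ i, g i ∂μ = ∑' i, w i * g i := by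
    intro g
    rw [hμ, lintegral_withDensity_eq_lintegral_mul _ hwm measurable_from_top, lintegral_count]
    rfl
  have h1 := lintegral_sq_le μ (g := fun i => (w i)⁻¹ * b i) measurable_from_top.aemeasurable
  rw [hint, hint] at h1
  have h2 : ∀ i, w i * ((w i)⁻¹ * b i) = b i := by
    intro i
    rw [← mul_assoc, ENNReal.mul_inv_cancel (three_four_pow_ne_zero i) (three_four_pow_ne_top i),
      one_mul]
  have h3 : ∀ i, w i * ((w i)⁻¹ * b i) ^ 2 = (w i)⁻¹ * b i ^ 2 := by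
    intro i
    calc w i * ((w i)⁻¹ * b i) ^ 2 = (w i * (w i)⁻¹) * ((w i)⁻¹ * b i ^ 2) := by ring
      _ = _ := by
        rw [ENNReal.mul_inv_cancel (three_four_pow_ne_zero i) (three_four_pow_ne_top i), one_mul]
  have h4 : μ univ = 4 := by
    have := hint (fun _ => 1)
    rw [lintegral_one] at this
    rw [this]
    simp only [mul_one, hw]
    rw [ENNReal.tsum_geometric]
    have : (1 - 3 / 4 : ℝ≥0∞) = 4⁻¹ := by
      apply ENNReal.sub_eq_of_eq_add (three_four_lt.trans_le le_top).ne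
      rw [ENNReal.div_eq_inv_mul]
      have h5 : (4⁻¹ : ℝ≥0∞) + 4⁻¹ * 3 = 4⁻¹ * 4 := by ring
      rw [h5, ENNReal.inv_mul_cancel (by norm_num) (by norm_num)]
    rw [this, inv_inv]
  rw [h4] at h1
  simp_rw [h2, h3] at h1
  exact h1

/-- A convergent series. -/
noncomputable def cSer : ℝ≥0∞ :=
  ∑' i : ℕ, ((3 / 4 : ℝ≥0∞) ^ i)⁻¹ * (((i:ℝ≥0∞) + 1) ^ 2 * ENNReal.ofReal ((2 ^ i)⁻¹))

theorem cSer_ne_top : cSer ≠ ∞ := by
  have hs : Summable (fun i : ℕ => ((i:ℝ) + 1) ^ 2 * (2/3 : ℝ) ^ i) := by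
    have h1 := summable_pow_mul_geometric_of_norm_lt_one (R := ℝ) 2 (r := 2/3) (by
      rw [Real.norm_of_nonneg (by norm_num)]; norm_num)
    have h2 := (summable_nat_add_iff (f := fun n : ℕ => (n:ℝ) ^ 2 * (2/3 : ℝ) ^ n) 1).2 h1
    have h3 := h2.mul_left (3/2 : ℝ)
    refine h3.congr (fun i => ?_)
    push_cast
    rw [pow_succ]
    ring
  have h4 : cSer = ∑' i : ℕ, ENNReal.ofReal (((i:ℝ) + 1) ^ 2 * (2/3 : ℝ) ^ i) := by
    unfold cSer
    congr 1
    ext i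
    have e1 : (3 / 4 : ℝ≥0∞) = ENNReal.ofReal (3/4) := by
      rw [ENNReal.ofReal_div_of_pos (by norm_num)]
      simp
    have e2 : ((i:ℝ≥0∞) + 1) = ENNReal.ofReal ((i:ℝ) + 1) := by
      rw [ENNReal.ofReal_add (by positivity) (by norm_num)]
      simp
    rw [e1, e2, ← ENNReal.ofReal_pow (by norm_num), ← ENNReal.ofReal_pow (by positivity),
      ← ENNReal.ofReal_inv_of_pos (by positivity), ← ENNReal.ofReal_mul (by positivity),
      ← ENNReal.ofReal_mul (by positivity)]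
    congr 1
    rw [div_pow, div_pow]
    have : (4:ℝ) ^ i = 2 ^ i * 2 ^ i := by
      rw [← mul_pow]; norm_num
    rw [this]
    field_simp
  rw [h4]
  exact hs.tsum_ofReal_ne_top

/-- Hölder's inequality with the exponent `n / 2`. -/
theorem holder_half {α : Type*} [MeasurableSpace α] (μ : Measure α) {g : α → ℝ≥0∞}
    (hg : AEMeasurable g μ) {n : ℕ} (hn : 3 ≤ n) :
    (∫⁻ x, g x ∂μ) ^ n ≤ (μ univ) ^ (n - 2) * (∫⁻ x, g x ^ ((n:ℝ) / 2) ∂μ) ^ 2 := by
  have hn' : (3:ℝ) ≤ n := by exact_mod_cast hn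
  have h := holder_pow μ hg (p := (n:ℝ) / 2) (by linarith)
  have e1 : (∫⁻ x, g x ∂μ) ^ n = ((∫⁻ x, g x ∂μ) ^ ((n:ℝ) / 2)) ^ 2 := by
    rw [← ENNReal.rpow_natCast, ← ENNReal.rpow_natCast, ← ENNReal.rpow_mul]
    congr 1
    push_cast
    ring
  have e2 : (μ univ) ^ (n - 2) = ((μ univ) ^ ((n:ℝ) / 2 - 1)) ^ 2 := by
    rw [← ENNReal.rpow_natCast, ← ENNReal.rpow_natCast, ← ENNReal.rpow_mul]
    congr 1
    rw [Nat.cast_sub (by omega)]
    push_cast
    ring
  rw [e1, e2, ← mul_pow]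
  exact pow_le_pow_left' h 2

theorem sq_rpow_half (x : ℝ≥0∞) (n : ℕ) : (x ^ ((n:ℝ) / 2)) ^ 2 = x ^ n := by
  rw [← ENNReal.rpow_natCast, ← ENNReal.rpow_natCast, ← ENNReal.rpow_mul]
  congr 1
  push_cast
  ring

theorem sum_pow_le {ι : Type*} (s : Finset ι) (f : ι → ℝ≥0∞) {n : ℕ} (hn : 1 ≤ n) :
    (∑ i ∈ s, f i) ^ n ≤ (s.card : ℝ≥0∞) ^ (n - 1) * ∑ i ∈ s, f i ^ n := by
  have h := ENNReal.rpow_sum_le_const_mul_sum_rpow s f (p := n) (by exact_mod_cast hn)
  have e : (n:ℝ) - 1 = ((n - 1 : ℕ) : ℝ) := by rw [Nat.cast_sub hn]; simp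
  rw [e] at h
  simpa only [ENNReal.rpow_natCast] using h

theorem add3_pow_le (x y z : ℝ≥0∞) (n : ℕ) : (x + y + z) ^ n ≤ 3 ^ n * (x ^ n + y ^ n + z ^ n) := by
  set m := max x (max y z) with hm
  have hx : x ≤ m := le_max_left _ _
  have hy : y ≤ m := (le_max_left _ _).trans (le_max_right _ _)
  have hz : z ≤ m := (le_max_right _ _).trans (le_max_right _ _)
  have h1 : x + y + z ≤ 3 * m := by
    calc x + y + z ≤ m + m + m := by gcongr
      _ = 3 * m := by ring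
  have h2 : m ^ n ≤ x ^ n + y ^ n + z ^ n := by
    rcases max_choice x (max y z) with h | h
    · rw [hm, h, add_assoc]; exact le_self_add
    · rcases max_choice y z with h' | h'
      · rw [hm, h, h']
        calc y ^ n ≤ x ^ n + y ^ n := le_add_self
          _ ≤ _ := le_self_add
      · rw [hm, h, h']; exact le_add_self
  calc (x + y + z) ^ n ≤ (3 * m) ^ n := pow_le_pow_left' h1 n
    _ = 3 ^ n * m ^ n := mul_pow _ _ _
    _ ≤ _ := by gcongr

theorem volume_shell_le (l : ℝ) (hl : 0 < l) : volume (shell l) ≤ ENNReal.ofReal (2 * l) := by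
  calc volume (shell l) ≤ volume (Icc l (2 * l) ∪ Icc (-(2 * l)) (-l)) := measure_mono shell_subset
    _ ≤ volume (Icc l (2 * l)) + volume (Icc (-(2 * l)) (-l)) := measure_union_le _ _
    _ = _ := by
      rw [Real.volume_Icc, Real.volume_Icc, ← ENNReal.ofReal_add (by linarith) (by linarith)]
      congr 1
      ring

theorem measurableSet_shell (l : ℝ) : MeasurableSet (shell l) := by
  have h1 : MeasurableSet {s : ℝ | l ≤ |s|} := measurableSet_le measurable_const (by fun_prop)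
  have h2 : MeasurableSet {s : ℝ | |s| ≤ 2 * l} := measurableSet_le (by fun_prop) measurable_const
  exact h1.inter h2

/-- Dyadic decomposition of the line. -/
theorem cover_shell {δ : ℝ} (hδ : 0 < δ) (J0 : ℕ) (s : ℝ) : s ∈ Icc (-δ) δ ∨
    (∃ j ∈ Finset.range J0, s ∈ shell (2 ^ j * δ)) ∨ ∃ i : ℕ, s ∈ shell (2 ^ (J0 + i) * δ) := by
  by_cases h : |s| ≤ δ
  · left
    exact abs_le.1 h
  · right
    push Not at h
    obtain ⟨j, h1, h2⟩ := exists_nat_pow_near (x := |s| / δ) (y := 2)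
      (by rw [le_div_iff₀ hδ]; linarith) (by norm_num)
    rw [le_div_iff₀ hδ] at h1
    rw [div_lt_iff₀ hδ] at h2
    have hs : s ∈ shell (2 ^ j * δ) := ⟨h1, by rw [pow_succ] at h2; linarith⟩
    rcases lt_or_ge j J0 with hj | hj
    · exact Or.inl ⟨j, Finset.mem_range.2 hj, hs⟩
    · right
      obtain ⟨i, rfl⟩ := Nat.exists_eq_add_of_le hj
      exact ⟨i, hs⟩

end Pool.Agent.W767.Kc
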