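import Pool.Agent.W767.Kc.Asm1

set_option autoImplicit false
set_option linter.unusedSectionVars false

/-!
Assembly of the estimate.
-/

open MeasureTheory Set Filter Topology ENNReal NNReal Metric

namespace Pool.Agent.W767.Kc

open Pool.Agent.H742R2.Kk

/-- Constant of the core part. -/
noncomputable def cCore (n : ℕ) : ℝ≥0∞ :=
  ENNReal.ofReal ((1 / 2) ^ n) * (ENNReal.ofReal ((4 / 3) ^ n)) ^ n * (vB n 1)⁻¹

theorem cCore_ne_top (n : ℕ) : cCore n ≠ ∞ :=
  ENNReal.mul_ne_top (ENNReal.mul_ne_top ENNReal.ofReal_ne_top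
    (ENNReal.pow_ne_top ENNReal.ofReal_ne_top)) (ENNReal.inv_ne_top.2 (vB_ne_zero n one_pos))

theorem core_part {n : ℕ} (hn : 2 ≤ n) {δ : ℝ} (hδ : 0 < δ) {F : E n → ℝ≥0∞} (hF : Measurable F)
    {p e : E n} (he : ‖e‖ = 1) :
    (∫⁻ s in Icc (-δ) δ, Phi (3 * δ) F (p + s • e)) ^ n ≤ cCore n * ∫⁻ y, F y ^ n := by
  set K := ENNReal.ofReal ((4 / 3) ^ n) with hK
  have h1 : ∫⁻ s in Icc (-δ) δ, Phi (3 * δ) F (p + s • e)
      ≤ ENNReal.ofReal (2 * δ) * (K * Phi (4 * δ) F p) := by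
    calc ∫⁻ s in Icc (-δ) δ, Phi (3 * δ) F (p + s • e)
        ≤ ∫⁻ s in Icc (-δ) δ, K * Phi (4 * δ) F p := by
          apply setLIntegral_mono' measurableSet_Icc
          intro s hs
          apply Phi_le_Phi hδ
          rw [add_sub_cancel_left, norm_smul, he, mul_one, Real.norm_eq_abs]
          exact abs_le.2 hs
      _ = _ := by
          rw [setLIntegral_const, Real.volume_Icc, mul_comm]
          congr 2
          ring
  calc (∫⁻ s in Icc (-δ) δ, Phi (3 * δ) F (p + s • e)) ^ n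
      ≤ (ENNReal.ofReal (2 * δ) * (K * Phi (4 * δ) F p)) ^ n := pow_le_pow_left' h1 n
    _ = ENNReal.ofReal ((2 * δ) ^ n) * (K ^ n * Phi (4 * δ) F p ^ n) := by
        rw [mul_pow, mul_pow, ENNReal.ofReal_pow (by positivity)]
    _ ≤ ENNReal.ofReal ((2 * δ) ^ n) * (K ^ n * ((vB n (4 * δ))⁻¹ * ∫⁻ y, F y ^ n)) := by
        gcongr
        exact Phi_sup (by positivity) hF hn p
    _ = _ := by
        rw [vB_eq n (by positivity : (0:ℝ) ≤ 4 * δ),
          ENNReal.mul_inv (Or.inl (by simp; positivity)) (Or.inl ENNReal.ofReal_ne_top),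
          ← ENNReal.ofReal_inv_of_pos (by positivity), cCore, ← hK]
        have e1 : ENNReal.ofReal ((1 / 2 : ℝ) ^ n)
            = ENNReal.ofReal ((2 * δ) ^ n) * ENNReal.ofReal (((4 * δ) ^ n)⁻¹) := by
          rw [← ENNReal.ofReal_mul (by positivity)]
          congr 1
          rw [mul_pow, mul_pow]
          have : (4:ℝ) ^ n = 2 ^ n * 2 ^ n := by rw [← mul_pow]; norm_num
          rw [this, div_pow, one_pow]
          field_simp
        rw [e1]
        ring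

/-- Pointwise estimate along one line. -/
theorem line_est {n : ℕ} (hn : 3 ≤ n) {δ : ℝ} (hδ : 0 < δ) {F : E n → ℝ≥0∞}
    (hF : Measurable F) {p e : E n} (he : ‖e‖ = 1) (s0 : ℝ) (J0 : ℕ) (M : ℕ → ℝ≥0∞)
    (hM : ∀ j : ℕ, (∫⁻ s in shell (2 ^ j * δ), Phi (3 * δ) F (p + s • e) ^ ((n:ℝ) / 2)) ^ 2
      ≤ M j) :
    (∫⁻ s in Icc (s0 - 3 / 2) (s0 + 3 / 2), Phi (3 * δ) F (p + s • e)) ^ n
      ≤ 3 ^ n * (cCore n * (∫⁻ y, F y ^ n)
        + (J0:ℝ≥0∞) ^ (n - 1) * ∑ j ∈ Finset.range J0,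
            ENNReal.ofReal ((2 * (2 ^ j * δ)) ^ (n - 2)) * M j
        + 3 ^ (n - 2) * (4 * ∑' i : ℕ, ((3 / 4 : ℝ≥0∞) ^ i)⁻¹ * M (J0 + i))) := by
  set g : ℝ → ℝ≥0∞ := fun s => Phi (3 * δ) F (p + s • e) with hg
  have hgm : Measurable g := (measurable_Phi (3 * δ) hF).comp (by fun_prop)
  have hgm2 : Measurable (fun s => g s ^ ((n:ℝ) / 2)) := hgm.pow_const _
  set I := Icc (s0 - 3 / 2) (s0 + 3 / 2) with hI
  set far : Set ℝ := ⋃ i : ℕ, shell (2 ^ (J0 + i) * δ) with hfar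
  have hfarm : MeasurableSet far := MeasurableSet.iUnion (fun i => measurableSet_shell _)
  have hpos : ∀ j : ℕ, 0 < 2 ^ j * δ := fun j => by positivity
  have hcov : I ⊆ (Icc (-δ) δ ∪ ⋃ j ∈ Finset.range J0, shell (2 ^ j * δ)) ∪ (I ∩ far) := by
    intro s hs
    rcases cover_shell hδ J0 s with h | ⟨j, hj, h⟩ | ⟨i, h⟩
    · exact Or.inl (Or.inl h)
    · refine Or.inl (Or.inr ?_)
      simp only [mem_iUnion]
      exact ⟨j, hj, h⟩
    · exact Or.inr ⟨hs, mem_iUnion.2 ⟨i, h⟩⟩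
  have hsplit : ∫⁻ s in I, g s ≤ (∫⁻ s in Icc (-δ) δ, g s)
      + (∑ j ∈ Finset.range J0, ∫⁻ s in shell (2 ^ j * δ), g s) + ∫⁻ s in I ∩ far, g s := by
    calc ∫⁻ s in I, g s ≤ ∫⁻ s in (Icc (-δ) δ ∪ ⋃ j ∈ Finset.range J0, shell (2 ^ j * δ))
          ∪ (I ∩ far), g s := lintegral_mono_set hcov
      _ ≤ (∫⁻ s in (Icc (-δ) δ ∪ ⋃ j ∈ Finset.range J0, shell (2 ^ j * δ)), g s)
          + ∫⁻ s in I ∩ far, g s := lintegral_union_le _ _ _
      _ ≤ ((∫⁻ s in Icc (-δ) δ, g s) + ∫⁻ s in ⋃ j ∈ Finset.range J0, shell (2 ^ j * δ), g s)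
          + ∫⁻ s in I ∩ far, g s := by
          gcongr
          exact lintegral_union_le _ _ _
      _ ≤ _ := by
          gcongr
          have h1 : ∀ T : Finset ℕ, ∫⁻ s in ⋃ j ∈ T, shell (2 ^ j * δ), g s
              ≤ ∑ j ∈ T, ∫⁻ s in shell (2 ^ j * δ), g s := by
            classical
            intro T
            induction T using Finset.induction_on with
            | empty => simp
            | insert a T ha ih =>
              rw [Finset.set_biUnion_insert, Finset.sum_insert ha]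
              exact (lintegral_union_le _ _ _).trans (add_le_add le_rfl ih)
          exact h1 _
  have hA := core_part (by omega : 2 ≤ n) hδ hF (p := p) he
  have hB : (∑ j ∈ Finset.range J0, ∫⁻ s in shell (2 ^ j * δ), g s) ^ n
      ≤ (J0:ℝ≥0∞) ^ (n - 1) * ∑ j ∈ Finset.range J0,
            ENNReal.ofReal ((2 * (2 ^ j * δ)) ^ (n - 2)) * M j := by
    refine (sum_pow_le _ _ (by omega)).trans ?_
    rw [Finset.card_range]
    gcongr with j hj
    refine (holder_half _ hgm.aemeasurable hn).trans ?_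
    rw [Measure.restrict_apply_univ]
    have h1 : volume (shell (2 ^ j * δ)) ^ (n - 2)
        ≤ ENNReal.ofReal ((2 * (2 ^ j * δ)) ^ (n - 2)) := by
      rw [ENNReal.ofReal_pow (by positivity)]
      exact pow_le_pow_left' (volume_shell_le _ (hpos j)) _
    exact mul_le_mul' h1 (hM j)
  have hC : (∫⁻ s in I ∩ far, g s) ^ n
      ≤ 3 ^ (n - 2) * (4 * ∑' i : ℕ, ((3 / 4 : ℝ≥0∞) ^ i)⁻¹ * M (J0 + i)) := by
    refine (holder_half _ hgm.aemeasurable hn).trans ?_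
    rw [Measure.restrict_apply_univ]
    have h1 : volume (I ∩ far) ^ (n - 2) ≤ 3 ^ (n - 2) := by
      apply pow_le_pow_left'
      calc volume (I ∩ far) ≤ volume I := measure_mono inter_subset_left
        _ = 3 := by
          rw [hI, Real.volume_Icc]
          have : s0 + 3 / 2 - (s0 - 3 / 2) = 3 := by ring
          rw [this]
          simp
    have h2 : (∫⁻ s in I ∩ far, g s ^ ((n:ℝ) / 2)) ^ 2
        ≤ 4 * ∑' i : ℕ, ((3 / 4 : ℝ≥0∞) ^ i)⁻¹ * M (J0 + i) := by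
      have h3 : ∫⁻ s in I ∩ far, g s ^ ((n:ℝ) / 2)
          ≤ ∑' i : ℕ, ∫⁻ s in shell (2 ^ (J0 + i) * δ), g s ^ ((n:ℝ) / 2) :=
        (lintegral_mono_set inter_subset_right).trans (lintegral_iUnion_le _ _)
      refine (pow_le_pow_left' h3 2).trans ((weighted_cs _).trans ?_)
      gcongr with i
      exact hM (J0 + i)
    exact mul_le_mul' h1 h2
  calc (∫⁻ s in I, g s) ^ n
      ≤ ((∫⁻ s in Icc (-δ) δ, g s)
      + (∑ j ∈ Finset.range J0, ∫⁻ s in shell (2 ^ j * δ), g s) + ∫⁻ s in I ∩ far, g s) ^ n :=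
        pow_le_pow_left' hsplit n
    _ ≤ 3 ^ n * ((∫⁻ s in Icc (-δ) δ, g s) ^ n
      + (∑ j ∈ Finset.range J0, ∫⁻ s in shell (2 ^ j * δ), g s) ^ n
      + (∫⁻ s in I ∩ far, g s) ^ n) := add3_pow_le _ _ _ _
    _ ≤ _ := mul_le_mul_right (add_le_add (add_le_add hA hB) hC) _

/-- The estimate with unspecified integers `J'` and `J0`. -/
theorem main_enn (d : ℕ) (hd : 2 ≤ d) : ∃ C : ℝ≥0∞, C ≠ ∞ ∧
    ∀ (N : ℕ) (γ : ℝ → E (d + 1)), Continuous γ → OrderLE N γ →
    ∀ δ : ℝ, 0 < δ → δ ≤ 1 → ∀ F : E (d + 1) → ℝ≥0∞, Measurable F →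
    ∀ J' J0 : ℕ, 1 + ((d:ℝ) + 1) * N ≤ 2 ^ J' → 1 ≤ 2 ^ J0 * δ →
    ∃ G : E (d + 1) → ℝ≥0∞, Measurable G ∧
      (∀ e a : E (d + 1), ∀ t : ℝ, ‖e‖ = 1 →
        ‖(a - γ t) - (inner ℝ (a - γ t) e : ℝ) • e‖ ≤ δ →
        ((volume (tube δ e a))⁻¹ * ∫⁻ y in tube δ e a, F y) ^ (d + 1) ≤ G e) ∧
      ∫⁻ x in closedBall (0 : E (d + 1)) 1, G (‖x‖⁻¹ • x)
        ≤ C * (((J0:ℝ≥0∞) + 1) ^ (d + 1) * ((J':ℝ≥0∞) + J0 + 1) ^ 2 * ((N:ℝ≥0∞) + 1))
          * ∫⁻ y, F y ^ (d + 1) := by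
  obtain ⟨C1, hC1, hT⟩ := tube_avg d
  obtain ⟨C2, hC2, hS⟩ := sph_scale d (by omega)
  set n := d + 1 with hn
  set K : ℝ≥0∞ := ENNReal.ofReal ((4 / 3) ^ n) with hK
  have hKt : K ≠ ∞ := ENNReal.ofReal_ne_top
  refine ⟨C1 ^ n * (3 ^ n * (cCore n * vB n 1 + 2 ^ (n - 2) * (C2 * K ^ n)
    + 3 ^ (n - 2) * (4 * (C2 * K ^ n * cSer)))), ?_, ?_⟩
  · apply ENNReal.mul_ne_top (ENNReal.pow_ne_top hC1)
    apply ENNReal.mul_ne_top (ENNReal.pow_ne_top (by norm_num))
    apply ENNReal.add_ne_top.2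
    refine ⟨ENNReal.add_ne_top.2 ⟨ENNReal.mul_ne_top (cCore_ne_top n) (vB_ne_top n 1), ?_⟩, ?_⟩
    · exact ENNReal.mul_ne_top (ENNReal.pow_ne_top (by norm_num))
        (ENNReal.mul_ne_top hC2 (ENNReal.pow_ne_top hKt))
    · exact ENNReal.mul_ne_top (ENNReal.pow_ne_top (by norm_num)) (ENNReal.mul_ne_top (by norm_num)
        (ENNReal.mul_ne_top (ENNReal.mul_ne_top hC2 (ENNReal.pow_ne_top hKt)) cSer_ne_top))
  intro N γ hγ hN δ hδ hδ1 F hF J' J0 hJ' hJ0
  set X := ∫⁻ y, F y ^ n with hX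
  set H1 : E n → ℝ≥0∞ := fun x => Phi (3 * δ) F x ^ ((n:ℝ) / 2) with hH1
  set H2 : E n → ℝ≥0∞ := fun x => (K * Phi (4 * δ) F x) ^ ((n:ℝ) / 2) with hH2
  have hH1m : Measurable H1 := (measurable_Phi _ hF).pow_const _
  have hH2m : Measurable H2 := ((measurable_Phi _ hF).const_mul _).pow_const _
  have h12 : ∀ x x', ‖x - x'‖ ≤ δ → H1 x ≤ H2 x' := by
    intro x x' hxx'
    exact ENNReal.rpow_le_rpow (Phi_le_Phi hδ F hxx') (by positivity)
  have hH2X : ∫⁻ x, H2 x ^ 2 ≤ K ^ n * X := by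
    have e1 : ∀ x, H2 x ^ 2 = K ^ n * Phi (4 * δ) F x ^ n := by
      intro x
      rw [hH2]
      simp only
      rw [sq_rpow_half, mul_pow]
    simp_rw [e1]
    rw [lintegral_const_mul' _ _ (ENNReal.pow_ne_top hKt)]
    gcongr
    exact lintegral_Phi_pow (by positivity) hF (by omega)
  have hex : ∀ j : ℕ, ∃ M : E n → ℝ≥0∞, Measurable M ∧
      (∀ e, ‖e‖ = 1 → ∀ t, (∫⁻ s in shell (2 ^ j * δ), H1 (γ t + s • e)) ^ 2 ≤ M e) ∧
      ∫⁻ x in closedBall (0 : E n) 1, M (‖x‖⁻¹ • x)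
        ≤ C2 * (((J':ℝ≥0∞) + j + 1) ^ 2 * (N + 1)) *
          (ENNReal.ofReal ((2 ^ j * δ) * ((2 ^ j * δ) ^ d)⁻¹) * (K ^ n * X)) := by
    intro j
    obtain ⟨M, h1, h2, h3⟩ := hS N γ hγ hN H1 H2 hH1m hH2m δ hδ h12 (2 ^ j * δ) (by positivity)
      (J' + j) (by
        have e1 : 1 + ((d:ℝ) + 1) * N * (2 ^ j * δ) / (4 * δ)
            = 1 + ((d:ℝ) + 1) * N * 2 ^ j / 4 := by
          field_simp
        rw [e1, pow_add]
        have h4 : (1:ℝ) ≤ 2 ^ j := one_le_pow₀ (by norm_num)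
        have h5 : (0:ℝ) ≤ ((d:ℝ) + 1) * N := by positivity
        nlinarith [mul_le_mul_of_nonneg_right hJ' (by positivity : (0:ℝ) ≤ 2 ^ j),
          mul_nonneg h5 (by positivity : (0:ℝ) ≤ 2 ^ j)])
    refine ⟨M, h1, h2, h3.trans ?_⟩
    push_cast
    gcongr
  choose M hMm hMle hMint using hex
  set G : E n → ℝ≥0∞ := fun e => C1 ^ n * (3 ^ n * (cCore n * X
        + (J0:ℝ≥0∞) ^ (n - 1) * ∑ j ∈ Finset.range J0,
            ENNReal.ofReal ((2 * (2 ^ j * δ)) ^ (n - 2)) * M j e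
        + 3 ^ (n - 2) * (4 * ∑' i : ℕ, ((3 / 4 : ℝ≥0∞) ^ i)⁻¹ * M (J0 + i) e))) with hG
  have hGB : Measurable (fun e : E n => ∑ j ∈ Finset.range J0,
      ENNReal.ofReal ((2 * (2 ^ j * δ)) ^ (n - 2)) * M j e) :=
    Finset.measurable_fun_sum _ (fun j _ => (hMm j).const_mul _)
  have hGC : Measurable (fun e : E n => ∑' i : ℕ, ((3 / 4 : ℝ≥0∞) ^ i)⁻¹ * M (J0 + i) e) :=
    Measurable.tsum (fun i => (hMm (J0 + i)).const_mul _)
  have hGm : Measurable G :=
    (((measurable_const.add (hGB.const_mul _)).add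
      ((hGC.const_mul _).const_mul _)).const_mul _).const_mul _
  refine ⟨G, hGm, ?_, ?_⟩
  · intro e a t he hp
    have h1 := hT δ hδ hδ1 F hF e a (γ t) he hp
    have h2 := line_est (n := n) (by omega) hδ hF (p := γ t) he (inner ℝ (a - γ t) e) J0
      (fun j => M j e) (fun j => hMle j e he t)
    calc ((volume (tube δ e a))⁻¹ * ∫⁻ y in tube δ e a, F y) ^ n
        ≤ (C1 * ∫⁻ s in Icc ((inner ℝ (a - γ t) e : ℝ) - 3 / 2)
            ((inner ℝ (a - γ t) e : ℝ) + 3 / 2), Phi (3 * δ) F (γ t + s • e)) ^ n :=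
          pow_le_pow_left' h1 n
      _ ≤ G e := by
          rw [mul_pow]
          exact mul_le_mul_right h2 _
  · have hmM : ∀ j, Measurable (fun x : E n => M j (‖x‖⁻¹ • x)) := fun j =>
      (hMm j).comp measurable_dir
    set Q : ℝ≥0∞ := ((J':ℝ≥0∞) + J0 + 1) ^ 2 * ((N:ℝ≥0∞) + 1) with hQ
    have hB : ∫⁻ x in closedBall (0 : E n) 1, ∑ j ∈ Finset.range J0,
        ENNReal.ofReal ((2 * (2 ^ j * δ)) ^ (n - 2)) * M j (‖x‖⁻¹ • x)
        ≤ J0 * (2 ^ (n - 2) * (C2 * K ^ n) * Q * X) := by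
      rw [lintegral_finsetSum _ (fun j _ => (hmM j).const_mul _)]
      calc ∑ j ∈ Finset.range J0, ∫⁻ x in closedBall (0 : E n) 1,
            ENNReal.ofReal ((2 * (2 ^ j * δ)) ^ (n - 2)) * M j (‖x‖⁻¹ • x)
          ≤ ∑ j ∈ Finset.range J0, 2 ^ (n - 2) * (C2 * K ^ n) * Q * X := by
            apply Finset.sum_le_sum
            intro j hj
            rw [lintegral_const_mul' _ _ ENNReal.ofReal_ne_top]
            have hjJ : (j:ℝ≥0∞) ≤ J0 := by exact_mod_cast (Finset.mem_range.1 hj).le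
            calc ENNReal.ofReal ((2 * (2 ^ j * δ)) ^ (n - 2)) *
                  ∫⁻ x in closedBall (0 : E n) 1, M j (‖x‖⁻¹ • x)
                ≤ ENNReal.ofReal ((2 * (2 ^ j * δ)) ^ (n - 2)) *
                  (C2 * (((J':ℝ≥0∞) + J0 + 1) ^ 2 * (N + 1)) *
                  (ENNReal.ofReal ((2 ^ j * δ) * ((2 ^ j * δ) ^ d)⁻¹) * (K ^ n * X))) := by
                  gcongr
                  refine (hMint j).trans ?_
                  gcongr
              _ = (ENNReal.ofReal ((2 * (2 ^ j * δ)) ^ (n - 2)) *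
                  ENNReal.ofReal ((2 ^ j * δ) * ((2 ^ j * δ) ^ d)⁻¹)) *
                  ((C2 * K ^ n) * Q * X) := by rw [hQ]; ring
              _ = _ := by
                  have e1 : ENNReal.ofReal ((2 * (2 ^ j * δ)) ^ (n - 2)) *
                      ENNReal.ofReal ((2 ^ j * δ) * ((2 ^ j * δ) ^ d)⁻¹) = 2 ^ (n - 2) := by
                    rw [← ENNReal.ofReal_mul (by positivity)]
                    have hl : 0 < 2 ^ j * δ := by positivity
                    have e2 : (2 * (2 ^ j * δ)) ^ (n - 2) * ((2 ^ j * δ) * ((2 ^ j * δ) ^ d)⁻¹)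
                        = 2 ^ (n - 2) := by
                      obtain ⟨k, hk⟩ : ∃ k, d = k + 1 := ⟨d - 1, by omega⟩
                      have hk2 : n - 2 = k := by omega
                      rw [hk2, hk, mul_pow, pow_succ]
                      field_simp
                    rw [e2, ENNReal.ofReal_pow (by norm_num)]
                    simp
                  rw [e1]
                  ring
        _ = _ := by rw [Finset.sum_const, Finset.card_range, nsmul_eq_mul]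
    have hCi : ∫⁻ x in closedBall (0 : E n) 1, ∑' i : ℕ,
        ((3 / 4 : ℝ≥0∞) ^ i)⁻¹ * M (J0 + i) (‖x‖⁻¹ • x)
        ≤ C2 * K ^ n * cSer * Q * X := by
      rw [lintegral_tsum (fun i => ((hmM (J0 + i)).const_mul _).aemeasurable)]
      calc ∑' i : ℕ, ∫⁻ x in closedBall (0 : E n) 1,
            ((3 / 4 : ℝ≥0∞) ^ i)⁻¹ * M (J0 + i) (‖x‖⁻¹ • x)
          ≤ ∑' i : ℕ, (((3 / 4 : ℝ≥0∞) ^ i)⁻¹ * (((i:ℝ≥0∞) + 1) ^ 2 *
              ENNReal.ofReal ((2 ^ i)⁻¹))) * (C2 * K ^ n * Q * X) := by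
            apply ENNReal.tsum_le_tsum
            intro i
            rw [lintegral_const_mul' _ _ (ENNReal.inv_ne_top.2 (three_four_pow_ne_zero i))]
            calc ((3 / 4 : ℝ≥0∞) ^ i)⁻¹ *
                  ∫⁻ x in closedBall (0 : E n) 1, M (J0 + i) (‖x‖⁻¹ • x)
                ≤ ((3 / 4 : ℝ≥0∞) ^ i)⁻¹ * (C2 * (((((J':ℝ≥0∞) + J0 + 1) * ((i:ℝ≥0∞) + 1)) ^ 2)
                    * (N + 1)) * (ENNReal.ofReal ((2 ^ i)⁻¹) * (K ^ n * X))) := by
                  gcongr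
                  refine (hMint (J0 + i)).trans ?_
                  gcongr
                  · push_cast
                    calc (J':ℝ≥0∞) + (J0 + i) + 1 = ((J':ℝ≥0∞) + J0 + 1) * 1 + 1 * i := by ring
                      _ ≤ ((J':ℝ≥0∞) + J0 + 1) * 1 + ((J':ℝ≥0∞) + J0 + 1) * i := by
                        gcongr
                        exact le_add_self
                      _ = _ := by ring
                  · have h1 : (1:ℝ) ≤ 2 ^ i := one_le_pow₀ (by norm_num)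
                    set l : ℝ := 2 ^ (J0 + i) * δ with hl
                    have h2 : (2:ℝ) ^ i ≤ l := by
                      rw [hl, pow_add]
                      nlinarith
                    have hl1 : 1 ≤ l := h1.trans h2
                    obtain ⟨k, hk⟩ : ∃ k, d = k + 2 := ⟨d - 2, by omega⟩
                    rw [hk]
                    have h3 : l * (l ^ (k + 2))⁻¹ = (l ^ (k + 1))⁻¹ := by
                      rw [pow_succ l (k + 1)]
                      field_simp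
                    rw [h3]
                    apply inv_anti₀ (by positivity)
                    calc (2:ℝ) ^ i ≤ l := h2
                      _ = l ^ 1 := (pow_one l).symm
                      _ ≤ l ^ (k + 1) := pow_le_pow_right₀ hl1 (by omega)
              _ = _ := by rw [hQ]; ring
        _ = _ := by
            rw [ENNReal.tsum_mul_right]
            have : cSer = ∑' i : ℕ, ((3 / 4 : ℝ≥0∞) ^ i)⁻¹ *
              (((i:ℝ≥0∞) + 1) ^ 2 * ENNReal.ofReal ((2 ^ i)⁻¹)) := rfl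
            rw [← this]
            ring
    have hmB : Measurable (fun x : E n => ∑ j ∈ Finset.range J0,
        ENNReal.ofReal ((2 * (2 ^ j * δ)) ^ (n - 2)) * M j (‖x‖⁻¹ • x)) :=
      hGB.comp measurable_dir
    have hmC : Measurable (fun x : E n => ∑' i : ℕ,
        ((3 / 4 : ℝ≥0∞) ^ i)⁻¹ * M (J0 + i) (‖x‖⁻¹ • x)) := hGC.comp measurable_dir
    have hInt : ∫⁻ x in closedBall (0 : E n) 1, G (‖x‖⁻¹ • x)
        = C1 ^ n * (3 ^ n * (cCore n * X * vB n 1
          + (J0:ℝ≥0∞) ^ (n - 1) * (∫⁻ x in closedBall (0 : E n) 1, ∑ j ∈ Finset.range J0,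
            ENNReal.ofReal ((2 * (2 ^ j * δ)) ^ (n - 2)) * M j (‖x‖⁻¹ • x))
          + 3 ^ (n - 2) * (4 * ∫⁻ x in closedBall (0 : E n) 1, ∑' i : ℕ,
            ((3 / 4 : ℝ≥0∞) ^ i)⁻¹ * M (J0 + i) (‖x‖⁻¹ • x)))) := by
      simp only [hG]
      rw [lintegral_const_mul' _ _ (ENNReal.pow_ne_top hC1),
        lintegral_const_mul' _ _ (ENNReal.pow_ne_top (by norm_num)),
        lintegral_add_right _ ((hmC.const_mul _).const_mul _),
        lintegral_add_right _ (hmB.const_mul _), setLIntegral_const,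
        lintegral_const_mul' _ _ (ENNReal.pow_ne_top (ENNReal.natCast_ne_top _)),
        lintegral_const_mul' _ _ (ENNReal.pow_ne_top (by norm_num)),
        lintegral_const_mul' _ _ (by norm_num)]
      rfl
    rw [hInt]
    set P : ℝ≥0∞ := ((J0:ℝ≥0∞) + 1) ^ n * Q with hP
    have hQ1 : 1 ≤ Q := by
      rw [hQ]
      calc (1:ℝ≥0∞) = 1 ^ 2 * 1 := by norm_num
        _ ≤ _ := by
          gcongr
          · exact le_add_self
          · exact le_add_self
    have hJ1 : (1:ℝ≥0∞) ≤ ((J0:ℝ≥0∞) + 1) ^ n := one_le_pow₀ le_add_self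
    have hP1 : 1 ≤ P := by
      calc (1:ℝ≥0∞) = 1 * 1 := by norm_num
        _ ≤ P := mul_le_mul' hJ1 hQ1
    have hQP : Q ≤ P := by
      calc Q = 1 * Q := (one_mul _).symm
        _ ≤ P := mul_le_mul' hJ1 le_rfl
    have hJQ : (J0:ℝ≥0∞) ^ (n - 1) * J0 * Q ≤ P := by
      apply mul_le_mul' _ le_rfl
      calc (J0:ℝ≥0∞) ^ (n - 1) * J0 = (J0:ℝ≥0∞) ^ n := by
            rw [← pow_succ]
            congr 1
        _ ≤ _ := pow_le_pow_left' le_self_add n
    calc C1 ^ n * (3 ^ n * (cCore n * X * vB n 1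
          + (J0:ℝ≥0∞) ^ (n - 1) * (∫⁻ x in closedBall (0 : E n) 1, ∑ j ∈ Finset.range J0,
            ENNReal.ofReal ((2 * (2 ^ j * δ)) ^ (n - 2)) * M j (‖x‖⁻¹ • x))
          + 3 ^ (n - 2) * (4 * ∫⁻ x in closedBall (0 : E n) 1, ∑' i : ℕ,
            ((3 / 4 : ℝ≥0∞) ^ i)⁻¹ * M (J0 + i) (‖x‖⁻¹ • x))))
        ≤ C1 ^ n * (3 ^ n * (cCore n * X * vB n 1 * P
          + (J0:ℝ≥0∞) ^ (n - 1) * (J0 * (2 ^ (n - 2) * (C2 * K ^ n) * Q * X))
          + 3 ^ (n - 2) * (4 * (C2 * K ^ n * cSer * P * X)))) := by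
          have b1 : cCore n * X * vB n 1 ≤ cCore n * X * vB n 1 * P :=
            le_mul_of_one_le_right zero_le hP1
          have b2 : C2 * K ^ n * cSer * Q * X ≤ C2 * K ^ n * cSer * P * X := by gcongr
          exact mul_le_mul_right (mul_le_mul_right (add_le_add (add_le_add b1
            (mul_le_mul_right hB _)) (mul_le_mul_right (mul_le_mul_right (hCi.trans b2) _) _)) _) _
      _ = C1 ^ n * (3 ^ n * (cCore n * X * vB n 1 * P
          + ((J0:ℝ≥0∞) ^ (n - 1) * J0 * Q) * (2 ^ (n - 2) * (C2 * K ^ n) * X)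
          + 3 ^ (n - 2) * (4 * (C2 * K ^ n * cSer * P * X)))) := by ring
      _ ≤ C1 ^ n * (3 ^ n * (cCore n * X * vB n 1 * P
          + P * (2 ^ (n - 2) * (C2 * K ^ n) * X)
          + 3 ^ (n - 2) * (4 * (C2 * K ^ n * cSer * P * X)))) := by gcongr
      _ = _ := by
          rw [hP, hQ]
          ring

end Pool.Agent.W767.Kc
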