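import Pool.Agent.W767.Kc.FourV

set_option autoImplicit false

/-!
Chaining: the maximal function over the points of a sequence.
-/

open MeasureTheory Set Filter Topology ENNReal NNReal FourierTransform

namespace Pool.Agent.W767.Kc

variable {V : Type*} [NormedAddCommGroup V] [InnerProductSpace ℝ V] [MeasurableSpace V]
  [BorelSpace V] [FiniteDimensional ℝ V]

/-- Integral of `H` along the line through `(p, κ)` of slope `v`. -/
noncomputable def gN (H : V × ℝ → ℝ≥0∞) (p : V) (κ : ℝ) (v : V) : ℝ≥0∞ :=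
  ∫⁻ h, H (p + (h - κ) • v, h)

theorem measurable_gN {H : V × ℝ → ℝ≥0∞} (hH : Measurable H) (p : V) (κ : ℝ) :
    Measurable (gN H p κ) := by
  have h1 : Measurable (fun q : V × ℝ => H (p + (q.2 - κ) • q.1, q.2)) := hH.comp (by fun_prop)
  exact Measurable.lintegral_prod_right (f := fun (v : V) (h : ℝ) => H (p + (h - κ) • v, h)) h1

theorem base {H : V × ℝ → ℝ≥0∞} (hH : Measurable H) {s0 s1 κ : ℝ} (hs0 : 0 < s0)
    (hs1 : s0 ≤ s1) (hsup : ∀ y h, H (y, h) ≠ 0 → s0 ≤ h - κ ∧ h - κ ≤ s1) (p : V) :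
    ∫⁻ v, gN H p κ v ^ 2
      ≤ ENNReal.ofReal ((s1 - s0) * (s0 ^ Module.finrank ℝ V)⁻¹) * ∫⁻ q, H q ^ 2 := by
  have hm1 : Measurable (fun q : V × ℝ => H (p + (q.2 - κ) • q.1, q.2)) := hH.comp (by fun_prop)
  have hm2 : Measurable (fun q : V × ℝ => H (p + (q.2 - κ) • q.1, q.2) ^ 2) := hm1.pow_const 2
  have h1 : ∀ v, gN H p κ v ^ 2 ≤ ENNReal.ofReal (s1 - s0)
      * ∫⁻ h in Icc (κ + s0) (κ + s1), H (p + (h - κ) • v, h) ^ 2 := by
    intro v
    have e1 : gN H p κ v = ∫⁻ h in Icc (κ + s0) (κ + s1), H (p + (h - κ) • v, h) := by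
      rw [gN, ← lintegral_indicator measurableSet_Icc]
      congr 1
      ext h
      by_cases hh : h ∈ Icc (κ + s0) (κ + s1)
      · rw [indicator_of_mem hh]
      · rw [indicator_of_notMem hh]
        by_contra hne
        have := hsup _ _ hne
        exact hh ⟨by linarith [this.1], by linarith [this.2]⟩
    rw [e1]
    refine (lintegral_sq_le _ (hm1.comp measurable_prodMk_left).aemeasurable).trans ?_
    rw [Measure.restrict_apply_univ, Real.volume_Icc]
    apply le_of_eq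
    congr 2
    ring
  calc ∫⁻ v, gN H p κ v ^ 2
      ≤ ∫⁻ v, ENNReal.ofReal (s1 - s0)
        * ∫⁻ h in Icc (κ + s0) (κ + s1), H (p + (h - κ) • v, h) ^ 2 := lintegral_mono h1
    _ = ENNReal.ofReal (s1 - s0) * ∫⁻ h in Icc (κ + s0) (κ + s1), ∫⁻ v,
          H (p + (h - κ) • v, h) ^ 2 := by
        rw [lintegral_const_mul' _ _ ENNReal.ofReal_ne_top]
        congr 1
        exact lintegral_lintegral_swap
          (f := fun (v : V) (h : ℝ) => H (p + (h - κ) • v, h) ^ 2) hm2.aemeasurable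
    _ ≤ ENNReal.ofReal (s1 - s0) * ∫⁻ h in Icc (κ + s0) (κ + s1),
          ENNReal.ofReal ((s0 ^ Module.finrank ℝ V)⁻¹) * ∫⁻ y, H (y, h) ^ 2 := by
        gcongr ENNReal.ofReal (s1 - s0) * ?_
        apply setLIntegral_mono' measurableSet_Icc
        intro h hh
        have hpos : 0 < h - κ := by linarith [hh.1]
        have hm3 : Measurable (fun y : V => H (y, h) ^ 2) :=
          (hH.comp measurable_prodMk_right).pow_const 2
        rw [lintegral_comp_smulV (f := fun y => H (p + y, h) ^ 2)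
          (hm3.comp (measurable_const_add p)) hpos.ne',
          lintegral_add_left_eq_self (fun y => H (y, h) ^ 2) p]
        gcongr
        rw [abs_of_pos (by positivity)]
        apply inv_anti₀ (by positivity)
        gcongr
        linarith [hh.1]
    _ ≤ ENNReal.ofReal (s1 - s0) * ∫⁻ h,
          ENNReal.ofReal ((s0 ^ Module.finrank ℝ V)⁻¹) * ∫⁻ y, H (y, h) ^ 2 := by
        gcongr
        exact Measure.restrict_le_self
    _ = _ := by
        rw [lintegral_const_mul' _ _ ENNReal.ofReal_ne_top, Measure.volume_eq_prod,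
          lintegral_prod_symm' _ (hH.pow_const 2), ENNReal.ofReal_mul (by linarith), mul_assoc]

theorem measurable_finset_sup {α : Type*} [MeasurableSpace α] (s : Finset ℕ)
    {f : ℕ → α → ℝ≥0∞} (hf : ∀ k, Measurable (f k)) :
    Measurable (fun v => s.sup (fun k => f k v)) := by
  classical
  induction s using Finset.induction_on with
  | empty => simp
  | insert a s ha ih =>
    simp only [Finset.sup_insert]
    exact (hf a).sup ih

/-- All monotone subsequences have the crossing property. -/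
def CrossAll (N : ℕ) (p : ℕ → V) (κ : ℕ → ℝ) : Prop :=
  ∀ φ : ℕ → ℕ, Monotone φ → ∀ M, ∀ η : V, η ≠ 0 → ∀ u : ℝ,
    Cross N M (fun k => inner ℝ (p (φ k)) η + κ (φ k) * u)

omit [MeasurableSpace V] [BorelSpace V] [FiniteDimensional ℝ V] in
theorem CrossAll.comp {N : ℕ} {p : ℕ → V} {κ : ℕ → ℝ} (h : CrossAll N p κ) {φ : ℕ → ℕ}
    (hφ : Monotone φ) : CrossAll N (p ∘ φ) (κ ∘ φ) :=
  fun ψ hψ M η hη u => h (φ ∘ ψ) (hφ.comp hψ) M η hη u

/-- The constant in the maximal estimate. -/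
noncomputable def cc (d : ℕ) (s0 s1 : ℝ) : ℝ≥0∞ :=
  ENNReal.ofReal ((s1 - s0) * (s0 ^ d)⁻¹) +
  2 * (8 * (ENNReal.ofReal (1 + (2 * Real.pi * (2 / s0)) ^ 2)
          * ENNReal.ofReal (s1⁻¹)⁻¹)
        * (ENNReal.ofReal ((2 / s0 - s1⁻¹) * (((2 / s0) ^ (d - 1)) ^ 2
          * (s1⁻¹ ^ d)⁻¹))))

theorem cc_ne_top (d : ℕ) (s0 s1 : ℝ) : cc d s0 s1 ≠ ∞ := by
  unfold cc
  apply ENNReal.add_ne_top.2
  refine ⟨ENNReal.ofReal_ne_top, ?_⟩
  apply ENNReal.mul_ne_top (by norm_num)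
  apply ENNReal.mul_ne_top _ ENNReal.ofReal_ne_top
  apply ENNReal.mul_ne_top (by norm_num)
  exact ENNReal.mul_ne_top ENNReal.ofReal_ne_top ENNReal.ofReal_ne_top

theorem sq_weight (a b : ℝ≥0∞) (c : ℕ) :
    ((c:ℝ≥0∞) + 1) * (a + b) ^ 2 ≤ ((c:ℝ≥0∞) + 2) * a ^ 2
      + ((c:ℝ≥0∞) + 1) * ((c:ℝ≥0∞) + 2) * b ^ 2 := by
  rcases eq_or_ne a ∞ with ha | ha
  · subst ha
    rw [ENNReal.top_pow (by norm_num), ENNReal.mul_top (by simp)]
    simp
  rcases eq_or_ne b ∞ with hb | hb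
  · subst hb
    rw [ENNReal.top_pow (by norm_num), ENNReal.mul_top (by simp)]
    simp
  lift a to ℝ≥0 using ha
  lift b to ℝ≥0 using hb
  norm_cast
  rw [← NNReal.coe_le_coe]
  push_cast
  nlinarith [sq_nonneg ((a:ℝ) - (c + 1) * b)]

/-- The maximal function over the first `2 ^ J` points. -/
theorem chain (hd : 1 ≤ Module.finrank ℝ V) {F : V × ℝ → ℂ} (hF : Nice F) {s0 s1 : ℝ}
    (hs0 : 0 < s0) (hs1 : s0 ≤ s1) {N : ℕ} (J : ℕ) :
    ∀ (p : ℕ → V) (κ : ℕ → ℝ), CrossAll N p κ →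
    (∀ k y h, F (y, h) ≠ 0 → s0 ≤ h - κ k ∧ h - κ k ≤ s1) →
    ∫⁻ v, ((Finset.range (2 ^ J)).sup (fun k => ‖gg F (p k) (κ k) v‖ₑ)) ^ 2
      ≤ ((J:ℝ≥0∞) + 1) ^ 2 * ((N + 1) * cc (Module.finrank ℝ V) s0 s1 * ∫⁻ q, ‖F q‖ₑ ^ 2) := by
  induction J with
  | zero =>
    intro p κ hc hsup
    simp only [pow_zero, Finset.range_one, Finset.sup_singleton, Nat.cast_zero, zero_add, one_pow,
      one_mul]
    have h1 : ∀ v, ‖gg F (p 0) (κ 0) v‖ₑ ≤ gN (fun q => ‖F q‖ₑ) (p 0) (κ 0) v :=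
      fun v => enorm_integral_le_lintegral_enorm _
    calc ∫⁻ v, ‖gg F (p 0) (κ 0) v‖ₑ ^ 2 ≤ ∫⁻ v, gN (fun q => ‖F q‖ₑ) (p 0) (κ 0) v ^ 2 :=
          lintegral_mono (fun v => pow_le_pow_left' (h1 v) 2)
      _ ≤ ENNReal.ofReal ((s1 - s0) * (s0 ^ Module.finrank ℝ V)⁻¹) * ∫⁻ q, ‖F q‖ₑ ^ 2 := by
          apply base hF.1.enorm hs0 hs1
          intro y h hne
          apply hsup 0 y h
          simpa using hne
      _ ≤ _ := by
          gcongr
          calc ENNReal.ofReal ((s1 - s0) * (s0 ^ Module.finrank ℝ V)⁻¹)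
              ≤ 1 * cc (Module.finrank ℝ V) s0 s1 := by rw [one_mul, cc]; exact le_self_add
            _ ≤ _ := by gcongr; exact le_add_self
  | succ J ih =>
    intro p κ hc hsup
    set K := (N + 1) * cc (Module.finrank ℝ V) s0 s1 * ∫⁻ q, ‖F q‖ₑ ^ 2 with hK
    have hN : ∀ k, Nice (gg F (p k) (κ k)) := fun k => nice_gg hF hs0
      (fun y h hne => (hsup k y h hne).1) (p k)
    have hmono : Monotone (fun k : ℕ => 2 * k) := fun a b hab => by simpa using hab
    set A : V → ℝ≥0∞ := fun v =>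
      (Finset.range (2 ^ J)).sup (fun k => ‖gg F (p (2 * k)) (κ (2 * k)) v‖ₑ) with hA
    set B : V → ℝ≥0∞ := fun v => (Finset.range (2 ^ J)).sup (fun k =>
      ‖gg F (p (2 * k + 1)) (κ (2 * k + 1)) v - gg F (p (2 * k)) (κ (2 * k)) v‖ₑ) with hB
    have hAm : Measurable A := measurable_finset_sup _ (fun k => (hN _).1.enorm)
    have hpt : ∀ v, (Finset.range (2 ^ (J+1))).sup (fun k => ‖gg F (p k) (κ k) v‖ₑ)
        ≤ A v + B v := by
      intro v
      apply Finset.sup_le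
      intro k hk
      rw [Finset.mem_range, pow_succ] at hk
      rcases Nat.even_or_odd' k with ⟨j, rfl | rfl⟩
      · refine le_trans ?_ le_self_add
        exact Finset.le_sup (f := fun k => ‖gg F (p (2 * k)) (κ (2 * k)) v‖ₑ)
          (Finset.mem_range.2 (by omega))
      · have hj : j ∈ Finset.range (2 ^ J) := Finset.mem_range.2 (by omega)
        have e : gg F (p (2 * j + 1)) (κ (2 * j + 1)) v = gg F (p (2 * j)) (κ (2 * j)) v
          + (gg F (p (2 * j + 1)) (κ (2 * j + 1)) v - gg F (p (2 * j)) (κ (2 * j)) v) := by ring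
        rw [e]
        refine (enorm_add_le _ _).trans (add_le_add ?_ ?_)
        · exact Finset.le_sup (f := fun k => ‖gg F (p (2 * k)) (κ (2 * k)) v‖ₑ) hj
        · exact Finset.le_sup (f := fun k => ‖gg F (p (2 * k + 1)) (κ (2 * k + 1)) v
            - gg F (p (2 * k)) (κ (2 * k)) v‖ₑ) hj
    have hIA : ∫⁻ v, A v ^ 2 ≤ ((J:ℝ≥0∞) + 1) ^ 2 * K :=
      ih (p ∘ fun k => 2 * k) (κ ∘ fun k => 2 * k) (hc.comp hmono) (fun k => hsup (2 * k))
    have hIB : ∫⁻ v, B v ^ 2 ≤ K := by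
      calc ∫⁻ v, B v ^ 2 ≤ ∫⁻ v, ∑ k ∈ Finset.range (2 ^ J),
            ‖gg F (p (2 * k + 1)) (κ (2 * k + 1)) v - gg F (p (2 * k)) (κ (2 * k)) v‖ₑ ^ 2 := by
            apply lintegral_mono
            intro v
            simp only [hB]
            rw [Finset.apply_sup_eq_sup_comp_of_linearOrder (fun x : ℝ≥0∞ => x ^ 2)
              (fun a b hab => pow_le_pow_left' hab 2) (by simp)]
            apply Finset.sup_le
            intro k hk
            exact Finset.single_le_sum (f := fun k => ‖gg F (p (2 * k + 1)) (κ (2 * k + 1)) v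
              - gg F (p (2 * k)) (κ (2 * k)) v‖ₑ ^ 2) (fun _ _ => zero_le) hk
        _ = ∑ k ∈ Finset.range (2 ^ J), ∫⁻ v,
            ‖gg F (p (2 * k + 1)) (κ (2 * k + 1)) v - gg F (p (2 * k)) (κ (2 * k)) v‖ₑ ^ 2 := by
            rw [lintegral_finsetSum]
            intro k _
            exact ((hN _).1.sub (hN _).1).enorm.pow_const 2
        _ ≤ ∑ k ∈ Finset.range (2 ^ (J+1)), ∫⁻ v,
            ‖gg F (p (k + 1)) (κ (k + 1)) v - gg F (p k) (κ k) v‖ₑ ^ 2 := by
            have hinj : Set.InjOn (fun k : ℕ => 2 * k) (Finset.range (2 ^ J)) := by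
              intro a _ b _ hab
              simpa using hab
            rw [← Finset.sum_image (g := fun k : ℕ => 2 * k) (f := fun k => ∫⁻ v,
              ‖gg F (p (k + 1)) (κ (k + 1)) v - gg F (p k) (κ k) v‖ₑ ^ 2) hinj]
            apply Finset.sum_le_sum_of_subset
            intro k hk
            simp only [Finset.mem_image, Finset.mem_range] at hk ⊢
            obtain ⟨a, ha, rfl⟩ := hk
            rw [pow_succ]
            omega
        _ ≤ _ := core hd hF hs0 hs1 p κ hsup (hc id monotone_id _)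
        _ ≤ K := by
            rw [hK]
            calc _ = N * (2 * (8 * (ENNReal.ofReal (1 + (2 * Real.pi * (2 / s0)) ^ 2)
                      * ENNReal.ofReal (s1⁻¹)⁻¹)
                    * (ENNReal.ofReal ((2 / s0 - s1⁻¹) *
                      (((2 / s0) ^ (Module.finrank ℝ V - 1)) ^ 2
                      * (s1⁻¹ ^ Module.finrank ℝ V)⁻¹))))) * ∫⁻ q, ‖F q‖ₑ ^ 2 := by ring
              _ ≤ _ := by
                gcongr
                · exact le_self_add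
                · rw [cc]; exact le_add_self
    have hJ0 : ((J:ℝ≥0∞) + 1) ≠ 0 := by simp
    have hJt : ((J:ℝ≥0∞) + 1) ≠ ∞ := by simp
    have hfin : ((J:ℝ≥0∞) + 1) * ∫⁻ v, ((Finset.range (2 ^ (J+1))).sup
        (fun k => ‖gg F (p k) (κ k) v‖ₑ)) ^ 2
        ≤ ((J:ℝ≥0∞) + 1) * ((((J+1 : ℕ):ℝ≥0∞) + 1) ^ 2 * K) := by
      calc ((J:ℝ≥0∞) + 1) * ∫⁻ v, ((Finset.range (2 ^ (J+1))).sup
            (fun k => ‖gg F (p k) (κ k) v‖ₑ)) ^ 2
          ≤ ((J:ℝ≥0∞) + 1) * ∫⁻ v, (A v + B v) ^ 2 := by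
            gcongr with v
            exact hpt v
        _ = ∫⁻ v, ((J:ℝ≥0∞) + 1) * (A v + B v) ^ 2 := by
            rw [lintegral_const_mul' _ _ hJt]
        _ ≤ ∫⁻ v, (((J:ℝ≥0∞) + 2) * A v ^ 2 + ((J:ℝ≥0∞) + 1) * ((J:ℝ≥0∞) + 2) * B v ^ 2) :=
            lintegral_mono (fun v => sq_weight _ _ _)
        _ = ((J:ℝ≥0∞) + 2) * (∫⁻ v, A v ^ 2)
            + ((J:ℝ≥0∞) + 1) * ((J:ℝ≥0∞) + 2) * ∫⁻ v, B v ^ 2 := by
            rw [lintegral_add_left ((hAm.pow_const 2).const_mul _), lintegral_const_mul' _ _ (by simp),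
              lintegral_const_mul' _ _ (by
                apply ENNReal.mul_ne_top hJt; simp)]
        _ ≤ ((J:ℝ≥0∞) + 2) * (((J:ℝ≥0∞) + 1) ^ 2 * K)
            + ((J:ℝ≥0∞) + 1) * ((J:ℝ≥0∞) + 2) * K := by gcongr
        _ = _ := by
            push_cast
            ring
    exact (ENNReal.mul_le_mul_iff_right hJ0 hJt).1 hfin

end Pool.Agent.W767.Kc
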