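import Pool.Agent.W767.Kc.Curve

set_option autoImplicit false
set_option linter.unusedSectionVars false

/-!
The square function estimate for directions in a cone, at unit scale.
-/

open MeasureTheory Set Filter Topology ENNReal NNReal

namespace Pool.Agent.W767.Kc

open Pool.Agent.H742R2.Kk

/-- The cone of half angle `45` degrees around the first axis. -/
def cone (d : ℕ) : Set (E (d + 1)) := {x | ‖tl x‖ ≤ x 0}

theorem norm_sq_eq {d : ℕ} (x : E (d + 1)) : ‖x‖ ^ 2 = x 0 ^ 2 + ‖tl x‖ ^ 2 := by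
  conv_lhs => rw [← ins_eta x]
  rw [← real_inner_self_eq_norm_sq, inner_ins, real_inner_self_eq_norm_sq]
  ring

theorem measurableSet_cone (d : ℕ) : MeasurableSet (cone d) :=
  measurableSet_le measurable_tl.norm (measurable_apply 0)

theorem cone_zero_sq {d : ℕ} {e : E (d + 1)} (he : e ∈ cone d) (h1 : ‖e‖ = 1) :
    1 / 2 ≤ e 0 ^ 2 := by
  have h := norm_sq_eq e
  rw [h1] at h
  have h2 : ‖tl e‖ ^ 2 ≤ e 0 ^ 2 := pow_le_pow_left₀ (norm_nonneg _) he 2
  linarith

theorem cone_zero {d : ℕ} {e : E (d + 1)} (he : e ∈ cone d) (h1 : ‖e‖ = 1) :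
    7 / 10 ≤ e 0 := by
  have h := cone_zero_sq he h1
  have h0 : 0 ≤ e 0 := (norm_nonneg _).trans he
  nlinarith

theorem abs_apply_le {n : ℕ} (x : E n) (i : Fin n) : |x i| ≤ ‖x‖ := by
  rw [← Real.norm_eq_abs]
  exact PiLp.norm_apply_le x i

/-- The enlarged cube number `m`. -/
def bigQ {d : ℕ} (m : Fin (d + 1) → ℤ) : Set (E (d + 1)) :=
  {x | (m 0 : ℝ) / 4 + 1 / 2 ≤ x 0 ∧ x 0 ≤ (m 0 : ℝ) / 4 + 9 / 4 ∧ ∀ i, |x i - (m i : ℝ) / 4| ≤ 3}

theorem measurableSet_bigQ {d : ℕ} (m : Fin (d + 1) → ℤ) : MeasurableSet (bigQ m) := by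
  have h1 : MeasurableSet {x : E (d + 1) | (m 0 : ℝ) / 4 + 1 / 2 ≤ x 0} :=
    measurableSet_le measurable_const (measurable_apply 0)
  have h2 : MeasurableSet {x : E (d + 1) | x 0 ≤ (m 0 : ℝ) / 4 + 9 / 4} :=
    measurableSet_le (measurable_apply 0) measurable_const
  have h3 : MeasurableSet {x : E (d + 1) | ∀ i, |x i - (m i : ℝ) / 4| ≤ 3} := by
    rw [ofPred_forall]
    apply MeasurableSet.iInter
    intro i
    have hi : Measurable (fun x : E (d + 1) => |x i - (m i : ℝ) / 4|) :=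
      ((measurable_apply i).sub_const _).abs
    exact measurableSet_le hi measurable_const
  have e : bigQ m = {x : E (d + 1) | (m 0 : ℝ) / 4 + 1 / 2 ≤ x 0} ∩
      ({x : E (d + 1) | x 0 ≤ (m 0 : ℝ) / 4 + 9 / 4} ∩
        {x : E (d + 1) | ∀ i, |x i - (m i : ℝ) / 4| ≤ 3}) := rfl
  rw [e]
  exact h1.inter (h2.inter h3)

theorem overlap {d : ℕ} (H : E (d + 1) → ℝ≥0∞) (x : E (d + 1)) :
    ∑' m : Fin (d + 1) → ℤ, (bigQ m).indicator H x ≤ 25 ^ (d + 1) * H x := by
  classical
  set S : Finset (Fin (d + 1) → ℤ) :=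
    Fintype.piFinset (fun i => Finset.Icc ⌈4 * x i - 12⌉ ⌊4 * x i + 12⌋) with hS
  have h1 : ∀ m ∉ S, (bigQ m).indicator H x = 0 := by
    intro m hm
    apply indicator_of_notMem
    rintro ⟨-, -, h⟩
    apply hm
    rw [hS, Fintype.mem_piFinset]
    intro i
    rw [Finset.mem_Icc]
    have := abs_le.1 (h i)
    constructor
    · rw [Int.ceil_le]; linarith [this.1, this.2]
    · rw [Int.le_floor]; linarith [this.1, this.2]
  rw [tsum_eq_sum h1]
  calc ∑ m ∈ S, (bigQ m).indicator H x ≤ ∑ m ∈ S, H x :=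
        Finset.sum_le_sum (fun m _ => indicator_le_self _ _ _)
    _ = S.card * H x := by rw [Finset.sum_const, nsmul_eq_mul]
    _ ≤ _ := by
        gcongr
        have h2 : S.card ≤ 25 ^ (d + 1) := by
          rw [hS, Fintype.card_piFinset]
          calc ∏ i : Fin (d + 1), (Finset.Icc ⌈4 * x i - 12⌉ ⌊4 * x i + 12⌋).card
              ≤ ∏ i : Fin (d + 1), 25 := by
                apply Finset.prod_le_prod'
                intro i _
                rw [Int.card_Icc]
                have h3 := Int.floor_le (4 * x i + 12)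
                have h4 := Int.le_ceil (4 * x i - 12)
                have h5 : (⌊4 * x i + 12⌋ : ℝ) - ⌈4 * x i - 12⌉ ≤ 24 := by linarith
                have h6 : ⌊4 * x i + 12⌋ - ⌈4 * x i - 12⌉ ≤ 24 := by exact_mod_cast h5
                omega
            _ = 25 ^ (d + 1) := by simp
        exact_mod_cast h2

/-- The constant of the chart estimate. -/
noncomputable def cChart (d : ℕ) : ℝ≥0∞ := 2 * (cc d (1/4) (9/4) * 25 ^ (d + 1))

theorem cChart_ne_top (d : ℕ) : cChart d ≠ ∞ :=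
  ENNReal.mul_ne_top (by norm_num) (ENNReal.mul_ne_top (cc_ne_top _ _ _)
    (ENNReal.pow_ne_top (by norm_num)))

theorem chart_cube {d N : ℕ} (hd : 1 ≤ d) {γ : ℝ → E (d + 1)} (hγ : Continuous γ)
    (hN : OrderLE N γ) {H1 H2 : E (d + 1) → ℝ≥0∞} (hH2 : Measurable H2) {δ : ℝ} (hδ : 0 < δ)
    (h12 : ∀ x x', ‖x - x'‖ ≤ δ → H1 x ≤ H2 x') {J : ℕ}
    (hJ : 1 + (d + 1) * N / (4 * δ) ≤ (2:ℝ) ^ J) (m : Fin (d + 1) → ℤ) :
    ∃ M : E (d + 1) → ℝ≥0∞, Measurable M ∧
      (∀ e ∈ cone d, ‖e‖ = 1 → ∀ t, (∀ i, |γ t i - ((m i : ℝ) / 4 + 1 / 8)| ≤ 1 / 8) →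
        (∫⁻ s in Icc (1:ℝ) 2, H1 (γ t + s • e)) ^ 2 ≤ M e) ∧
      ∫⁻ v : E d, M (‖ins 1 v‖⁻¹ • ins 1 v)
        ≤ 2 * (((J:ℝ≥0∞) + 1) ^ 2 * ((N + 1) * cc d (1/4) (9/4)
          * ∫⁻ x, (bigQ m).indicator (fun x => H2 x ^ 2) x)) := by
  by_cases hne : ∃ t, ∀ i, |γ t i - ((m i : ℝ) / 4 + 1 / 8)| ≤ 1 / 8
  swap
  · refine ⟨fun _ => 0, measurable_const, ?_, by simp⟩
    intro e _ _ t ht
    exact absurd ⟨t, ht⟩ hne
  set c : E (d + 1) := WithLp.toLp 2 (fun i => (m i : ℝ) / 4 + 1 / 8) with hc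
  have hci : ∀ i, c i = (m i : ℝ) / 4 + 1 / 8 := fun i => rfl
  obtain ⟨u, hum, huQ, hugrid⟩ := exists_grid hγ hN (c := c) (ρ := 1/8) (δ := δ) (by norm_num) hδ
    (by simpa only [hci] using hne) (m := 2 ^ J) (by
      push_cast
      refine le_trans (le_of_eq ?_) hJ
      field_simp
      ring)
  simp only [hci] at huQ hugrid
  set Hm : E (d + 1) → ℝ≥0∞ := (bigQ m).indicator H2 with hHm
  have hHmm : Measurable Hm := hH2.indicator (measurableSet_bigQ m)
  set Hh : E d × ℝ → ℝ≥0∞ := fun q => Hm (ins q.2 q.1) with hHh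
  have hHhm : Measurable Hh := by
    have h1 : Measurable (fun q : E d × ℝ => ins q.2 q.1) :=
      measurable_ins.comp (measurable_snd.prodMk measurable_fst)
    exact hHmm.comp h1
  set p : ℕ → E d := fun k => tl (γ (u k)) with hp
  set κ : ℕ → ℝ := fun k => γ (u k) 0 with hκ
  have hCA : CrossAll N p κ := crossAll_of_order hγ hN hum
  have hκm : ∀ k, (m 0 : ℝ) / 4 ≤ κ k ∧ κ k ≤ (m 0 : ℝ) / 4 + 1 / 4 := by
    intro k
    have := abs_le.1 (huQ k 0)
    constructor <;> simp only [hκ] <;> linarith [this.1, this.2]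
  have hsup : ∀ k y h, Hh (y, h) ≠ 0 → (1:ℝ)/4 ≤ h - κ k ∧ h - κ k ≤ 9/4 := by
    intro k y h hne0
    have h1 : ins h y ∈ bigQ m := by
      by_contra h2
      exact hne0 (indicator_of_notMem h2 _)
    obtain ⟨h3, h4, -⟩ := h1
    rw [ins_zero] at h3 h4
    have := hκm k
    constructor <;> linarith [this.1, this.2]
  set M : E (d + 1) → ℝ≥0∞ := fun e =>
    2 * ((Finset.range (2 ^ J)).sup (fun k => gN Hh (p k) (κ k) ((e 0)⁻¹ • tl e))) ^ 2 with hM
  refine ⟨M, ?_, ?_, ?_⟩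
  · have h1 : Measurable (fun e : E (d + 1) => (e 0)⁻¹ • tl e) :=
      (measurable_apply 0).inv.smul measurable_tl
    have h2 : Measurable (fun e : E (d + 1) => (Finset.range (2 ^ J)).sup
        (fun k => gN Hh (p k) (κ k) ((e 0)⁻¹ • tl e))) :=
      measurable_finset_sup _ (fun k => (measurable_gN hHhm (p k) (κ k)).comp h1)
    exact (h2.pow_const 2).const_mul 2
  · intro e he he1 t ht
    obtain ⟨k, hk, hkt⟩ := hugrid t ht
    have he0 : 7 / 10 ≤ e 0 := cone_zero he he1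
    have he0p : 0 < e 0 := by linarith
    have he01 : e 0 ≤ 1 := by
      have := abs_apply_le e 0
      rw [he1] at this
      exact (le_abs_self _).trans this
    have step1 : ∫⁻ s in Icc (1:ℝ) 2, H1 (γ t + s • e)
        ≤ ∫⁻ s : ℝ, Hm (γ (u k) + s • e) := by
      refine le_trans ?_ (setLIntegral_le_lintegral (Icc (1:ℝ) 2) _)
      apply setLIntegral_mono' measurableSet_Icc
      intro s hs
      have hmem : γ (u k) + s • e ∈ bigQ m := by
        have hk0 := hκm k
        simp only [hκ] at hk0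
        refine ⟨?_, ?_, ?_⟩
        · simp only [PiLp.add_apply, PiLp.smul_apply, smul_eq_mul]
          nlinarith [hs.1, hs.2, hk0.1]
        · simp only [PiLp.add_apply, PiLp.smul_apply, smul_eq_mul]
          nlinarith [hs.1, hs.2, hk0.2]
        · intro i
          simp only [PiLp.add_apply, PiLp.smul_apply, smul_eq_mul]
          have h1 := abs_le.1 (huQ k i)
          have h2 : |s * e i| ≤ 2 := by
            rw [abs_mul, abs_of_pos (by linarith [hs.1] : 0 < s)]
            have := abs_apply_le e i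
            rw [he1] at this
            nlinarith [hs.1, hs.2, abs_nonneg (e i)]
          have h3 := abs_le.1 h2
          rw [abs_le]
          constructor <;> linarith [h1.1, h1.2, h3.1, h3.2]
      rw [hHm, indicator_of_mem hmem]
      apply h12
      rw [add_sub_add_right_eq_sub]
      exact hkt
    have step2 : ∫⁻ s : ℝ, Hm (γ (u k) + s • e)
        = ENNReal.ofReal ((e 0)⁻¹) * gN Hh (p k) (κ k) ((e 0)⁻¹ • tl e) := by
      set g : ℝ → ℝ≥0∞ := fun h => Hh (p k + (h - κ k) • ((e 0)⁻¹ • tl e), h) with hg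
      have hgm : Measurable g := by
        apply hHhm.comp
        fun_prop
      have e1 : ∀ s : ℝ, Hm (γ (u k) + s • e) = g (κ k + e 0 * s) := by
        intro s
        rw [hg, hHh]
        simp only
        congr 1
        rw [← ins_eta (γ (u k) + s • e), tl_add, tl_smul]
        congr 1
        · simp only [PiLp.add_apply, PiLp.smul_apply, smul_eq_mul, hκ]
          ring
        · congr 1
          rw [smul_smul]
          congr 1
          field_simp
          ring
      simp_rw [e1]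
      rw [lintegral_comp_mul (f := fun x => g (κ k + x)) (hgm.comp (measurable_const_add _))
        he0p.ne', lintegral_add_left_eq_self g (κ k), abs_of_pos (by positivity)]
      rfl
    calc (∫⁻ s in Icc (1:ℝ) 2, H1 (γ t + s • e)) ^ 2
        ≤ (ENNReal.ofReal ((e 0)⁻¹) * gN Hh (p k) (κ k) ((e 0)⁻¹ • tl e)) ^ 2 := by
          rw [← step2]
          exact pow_le_pow_left' step1 2
      _ = ENNReal.ofReal (((e 0)⁻¹) ^ 2) * gN Hh (p k) (κ k) ((e 0)⁻¹ • tl e) ^ 2 := by
          rw [mul_pow, ENNReal.ofReal_pow (by positivity)]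
      _ ≤ M e := by
          rw [hM]
          simp only
          gcongr
          · have h2 : ((e 0)⁻¹) ^ 2 ≤ 2 := by
              rw [inv_pow]
              have := cone_zero_sq he he1
              rw [inv_le_comm₀ (by positivity) (by norm_num)]
              linarith
            exact (ENNReal.ofReal_le_ofReal h2).trans (by simp)
          · exact Finset.le_sup (f := fun k => gN Hh (p k) (κ k) ((e 0)⁻¹ • tl e))
              (Finset.mem_range.2 hk)
  · have hfr : Module.finrank ℝ (E d) = d := by simp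
    have h1 := chain_meas (V := E d) (by rw [hfr]; exact hd) hHhm (s0 := 1/4) (s1 := 9/4)
      (by norm_num) (by norm_num) J p κ hCA hsup
    rw [hfr] at h1
    have e1 : ∀ v : E d, M (‖ins 1 v‖⁻¹ • ins 1 v)
        = 2 * ((Finset.range (2 ^ J)).sup (fun k => gN Hh (p k) (κ k) v)) ^ 2 := by
      intro v
      have hne : ‖ins 1 v‖ ≠ 0 := by
        rw [norm_ne_zero_iff]
        intro h
        have := congrArg (fun x : E (d + 1) => x 0) h
        simp only [ins_zero] at this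
        simp at this
      rw [hM]
      simp only
      have e2 : ((‖ins 1 v‖⁻¹ • ins 1 v : E (d + 1)) 0)⁻¹ • tl (‖ins 1 v‖⁻¹ • ins 1 v) = v := by
        rw [tl_smul, tl_ins, PiLp.smul_apply, ins_zero, smul_eq_mul, mul_one, inv_inv, smul_smul,
          mul_inv_cancel₀ hne, one_smul]
      rw [e2]
    simp_rw [e1]
    rw [lintegral_const_mul' _ _ (by norm_num)]
    gcongr 2 * ?_
    refine h1.trans ?_
    gcongr
    have h3 : ∫⁻ q, Hh q ^ 2 = ∫⁻ x, Hm x ^ 2 := by
      rw [lintegral_ins (hHmm.pow_const 2), Measure.volume_eq_prod,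
        lintegral_prod_symm' _ (hHhm.pow_const 2)]
    rw [h3]
    apply le_of_eq
    congr 1
    ext x
    rw [hHm]
    by_cases hx : x ∈ bigQ m
    · rw [indicator_of_mem hx, indicator_of_mem hx]
    · rw [indicator_of_notMem hx, indicator_of_notMem hx]
      simp

/-- The chart estimate. -/
theorem chart_est {d N : ℕ} (hd : 1 ≤ d) {γ : ℝ → E (d + 1)} (hγ : Continuous γ)
    (hN : OrderLE N γ) {H1 H2 : E (d + 1) → ℝ≥0∞} (hH2 : Measurable H2) {δ : ℝ} (hδ : 0 < δ)
    (h12 : ∀ x x', ‖x - x'‖ ≤ δ → H1 x ≤ H2 x') {J : ℕ}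
    (hJ : 1 + (d + 1) * N / (4 * δ) ≤ (2:ℝ) ^ J) :
    ∃ M : E (d + 1) → ℝ≥0∞, Measurable M ∧
      (∀ e ∈ cone d, ‖e‖ = 1 → ∀ t, (∫⁻ s in Icc (1:ℝ) 2, H1 (γ t + s • e)) ^ 2 ≤ M e) ∧
      ∫⁻ v : E d, M (‖ins 1 v‖⁻¹ • ins 1 v)
        ≤ cChart d * (((J:ℝ≥0∞) + 1) ^ 2 * (N + 1)) * ∫⁻ x, H2 x ^ 2 := by
  choose M hMm hMle hMint using fun m => chart_cube hd hγ hN hH2 hδ h12 hJ m
  refine ⟨fun e => ∑' m, M m e, Measurable.tsum hMm, ?_, ?_⟩
  · intro e he he1 t
    set m : Fin (d + 1) → ℤ := fun i => ⌊4 * γ t i⌋ with hm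
    refine (hMle m e he he1 t ?_).trans (ENNReal.le_tsum (f := fun m => M m e) m)
    intro i
    have h1 := Int.floor_le (4 * γ t i)
    have h2 := Int.lt_floor_add_one (4 * γ t i)
    rw [abs_le]
    constructor <;> simp only [hm] <;> linarith
  · rw [lintegral_tsum]
    swap
    · intro m
      have h1 : Measurable (fun v : E d => ins 1 v) :=
        measurable_ins.comp (measurable_const.prodMk measurable_id)
      exact ((hMm m).comp (h1.norm.inv.smul h1)).aemeasurable
    calc ∑' m, ∫⁻ v : E d, M m (‖ins 1 v‖⁻¹ • ins 1 v)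
        ≤ ∑' m, 2 * (((J:ℝ≥0∞) + 1) ^ 2 * ((N + 1) * cc d (1/4) (9/4)
          * ∫⁻ x, (bigQ m).indicator (fun x => H2 x ^ 2) x)) :=
          ENNReal.tsum_le_tsum hMint
      _ = (2 * (((J:ℝ≥0∞) + 1) ^ 2 * ((N + 1) * cc d (1/4) (9/4)))) *
          ∑' m, ∫⁻ x, (bigQ m).indicator (fun x => H2 x ^ 2) x := by
          rw [← ENNReal.tsum_mul_left]
          congr 1
          ext m
          ring
      _ = (2 * (((J:ℝ≥0∞) + 1) ^ 2 * ((N + 1) * cc d (1/4) (9/4)))) *
          ∫⁻ x, ∑' m, (bigQ m).indicator (fun x => H2 x ^ 2) x := by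
          rw [lintegral_tsum]
          intro m
          exact ((hH2.pow_const 2).indicator (measurableSet_bigQ m)).aemeasurable
      _ ≤ (2 * (((J:ℝ≥0∞) + 1) ^ 2 * ((N + 1) * cc d (1/4) (9/4)))) *
          ∫⁻ x, 25 ^ (d + 1) * H2 x ^ 2 := by
          gcongr with x
          exact overlap (fun x => H2 x ^ 2) x
      _ = _ := by
          rw [lintegral_const_mul' _ _ (ENNReal.pow_ne_top (by norm_num)), cChart]
          ring

end Pool.Agent.W767.Kc
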