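import Pool.Agent.W767.Kc.Meas
import Pool.Agent.H742R2.Kk.Coord

set_option autoImplicit false
set_option linter.unusedSectionVars false

/-!
Curves of finite order.
-/

open MeasureTheory Set Filter Topology ENNReal NNReal

namespace Pool.Agent.W767.Kc

open Pool.Agent.H742R2.Kk

/-- The curve `γ` is of order at most `N`: for every direction `ν ≠ 0`, almost every hyperplane
orthogonal to `ν` meets the curve at most `N` times. -/
def OrderLE {n : ℕ} (N : ℕ) (γ : ℝ → E n) : Prop :=
  ∀ ν : E n, ν ≠ 0 → ∀ᵐ c : ℝ, {u : ℝ | inner ℝ ν (γ u) = c}.encard ≤ N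

theorem cross_of_order {φ : ℝ → ℝ} (hφ : Continuous φ) {N : ℕ}
    (h : ∀ᵐ c : ℝ, {u : ℝ | φ u = c}.encard ≤ N) {u : ℕ → ℝ} (hu : Monotone u) (M : ℕ) :
    Cross N M (fun k => φ (u k)) := by
  filter_upwards [h] with y hy
  refine le_trans ?_ hy
  have hex : ∀ k : ℕ, ∃ t : ℝ, y ∈ btw (φ (u k)) (φ (u (k+1))) →
      u k < t ∧ t < u (k+1) ∧ φ t = y := by
    intro k
    by_cases hk : y ∈ btw (φ (u k)) (φ (u (k+1)))
    · have h1 : y ∈ uIcc (φ (u k)) (φ (u (k+1))) := ⟨hk.1.le, hk.2.le⟩
      obtain ⟨t, ht, hty⟩ := intermediate_value_uIcc hφ.continuousOn h1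
      refine ⟨t, fun _ => ?_⟩
      rw [uIcc_of_le (hu (Nat.le_succ k))] at ht
      have hne1 : t ≠ u k := by
        rintro rfl
        rw [hty] at hk
        rcases min_choice y (φ (u (k+1))) with h | h
        · rw [btw, h] at hk; exact lt_irrefl _ hk.1
        · rcases max_choice y (φ (u (k+1))) with h' | h'
          · rw [btw, h'] at hk; exact lt_irrefl _ hk.2
          · rw [btw, h, h'] at hk; exact absurd (hk.1.trans hk.2) (lt_irrefl _)
      have hne2 : t ≠ u (k+1) := by
        rintro rfl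
        rw [hty] at hk
        rcases min_choice (φ (u k)) y with h | h
        · rcases max_choice (φ (u k)) y with h' | h'
          · rw [btw, h, h'] at hk; exact absurd (hk.1.trans hk.2) (lt_irrefl _)
          · rw [btw, h'] at hk; exact lt_irrefl _ hk.2
        · rw [btw, h] at hk; exact lt_irrefl _ hk.1
      exact ⟨lt_of_le_of_ne ht.1 hne1.symm, lt_of_le_of_ne ht.2 hne2, hty⟩
    · exact ⟨0, fun h => absurd h hk⟩
  choose t ht using hex
  apply Set.encard_le_encard_of_injOn (f := t)
  · rintro k ⟨-, hk⟩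
    exact (ht k hk).2.2
  · rintro k ⟨-, hk⟩ l ⟨-, hl⟩ hkl
    obtain ⟨a1, a2, -⟩ := ht k hk
    obtain ⟨b1, b2, -⟩ := ht l hl
    rcases lt_trichotomy k l with h | h | h
    · have := hu (show k + 1 ≤ l from h)
      rw [hkl] at a2
      linarith
    · exact h
    · have := hu (show l + 1 ≤ k from h)
      rw [hkl] at a1
      linarith

theorem volume_btw (x y : ℝ) : volume (btw x y) = ENNReal.ofReal |y - x| := by
  rw [btw, Real.volume_Ioo, max_sub_min_eq_abs']
  rw [abs_sub_comm]

/-- The total variation of a sequence with few crossings. -/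
theorem totalVar {N M : ℕ} {x : ℕ → ℝ} (hx : Cross N M x) {a b : ℝ}
    (hab : ∀ k, x k ∈ Icc a b) :
    ∑ k ∈ Finset.range M, ENNReal.ofReal |x (k+1) - x k| ≤ N * ENNReal.ofReal (b - a) := by
  calc ∑ k ∈ Finset.range M, ENNReal.ofReal |x (k+1) - x k|
      = ∑ k ∈ Finset.range M, ∫⁻ y, (btw (x k) (x (k+1))).indicator (fun _ => (1:ℝ≥0∞)) y := by
        apply Finset.sum_congr rfl
        intro k _
        rw [lintegral_indicator (measurableSet_btw _ _), setLIntegral_one, volume_btw]
    _ = ∫⁻ y, ∑ k ∈ Finset.range M, (btw (x k) (x (k+1))).indicator (fun _ => (1:ℝ≥0∞)) y := by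
        rw [lintegral_finsetSum]
        intro k _
        exact measurable_const.indicator (measurableSet_btw _ _)
    _ ≤ ∫⁻ y, (Icc a b).indicator (fun _ => (N:ℝ≥0∞)) y := by
        apply lintegral_mono_ae
        filter_upwards [hx] with y hy
        classical
        by_cases hyab : y ∈ Icc a b
        · rw [indicator_of_mem hyab]
          have h1 : ∑ k ∈ Finset.range M, (btw (x k) (x (k+1))).indicator
              (fun _ => (1:ℝ≥0∞)) y
              = ((Finset.range M).filter (fun k => y ∈ btw (x k) (x (k+1)))).card := by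
            rw [Finset.card_filter]
            push_cast
            apply Finset.sum_congr rfl
            intro k _
            simp [indicator]
          rw [h1]
          have h2 : {k | k < M ∧ y ∈ btw (x k) (x (k+1))}
              = (((Finset.range M).filter (fun k => y ∈ btw (x k) (x (k+1))) : Finset ℕ)
                : Set ℕ) := by
            ext k; simp
          rw [h2, Set.encard_coe_eq_coe_finsetCard] at hy
          exact_mod_cast hy
        · rw [indicator_of_notMem hyab]
          apply le_of_eq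
          apply Finset.sum_eq_zero
          intro k _
          apply indicator_of_notMem
          intro hk
          apply hyab
          obtain ⟨h1, h2⟩ := hab k
          obtain ⟨h3, h4⟩ := hab (k+1)
          exact ⟨(le_min h1 h3).trans hk.1.le, hk.2.le.trans (max_le h2 h4)⟩
    _ = N * ENNReal.ofReal (b - a) := by
        rw [lintegral_indicator measurableSet_Icc, setLIntegral_const, Real.volume_Icc]

/-- Number of separated points of a curve of order `N` in a cube. -/
theorem card_separated {n N : ℕ} {γ : ℝ → E n} (hγ : Continuous γ) (hN : OrderLE N γ)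
    {c : E n} {ρ δ : ℝ} (hρ : 0 ≤ ρ) (hδ : 0 < δ) (T : Finset ℝ)
    (hT : ∀ t ∈ T, ∀ i, |γ t i - c i| ≤ ρ)
    (hsep : ∀ t ∈ T, ∀ t' ∈ T, t ≠ t' → δ < ‖γ t - γ t'‖) :
    (T.card : ℝ) ≤ 1 + 2 * n * ρ * N / δ := by
  rcases Nat.eq_zero_or_pos T.card with h0 | hpos
  · rw [h0]
    simp only [Nat.cast_zero]
    positivity
  obtain ⟨m, hm⟩ : ∃ m, T.card = m + 1 := ⟨T.card - 1, by omega⟩
  set o := T.orderEmbOfFin hm with ho
  set u : ℕ → ℝ := fun k => o ⟨min k m, by omega⟩ with hu
  have huT : ∀ k, u k ∈ T := fun k => T.orderEmbOfFin_mem hm _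
  have hum : Monotone u := by
    intro a b hab
    apply o.monotone
    rw [Fin.mk_le_mk]
    exact min_le_min hab le_rfl
  have hstep : ∀ k, k < m → δ < ‖γ (u (k+1)) - γ (u k)‖ := by
    intro k hk
    apply hsep _ (huT _) _ (huT _)
    intro h
    have := o.injective h
    rw [Fin.mk.injEq] at this
    omega
  have hcoord : ∀ i : Fin n, ∑ k ∈ Finset.range m,
      ENNReal.ofReal |γ (u (k+1)) i - γ (u k) i| ≤ N * ENNReal.ofReal (2 * ρ) := by
    intro i
    have hφc : Continuous (fun t => γ t i) := by fun_prop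
    have hord : ∀ᵐ y : ℝ, {t : ℝ | γ t i = y}.encard ≤ N := by
      have h1 := hN (EuclideanSpace.single i 1) (by
        intro h
        have := congrArg (fun v : E n => v i) h
        simp at this)
      filter_upwards [h1] with y hy
      have e : {t : ℝ | γ t i = y} = {u | inner ℝ (EuclideanSpace.single i (1:ℝ)) (γ u) = y} := by
        ext t
        simp [EuclideanSpace.inner_single_left]
      rw [e]
      exact hy
    have h2 := totalVar (cross_of_order hφc hord hum m) (a := c i - ρ) (b := c i + ρ) (by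
      intro k
      have := abs_le.1 (hT _ (huT k) i)
      constructor <;> linarith [this.1, this.2])
    refine h2.trans (le_of_eq ?_)
    congr 2
    ring
  have hsum : (m:ℝ≥0∞) * ENNReal.ofReal δ ≤ n * (N * ENNReal.ofReal (2 * ρ)) := by
    calc (m:ℝ≥0∞) * ENNReal.ofReal δ = ∑ k ∈ Finset.range m, ENNReal.ofReal δ := by
          rw [Finset.sum_const, Finset.card_range, nsmul_eq_mul]
      _ ≤ ∑ k ∈ Finset.range m, ∑ i : Fin n, ENNReal.ofReal |γ (u (k+1)) i - γ (u k) i| := by
          apply Finset.sum_le_sum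
          intro k hk
          rw [← ENNReal.ofReal_sum_of_nonneg (fun _ _ => abs_nonneg _)]
          apply ENNReal.ofReal_le_ofReal
          refine (hstep k (Finset.mem_range.1 hk)).le.trans ?_
          have h5 : ∀ v : E n, ‖v‖ ≤ ∑ i, |v i| := by
            intro v
            rw [EuclideanSpace.norm_eq, Real.sqrt_le_left (Finset.sum_nonneg (fun _ _ => abs_nonneg _))]
            calc ∑ i, ‖v i‖ ^ 2 = ∑ i, |v i| ^ 2 := rfl
              _ ≤ (∑ i, |v i|) ^ 2 :=
                Finset.sum_sq_le_sq_sum_of_nonneg (fun _ _ => abs_nonneg _)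
          exact h5 _
      _ = ∑ i : Fin n, ∑ k ∈ Finset.range m, ENNReal.ofReal |γ (u (k+1)) i - γ (u k) i| :=
          Finset.sum_comm
      _ ≤ ∑ i : Fin n, N * ENNReal.ofReal (2 * ρ) := Finset.sum_le_sum (fun i _ => hcoord i)
      _ = _ := by simp
  have hreal : (m:ℝ) * δ ≤ n * (N * (2 * ρ)) := by
    have h1 : ENNReal.ofReal (m * δ) ≤ ENNReal.ofReal (n * (N * (2 * ρ))) := by
      rw [ENNReal.ofReal_mul (by positivity), ENNReal.ofReal_mul (by positivity),
        ENNReal.ofReal_mul (by positivity)]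
      simpa using hsum
    exact (ENNReal.ofReal_le_ofReal_iff (by positivity)).1 h1
  rw [hm]
  push_cast
  have : (m:ℝ) ≤ 2 * n * ρ * N / δ := by
    rw [le_div_iff₀ hδ]
    calc (m:ℝ) * δ ≤ _ := hreal
      _ = _ := by ring
  linarith

/-- A `δ`-dense monotone sequence of points of the curve in a cube. -/
theorem exists_grid {n N : ℕ} {γ : ℝ → E n} (hγ : Continuous γ) (hN : OrderLE N γ)
    {c : E n} {ρ δ : ℝ} (hρ : 0 ≤ ρ) (hδ : 0 < δ) (hne : ∃ t, ∀ i, |γ t i - c i| ≤ ρ) {m : ℕ}
    (hm : 1 + 2 * n * ρ * N / δ ≤ m) :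
    ∃ u : ℕ → ℝ, Monotone u ∧ (∀ k, ∀ i, |γ (u k) i - c i| ≤ ρ) ∧
      ∀ t, (∀ i, |γ t i - c i| ≤ ρ) → ∃ k < m, ‖γ t - γ (u k)‖ ≤ δ := by
  classical
  obtain ⟨t0, ht0⟩ := hne
  set P : Finset ℝ → Prop := fun T => (∀ t ∈ T, ∀ i, |γ t i - c i| ≤ ρ) ∧
    (∀ t ∈ T, ∀ t' ∈ T, t ≠ t' → δ < ‖γ t - γ t'‖) with hP
  set S : Set ℕ := {k | ∃ T, P T ∧ T.card = k} with hS
  have hbdd : ∀ k ∈ S, k ≤ m := by
    rintro k ⟨T, ⟨h1, h2⟩, rfl⟩
    have := (card_separated hγ hN hρ hδ T h1 h2).trans hm
    exact_mod_cast this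
  have hS1 : 1 ∈ S := by
    refine ⟨{t0}, ⟨?_, ?_⟩, by simp⟩
    · intro t ht
      rw [Finset.mem_singleton] at ht
      rw [ht]; exact ht0
    · intro t ht t' ht' hne
      rw [Finset.mem_singleton] at ht ht'
      exact absurd (ht.trans ht'.symm) hne
  obtain ⟨K, hKS, hKmax⟩ : ∃ K ∈ S, ∀ k ∈ S, k ≤ K := by
    have hb : BddAbove S := ⟨m, hbdd⟩
    exact ⟨sSup S, Nat.sSup_mem ⟨1, hS1⟩ hb, fun k hk => le_csSup hb hk⟩
  obtain ⟨T, ⟨hT1, hT2⟩, hTK⟩ := hKS
  have hK1 : 1 ≤ K := hKmax 1 hS1
  obtain ⟨l, hl⟩ : ∃ l, T.card = l + 1 := ⟨T.card - 1, by omega⟩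
  set o := T.orderEmbOfFin hl with ho
  set u : ℕ → ℝ := fun k => o ⟨min k l, by omega⟩ with hu
  have huT : ∀ k, u k ∈ T := fun k => T.orderEmbOfFin_mem hl _
  refine ⟨u, ?_, fun k => hT1 _ (huT k), ?_⟩
  · intro a b hab
    apply o.monotone
    rw [Fin.mk_le_mk]
    exact min_le_min hab le_rfl
  · intro t ht
    have hex : ∃ t' ∈ T, ‖γ t - γ t'‖ ≤ δ := by
      by_contra hcon
      push Not at hcon
      have htT : t ∉ T := by
        intro h
        have := hcon t h
        simp only [sub_self, norm_zero] at this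
        linarith
      have h1 : T.card + 1 ∈ S := by
        refine ⟨insert t T, ⟨?_, ?_⟩, Finset.card_insert_of_notMem htT⟩
        · intro s hs
          rcases Finset.mem_insert.1 hs with rfl | hs
          · exact ht
          · exact hT1 s hs
        · intro s hs s' hs' hne
          rcases Finset.mem_insert.1 hs with h1 | h1
          · rcases Finset.mem_insert.1 hs' with h2 | h2
            · exact absurd (h1.trans h2.symm) hne
            · rw [h1]; exact hcon s' h2
          · rcases Finset.mem_insert.1 hs' with h2 | h2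
            · rw [h2, norm_sub_rev]; exact hcon s h1
            · exact hT2 s h1 s' h2 hne
      have := hKmax _ h1
      omega
    obtain ⟨t', ht', hd⟩ := hex
    have hr : t' ∈ Set.range o := by
      rw [ho, Finset.range_orderEmbOfFin]
      exact ht'
    obtain ⟨⟨k, hk⟩, hk2⟩ := hr
    refine ⟨k, ?_, ?_⟩
    · have := hbdd K ⟨T, ⟨hT1, hT2⟩, hTK⟩
      omega
    · have : u k = t' := by
        rw [← hk2, hu]
        simp only
        congr 1
        rw [Fin.mk.injEq]
        omega
      rw [this]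
      exact hd

/-- The crossing property in coordinates. -/
theorem crossAll_of_order {d N : ℕ} {γ : ℝ → E (d + 1)} (hγ : Continuous γ) (hN : OrderLE N γ)
    {u : ℕ → ℝ} (hu : Monotone u) :
    CrossAll N (fun k => tl (γ (u k))) (fun k => γ (u k) 0) := by
  intro φ hφ M η hη w
  have hne : ins w η ≠ 0 := by
    intro h
    apply hη
    have := congrArg tl h
    rw [tl_ins] at this
    rw [this]
    ext i
    simp [tl]
  have hc : Continuous (fun t => inner ℝ (ins w η) (γ t)) := by fun_prop
  have h1 := cross_of_order hc (hN _ hne) (hu.comp hφ) M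
  have e : ∀ k, (fun k => inner ℝ (ins w η) (γ ((u ∘ φ) k))) k
      = inner ℝ (tl (γ (u (φ k)))) η + γ (u (φ k)) 0 * w := by
    intro k
    simp only [Function.comp]
    conv_lhs => rw [← ins_eta (γ (u (φ k)))]
    rw [inner_ins, real_inner_comm]
    ring
  rw [funext e] at h1
  exact h1

/-- Isometries preserve the order. -/
theorem OrderLE.map {n N : ℕ} {γ : ℝ → E n} (hN : OrderLE N γ) (R : E n ≃ₗᵢ[ℝ] E n) :
    OrderLE N (fun t => R (γ t)) := by
  intro ν hν
  have h1 := hN (R.symm ν) (by simpa using hν)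
  have e : ∀ t, inner ℝ ν (R (γ t)) = inner ℝ (R.symm ν) (γ t) := by
    intro t
    conv_lhs => rw [← R.apply_symm_apply ν]
    rw [R.inner_map_map]
  simp_rw [e]
  exact h1

/-- Dilations preserve the order. -/
theorem OrderLE.smul {n N : ℕ} {γ : ℝ → E n} (hN : OrderLE N γ) {r : ℝ} (hr : r ≠ 0) :
    OrderLE N (fun t => r • γ t) := by
  intro ν hν
  have h1 := hN (r • ν) (smul_ne_zero hr hν)
  have e : ∀ t, inner ℝ ν (r • γ t) = inner ℝ (r • ν) (γ t) := by
    intro t
    rw [inner_smul_right, inner_smul_left]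
    simp
  simp_rw [e]
  exact h1

end Pool.Agent.W767.Kc
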