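import Pool.Agent.W767.Kc.Plane

set_option autoImplicit false

/-!
Differences of the transforms through two points, in all dimensions.
-/

open MeasureTheory Set Filter Topology ENNReal NNReal FourierTransform

namespace Pool.Agent.W767.Kc

variable {V : Type*} [NormedAddCommGroup V] [InnerProductSpace ℝ V] [MeasurableSpace V]
  [BorelSpace V] [FiniteDimensional ℝ V]

theorem lintegral_comp_smulV {f : V → ℝ≥0∞} (hf : Measurable f) {a : ℝ} (ha : a ≠ 0) :
    ∫⁻ x, f (a • x) = ENNReal.ofReal |(a ^ Module.finrank ℝ V)⁻¹| * ∫⁻ x, f x := by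
  rw [← smul_eq_mul, ← lintegral_smul_measure, ← Measure.map_addHaar_smul volume ha,
    lintegral_map hf (by fun_prop)]

/-- Integral of `F` along the line through `(p, κ)` of slope `v`. -/
noncomputable def gg (F : V × ℝ → ℂ) (p : V) (κ : ℝ) (v : V) : ℂ :=
  ∫ h, F (p + (h - κ) • v, h)

variable {F : V × ℝ → ℂ}

theorem nice_ggint (hF : Nice F) {s0 κ : ℝ} (hs0 : 0 < s0)
    (hsup : ∀ y h, F (y, h) ≠ 0 → s0 ≤ h - κ) (p : V) :
    Nice (fun q : V × ℝ => F (p + (q.2 - κ) • q.1, q.2)) := by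
  obtain ⟨hm, ⟨D, hD⟩, ⟨R, hR⟩⟩ := hF
  refine ⟨hm.comp (by fun_prop), ⟨D, fun q => hD _⟩, ⟨max ((R + ‖p‖) / s0) R, ?_⟩⟩
  rintro ⟨v, h⟩ hne
  have h1 := hR _ hne
  have h2 := hsup _ _ hne
  simp only at h1 h2 hne
  have h3 : ‖p + (h - κ) • v‖ ≤ R := (norm_fst_le _).trans h1
  have h4 : ‖h‖ ≤ R := (norm_snd_le (p + (h - κ) • v, h)).trans h1
  have hpos : 0 < h - κ := by linarith
  rw [Prod.norm_def]
  refine max_le_max ?_ h4
  rw [le_div_iff₀ hs0]
  have h5 : ‖(h - κ) • v‖ ≤ R + ‖p‖ := by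
    calc ‖(h - κ) • v‖ = ‖(p + (h - κ) • v) - p‖ := by congr 1; abel
      _ ≤ ‖p + (h - κ) • v‖ + ‖p‖ := norm_sub_le _ _
      _ ≤ R + ‖p‖ := by linarith
  rw [norm_smul, Real.norm_of_nonneg hpos.le] at h5
  nlinarith [norm_nonneg v]

theorem nice_gg (hF : Nice F) {s0 κ : ℝ} (hs0 : 0 < s0)
    (hsup : ∀ y h, F (y, h) ≠ 0 → s0 ≤ h - κ) (p : V) : Nice (gg F p κ) :=
  (nice_ggint hF hs0 hsup p).integral_right volume

/-- The Fourier transform of a horizontal section. -/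
noncomputable def FF (F : V × ℝ → ℂ) (h : ℝ) (η : V) : ℂ := 𝓕 (fun y => F (y, h)) η

theorem measurable_FF (hF : Nice F) : Measurable (fun q : ℝ × V => FF F q.1 q.2) := by
  have h1 : Measurable (fun q : (ℝ × V) × V => ee (-inner ℝ q.2 q.1.2) * F (q.2, q.1.1)) := by
    apply Measurable.mul
    · exact measurable_ee.comp (by fun_prop)
    · exact hF.1.comp (by fun_prop)
  have h2 := (h1.stronglyMeasurable.integral_prod_right
      (f := fun (q : ℝ × V) (y : V) => ee (-inner ℝ y q.2) * F (y, q.1))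
      (ν := volume)).measurable
  have h3 : (fun q : ℝ × V => FF F q.1 q.2)
      = fun q : ℝ × V => ∫ y, ee (-inner ℝ y q.2) * F (y, q.1) := by
    ext q
    rw [FF, fourier_ee]
  rw [h3]
  exact h2

theorem FF_bdd (hF : Nice F) : ∃ C : ℝ, ∀ h η, ‖FF F h η‖ ≤ C := by
  obtain ⟨hm, ⟨D, hD⟩, ⟨R, hR⟩⟩ := hF
  refine ⟨|D| * (volume : Measure V).real (Metric.closedBall (0:V) R), fun h η => ?_⟩
  rw [FF, fourier_ee]
  have h1 : ∫ y, ee (-inner ℝ y η) * F (y, h)
      = ∫ y in Metric.closedBall (0:V) R, ee (-inner ℝ y η) * F (y, h) := by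
    symm
    apply setIntegral_eq_integral_of_forall_compl_eq_zero
    intro y hy
    by_contra hne
    exact hy (by simpa using (norm_fst_le (y, h)).trans (hR _ (right_ne_zero_of_mul hne)))
  rw [h1]
  apply norm_setIntegral_le_of_norm_le_const ((isCompact_closedBall (0:V) R).measure_lt_top)
  intro y _
  rw [norm_mul, norm_ee, one_mul]
  exact (hD _).trans (le_abs_self D)

theorem FF_eq_zero {h : ℝ} (hz : ∀ y, F (y, h) = 0) (η : V) : FF F h η = 0 := by
  rw [FF, fourier_ee]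
  simp [hz]

/-- The Fourier transform of `gg`. -/
theorem fourier_gg (hF : Nice F) {s0 κ : ℝ} (hs0 : 0 < s0)
    (hsup : ∀ y h, F (y, h) ≠ 0 → s0 ≤ h - κ) (p η : V) :
    𝓕 (gg F p κ) η = ∫ h, ((((h - κ) ^ Module.finrank ℝ V)⁻¹ : ℝ) : ℂ)
      * ee (inner ℝ p η / (h - κ)) * FF F h ((h - κ)⁻¹ • η) := by
  have hN1 : Nice (fun q : V × ℝ => ee (-inner ℝ q.1 η) * F (p + (q.2 - κ) • q.1, q.2)) :=
    (nice_ggint hF hs0 hsup p).mul_bdd (measurable_ee.comp (by fun_prop))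
      (fun x _ => (norm_ee _).le)
  rw [fourier_ee]
  have e1 : ∫ v, ee (-inner ℝ v η) * gg F p κ v
      = ∫ h, ∫ v, ee (-inner ℝ v η) * F (p + (h - κ) • v, h) := by
    rw [← integral_integral_swap]
    · congr 1
      ext v
      rw [gg, integral_const_mul]
    · exact hN1.integrable _
  rw [e1]
  congr 1
  ext h
  by_cases hs : s0 ≤ h - κ
  · have hpos : 0 < h - κ := by linarith
    set s := h - κ with hsdef
    set G : V → ℂ := fun y => ee (inner ℝ p η / s) * (ee (-inner ℝ y (s⁻¹ • η)) * F (y, h)) with hG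
    have h3 : ∀ v : V, ee (-inner ℝ v η) * F (p + s • v, h) = G (p + s • v) := by
      intro v
      rw [hG]
      simp only
      rw [← mul_assoc, ← ee_add]
      congr 2
      rw [inner_add_left, inner_smul_left, inner_smul_right, inner_smul_right]
      simp only [conj_trivial]
      field_simp
      ring
    rw [funext h3]
    rw [Measure.integral_comp_smul volume (fun v => G (p + v)) s,
      integral_add_left_eq_self G p, abs_of_pos (by positivity), hG, integral_const_mul,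
      Complex.real_smul, ← mul_assoc, FF, fourier_ee]
  · have hz : ∀ y, F (y, h) = 0 := by
      intro y
      by_contra hne
      exact hs (hsup y h hne)
    rw [FF_eq_zero hz]
    simp [hz]

/-- The planar function attached to the frequency `η`. -/
noncomputable def PP (F : V × ℝ → ℂ) (σ0 σ1 : ℝ) (η : V) (q : ℝ × ℝ) : ℂ :=
  (((Icc σ0 σ1).indicator (fun σ => σ ^ (Module.finrank ℝ V - 1)) q.1 : ℝ) : ℂ)
    * FF F q.2 (q.1 • η)

theorem measurable_PP (hF : Nice F) (σ0 σ1 : ℝ) :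
    Measurable (fun x : V × (ℝ × ℝ) => PP F σ0 σ1 x.1 x.2) := by
  apply Measurable.mul
  · apply Complex.measurable_ofReal.comp
    exact ((measurable_id.pow_const _).indicator measurableSet_Icc).comp
      (measurable_fst.comp measurable_snd)
  · exact (measurable_FF hF).comp (f := fun x : V × (ℝ × ℝ) => (x.2.2, x.2.1 • x.1)) (by fun_prop)

theorem nice_PP (hF : Nice F) {σ0 σ1 : ℝ} (h0 : 0 < σ0) (η : V) : Nice (PP F σ0 σ1 η) := by
  obtain ⟨C, hC⟩ := FF_bdd hF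
  have hm := (measurable_PP hF σ0 σ1).comp (measurable_prodMk_left (x := η))
  obtain ⟨-, -, ⟨R, hR⟩⟩ := hF
  have hI : ∀ σ : ℝ, |(Icc σ0 σ1).indicator (fun σ => σ ^ (Module.finrank ℝ V - 1)) σ|
      ≤ |σ1| ^ (Module.finrank ℝ V - 1) := by
    intro σ
    by_cases hσ : σ ∈ Icc σ0 σ1
    · rw [indicator_of_mem hσ, abs_pow]
      have : |σ| ≤ |σ1| := by
        rw [abs_of_pos (by linarith [hσ.1])]
        exact hσ.2.trans (le_abs_self _)
      gcongr
    · rw [indicator_of_notMem hσ, abs_zero]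
      positivity
  refine ⟨hm, ⟨|σ1| ^ (Module.finrank ℝ V - 1) * C, ?_⟩, ⟨max |σ1| R, ?_⟩⟩
  · rintro ⟨σ, h⟩
    rw [PP, norm_mul, Complex.norm_real, Real.norm_eq_abs]
    exact mul_le_mul (hI σ) (hC _ _) (norm_nonneg _) (by positivity)
  · rintro ⟨σ, h⟩ hne
    rw [Prod.norm_def]
    have h1 := left_ne_zero_of_mul hne
    have h2 := right_ne_zero_of_mul hne
    refine max_le_max ?_ ?_
    · simp only at h1 ⊢
      have hσ : σ ∈ Icc σ0 σ1 := by
        by_contra hσ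
        exact h1 (by simp [indicator_of_notMem hσ])
      rw [Real.norm_eq_abs, abs_of_pos (by linarith [hσ.1])]
      exact hσ.2.trans (le_abs_self _)
    · simp only at h2 ⊢
      by_contra hh
      apply h2
      apply FF_eq_zero
      intro y
      by_contra hne'
      exact hh ((norm_snd_le (y, h)).trans (hR _ hne'))

/-- The relation between `gg` and the planar transform. -/
theorem fourier_gg_eq_BB (hd : 1 ≤ Module.finrank ℝ V) (hF : Nice F) {s0 s1 κ : ℝ} (hs0 : 0 < s0)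
    (hsup : ∀ y h, F (y, h) ≠ 0 → s0 ≤ h - κ ∧ h - κ ≤ s1) (p η : V) {r : ℝ}
    (hr : r ∈ Icc (1:ℝ) 2) :
    ((r ^ (Module.finrank ℝ V - 1) : ℝ) : ℂ) * 𝓕 (gg F p κ) (r • η)
      = BB (PP F (s1⁻¹) (2 / s0) η) (inner ℝ p η) κ r := by
  rw [fourier_gg hF hs0 (fun y h hne => (hsup y h hne).1), BB, ← integral_const_mul]
  congr 1
  ext h
  by_cases hz : ∀ y, F (y, h) = 0
  · rw [FF_eq_zero hz, PP]
    simp only
    rw [FF_eq_zero hz]
    simp
  · push Not at hz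
    obtain ⟨y, hy⟩ := hz
    obtain ⟨h1, h2⟩ := hsup y h hy
    set s := h - κ with hs
    have hpos : 0 < s := by linarith
    have hr0 : 0 < r := by linarith [hr.1]
    have hmem : r / s ∈ Icc (s1⁻¹) (2 / s0) := by
      constructor
      · rw [inv_eq_one_div]
        exact div_le_div₀ hr0.le hr.1 hpos h2
      · exact div_le_div₀ (by norm_num) hr.2 hs0 h1
    rw [PP]
    simp only
    rw [indicator_of_mem hmem, smul_smul, inner_smul_right]
    have e1 : s⁻¹ * r = r / s := by rw [mul_comm]; rfl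
    rw [e1]
    have e2 : (r ^ (Module.finrank ℝ V - 1)) * (s ^ Module.finrank ℝ V)⁻¹
        = s⁻¹ * (r / s) ^ (Module.finrank ℝ V - 1) := by
      obtain ⟨d, hd'⟩ : ∃ d, Module.finrank ℝ V = d + 1 := ⟨_, (Nat.sub_add_cancel hd).symm⟩
      rw [hd', Nat.add_sub_cancel, div_pow]
      field_simp
      ring
    calc ((r ^ (Module.finrank ℝ V - 1) : ℝ) : ℂ) * (((((s) ^ Module.finrank ℝ V)⁻¹ : ℝ) : ℂ)
      * ee (r * inner ℝ p η / s) * FF F h ((r / s) • η))
        = (((r ^ (Module.finrank ℝ V - 1)) * (s ^ Module.finrank ℝ V)⁻¹ : ℝ) : ℂ) *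
          (ee (r * inner ℝ p η / s) * FF F h ((r / s) • η)) := by
          push_cast
          ring
      _ = _ := by
          rw [e2]
          push_cast
          ring

theorem lintegral_PP (hF : Nice F) {σ0 σ1 : ℝ} (h0 : 0 < σ0) (h01 : σ0 ≤ σ1) :
    ∫⁻ η : V, ∫⁻ q, ‖PP F σ0 σ1 η q‖ₑ ^ 2
      ≤ ENNReal.ofReal ((σ1 - σ0) * ((σ1 ^ (Module.finrank ℝ V - 1)) ^ 2
          * (σ0 ^ Module.finrank ℝ V)⁻¹)) * ∫⁻ q, ‖F q‖ₑ ^ 2 := by
  have hmP := measurable_PP hF σ0 σ1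
  rw [lintegral_lintegral_swap (f := fun (η : V) q => ‖PP F σ0 σ1 η q‖ₑ ^ 2)
    (hmP.enorm.pow_const 2).aemeasurable]
  have hmF : Measurable (fun q : V × ℝ => ‖F q‖ₑ ^ 2) := hF.1.enorm.pow_const 2
  set K : ℝ := (σ1 ^ (Module.finrank ℝ V - 1)) ^ 2 * (σ0 ^ Module.finrank ℝ V)⁻¹ with hK
  have hσ1 : 0 < σ1 := by linarith
  have hK0 : 0 ≤ K := by positivity
  have hpt : ∀ q : ℝ × ℝ, ∫⁻ η : V, ‖PP F σ0 σ1 η q‖ₑ ^ 2
      ≤ ENNReal.ofReal K * (Icc σ0 σ1).indicator (fun _ => ∫⁻ y : V, ‖F (y, q.2)‖ₑ ^ 2) q.1 := by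
    rintro ⟨σ, h⟩
    simp only
    by_cases hσ : σ ∈ Icc σ0 σ1
    · have hσ0 : 0 < σ := by linarith [hσ.1]
      rw [indicator_of_mem hσ]
      have hN : Nice (fun y => F (y, h)) := hF.section_left h
      have e1 : ∀ η : V, ‖PP F σ0 σ1 η (σ, h)‖ₑ ^ 2
          = ENNReal.ofReal ((σ ^ (Module.finrank ℝ V - 1)) ^ 2) * ‖FF F h (σ • η)‖ₑ ^ 2 := by
        intro η
        rw [PP]
        simp only
        rw [indicator_of_mem hσ, enorm_mul, mul_pow]
        congr 1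
        rw [← ofReal_norm, Complex.norm_real, Real.norm_of_nonneg (by positivity),
          ← ENNReal.ofReal_pow (by positivity)]
      simp_rw [e1]
      have hmF' : Measurable (fun η : V => ‖FF F h η‖ₑ ^ 2) :=
        hN.continuous_fourier.measurable.enorm.pow_const 2
      rw [lintegral_const_mul' _ _ ENNReal.ofReal_ne_top, lintegral_comp_smulV hmF' hσ0.ne',
        ← mul_assoc, ← ENNReal.ofReal_mul (by positivity)]
      have e2 : ∫⁻ η : V, ‖FF F h η‖ₑ ^ 2 = ∫⁻ y : V, ‖F (y, h)‖ₑ ^ 2 := hN.plancherel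
      rw [e2]
      gcongr
      rw [abs_of_pos (by positivity), hK]
      have h1 : σ ^ (Module.finrank ℝ V - 1) ≤ σ1 ^ (Module.finrank ℝ V - 1) := by
        gcongr
        exact hσ.2
      have h2 : (σ ^ Module.finrank ℝ V)⁻¹ ≤ (σ0 ^ Module.finrank ℝ V)⁻¹ := by
        apply inv_anti₀ (by positivity)
        gcongr
        exact hσ.1
      have h3 : (σ ^ (Module.finrank ℝ V - 1))^2 ≤ (σ1 ^ (Module.finrank ℝ V - 1))^2 := by
        gcongr
      exact mul_le_mul h3 h2 (by positivity) (by positivity)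
    · rw [indicator_of_notMem hσ, mul_zero]
      have e1 : ∀ η : V, ‖PP F σ0 σ1 η (σ, h)‖ₑ ^ 2 = 0 := by
        intro η
        rw [PP]
        simp only
        rw [indicator_of_notMem hσ]
        simp
      simp_rw [e1]
      simp
  have hmint : Measurable (fun h : ℝ => ∫⁻ y : V, ‖F (y, h)‖ₑ ^ 2) :=
    Measurable.lintegral_prod_left (f := fun (y : V) (h : ℝ) => ‖F (y, h)‖ₑ ^ 2) hmF
  calc ∫⁻ q, ∫⁻ η : V, ‖PP F σ0 σ1 η q‖ₑ ^ 2
      ≤ ∫⁻ q : ℝ × ℝ, ENNReal.ofReal K *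
          (Icc σ0 σ1).indicator (fun _ => ∫⁻ y : V, ‖F (y, q.2)‖ₑ ^ 2) q.1 := lintegral_mono hpt
    _ = ENNReal.ofReal K * ∫⁻ q : ℝ × ℝ,
          (Icc σ0 σ1).indicator (fun _ => (1:ℝ≥0∞)) q.1 * ∫⁻ y : V, ‖F (y, q.2)‖ₑ ^ 2 := by
        rw [lintegral_const_mul' _ _ ENNReal.ofReal_ne_top]
        congr 2
        ext q
        by_cases hq : q.1 ∈ Icc σ0 σ1
        · rw [indicator_of_mem hq, indicator_of_mem hq, one_mul]
        · rw [indicator_of_notMem hq, indicator_of_notMem hq, zero_mul]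
    _ = ENNReal.ofReal K * (ENNReal.ofReal (σ1 - σ0) * ∫⁻ h, ∫⁻ y : V, ‖F (y, h)‖ₑ ^ 2) := by
        congr 1
        rw [Measure.volume_eq_prod]
        rw [lintegral_prod_mul (f := fun σ => (Icc σ0 σ1).indicator (fun _ => (1:ℝ≥0∞)) σ)
          (g := fun h => ∫⁻ y : V, ‖F (y, h)‖ₑ ^ 2)
          (measurable_const.indicator measurableSet_Icc).aemeasurable hmint.aemeasurable]
        congr 1
        rw [lintegral_indicator measurableSet_Icc, setLIntegral_one, Real.volume_Icc]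
    _ = ENNReal.ofReal K * (ENNReal.ofReal (σ1 - σ0) * ∫⁻ q, ‖F q‖ₑ ^ 2) := by
        congr 2
        rw [Measure.volume_eq_prod, lintegral_prod_symm' _ hmF]
    _ = _ := by
        rw [← mul_assoc, ← ENNReal.ofReal_mul hK0, mul_comm K]

/-- Averaging over dilations. -/
theorem lintegral_le_dilate (hd : 1 ≤ Module.finrank ℝ V) {D : V → ℝ≥0∞} (hD : Measurable D) :
    ∫⁻ η, D η ≤ 2 * ∫⁻ η : V, ∫⁻ r in Icc (1:ℝ) 2,
      ENNReal.ofReal ((r ^ (Module.finrank ℝ V - 1)) ^ 2) * D (r • η) := by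
  have hm : Measurable (fun x : V × ℝ =>
      ENNReal.ofReal ((x.2 ^ (Module.finrank ℝ V - 1)) ^ 2) * D (x.2 • x.1)) := by
    apply Measurable.mul
    · fun_prop
    · exact hD.comp (by fun_prop)
  rw [lintegral_lintegral_swap (f := fun (η : V) (r : ℝ) =>
      ENNReal.ofReal ((r ^ (Module.finrank ℝ V - 1)) ^ 2) * D (r • η)) hm.aemeasurable]
  have h1 : ∫⁻ η, D η = ∫⁻ r in Icc (1:ℝ) 2, ∫⁻ η, D η := by
    rw [setLIntegral_const, Real.volume_Icc]
    norm_num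
  rw [h1, ← lintegral_const_mul' _ _ (by norm_num)]
  apply setLIntegral_mono' measurableSet_Icc
  intro r hr
  have hr0 : 0 < r := by linarith [hr.1]
  rw [lintegral_const_mul' _ _ ENNReal.ofReal_ne_top, lintegral_comp_smulV hD hr0.ne',
    ← mul_assoc, ← mul_assoc]
  calc ∫⁻ η, D η = 1 * ∫⁻ η, D η := (one_mul _).symm
    _ ≤ _ := by
      gcongr
      have e2 : (2:ℝ≥0∞) = ENNReal.ofReal 2 := by simp
      rw [e2, ← ENNReal.ofReal_mul (by norm_num), ← ENNReal.ofReal_mul (by positivity),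
        ← ENNReal.ofReal_one]
      apply ENNReal.ofReal_le_ofReal
      rw [abs_of_pos (by positivity)]
      obtain ⟨d, hd'⟩ : ∃ d, Module.finrank ℝ V = d + 1 := ⟨_, (Nat.sub_add_cancel hd).symm⟩
      rw [hd', Nat.add_sub_cancel]
      have hrd : 1 ≤ r ^ d := one_le_pow₀ hr.1
      have e3 : 2 * (r ^ d) ^ 2 * (r ^ (d+1))⁻¹ = 2 * r ^ d / r := by
        field_simp
        ring
      rw [e3, le_div_iff₀ hr0]
      nlinarith [hr.2]

/-- The estimate for the differences. -/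
theorem core (hd : 1 ≤ Module.finrank ℝ V) (hF : Nice F) {s0 s1 : ℝ} (hs0 : 0 < s0)
    (hs1 : s0 ≤ s1) (p : ℕ → V) (κ : ℕ → ℝ) {N M : ℕ}
    (hsup : ∀ k y h, F (y, h) ≠ 0 → s0 ≤ h - κ k ∧ h - κ k ≤ s1)
    (hcross : ∀ η : V, η ≠ 0 → ∀ u, Cross N M (fun k => inner ℝ (p k) η + κ k * u)) :
    ∑ k ∈ Finset.range M, ∫⁻ v, ‖gg F (p (k+1)) (κ (k+1)) v - gg F (p k) (κ k) v‖ₑ ^ 2
      ≤ 2 * (8 * N * (ENNReal.ofReal (1 + (2 * Real.pi * (2 / s0)) ^ 2)
          * ENNReal.ofReal (s1⁻¹)⁻¹)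
        * (ENNReal.ofReal ((2 / s0 - s1⁻¹) * (((2 / s0) ^ (Module.finrank ℝ V - 1)) ^ 2
          * (s1⁻¹ ^ Module.finrank ℝ V)⁻¹)) * ∫⁻ q, ‖F q‖ₑ ^ 2)) := by
  have hs1p : 0 < s1 := by linarith
  have h0 : 0 < s1⁻¹ := by positivity
  have h01 : s1⁻¹ ≤ 2 / s0 := by
    rw [inv_eq_one_div]
    exact div_le_div₀ (by norm_num) (by norm_num) hs0 hs1
  have hsup' : ∀ k y h, F (y, h) ≠ 0 → s0 ≤ h - κ k := fun k y h hne => (hsup k y h hne).1
  have hN : ∀ k, Nice (gg F (p k) (κ k)) := fun k => nice_gg hF hs0 (hsup' k) (p k)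
  set D : ℕ → V → ℝ≥0∞ := fun k η =>
    ‖𝓕 (gg F (p (k+1)) (κ (k+1))) η - 𝓕 (gg F (p k) (κ k)) η‖ₑ ^ 2 with hD
  have hDm : ∀ k, Measurable (D k) := fun k =>
    ((hN (k+1)).continuous_fourier.sub (hN k).continuous_fourier).measurable.enorm.pow_const 2
  have h1 : ∀ k, ∫⁻ v, ‖gg F (p (k+1)) (κ (k+1)) v - gg F (p k) (κ k) v‖ₑ ^ 2 = ∫⁻ η, D k η := by
    intro k
    rw [← ((hN (k+1)).sub (hN k)).plancherel]
    congr 1
    ext η
    rw [fourier_sub_nice (hN (k+1)) (hN k)]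
  set I : ℕ → V → ℝ≥0∞ := fun k η => ∫⁻ r in Icc (1:ℝ) 2,
      ENNReal.ofReal ((r ^ (Module.finrank ℝ V - 1)) ^ 2) * D k (r • η) with hI
  have hIm : ∀ k, Measurable (I k) := by
    intro k
    have hm : Measurable (fun x : V × ℝ =>
        ENNReal.ofReal ((x.2 ^ (Module.finrank ℝ V - 1)) ^ 2) * D k (x.2 • x.1)) := by
      have hm1 : Measurable (fun x : V × ℝ =>
        ENNReal.ofReal ((x.2 ^ (Module.finrank ℝ V - 1)) ^ 2)) := by fun_prop
      have hm2 : Measurable (fun x : V × ℝ => x.2 • x.1) := by fun_prop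
      exact hm1.mul ((hDm k).comp hm2)
    exact Measurable.lintegral_prod_right (f := fun (η : V) (r : ℝ) =>
      ENNReal.ofReal ((r ^ (Module.finrank ℝ V - 1)) ^ 2) * D k (r • η)) hm
  have h2 : ∀ η : V, η ≠ 0 → ∑ k ∈ Finset.range M, I k η
      ≤ 8 * N * (ENNReal.ofReal (1 + (2 * Real.pi * (2 / s0)) ^ 2) * ENNReal.ofReal (s1⁻¹)⁻¹)
        * ∫⁻ q, ‖PP F (s1⁻¹) (2 / s0) η q‖ₑ ^ 2 := by
    intro η hη
    have hP : Nice (PP F (s1⁻¹) (2 / s0) η) := nice_PP hF h0 η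
    have hPs : ∀ k σ h, PP F (s1⁻¹) (2 / s0) η (σ, h) ≠ 0 →
        s1⁻¹ ≤ σ ∧ σ ≤ 2 / s0 ∧ s0 ≤ h - κ k := by
      intro k σ h hne
      rw [PP] at hne
      have h1 := left_ne_zero_of_mul hne
      have h2 := right_ne_zero_of_mul hne
      simp only at h1 h2
      have hσ : σ ∈ Icc (s1⁻¹) (2 / s0) := by
        by_contra hσ
        exact h1 (by simp [indicator_of_notMem hσ])
      refine ⟨hσ.1, hσ.2, ?_⟩
      by_contra hh
      apply h2
      apply FF_eq_zero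
      intro y
      by_contra hne'
      exact hh (hsup' k y h hne')
    refine le_trans ?_ (plane_est hP h0 hs0 (fun k => inner ℝ (p k) η) κ hPs (hcross η hη))
    apply Finset.sum_le_sum
    intro k _
    rw [hI]
    simp only
    refine le_trans ?_ (setLIntegral_le_lintegral (Icc (1:ℝ) 2) _)
    apply setLIntegral_mono' measurableSet_Icc
    intro r hr
    rw [← fourier_gg_eq_BB hd hF hs0 (hsup (k+1)) (p (k+1)) η hr,
      ← fourier_gg_eq_BB hd hF hs0 (hsup k) (p k) η hr, ← mul_sub, enorm_mul, mul_pow]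
    apply le_of_eq
    congr 1
    have hr0 : 0 < r := by linarith [hr.1]
    rw [← ofReal_norm, Complex.norm_real, Real.norm_of_nonneg (by positivity),
          ENNReal.ofReal_pow (by positivity)]
  have hne : ∀ᵐ η : V, η ≠ 0 := by
    have hnt : Nontrivial V := Module.nontrivial_of_finrank_pos (R := ℝ) (by omega)
    rw [ae_iff]
    simp
  calc ∑ k ∈ Finset.range M, ∫⁻ v, ‖gg F (p (k+1)) (κ (k+1)) v - gg F (p k) (κ k) v‖ₑ ^ 2
      = ∑ k ∈ Finset.range M, ∫⁻ η, D k η := Finset.sum_congr rfl (fun k _ => h1 k)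
    _ ≤ ∑ k ∈ Finset.range M, 2 * ∫⁻ η, I k η :=
        Finset.sum_le_sum (fun k _ => lintegral_le_dilate hd (hDm k))
    _ = 2 * ∫⁻ η, ∑ k ∈ Finset.range M, I k η := by
        rw [← Finset.mul_sum, lintegral_finsetSum _ (fun k _ => hIm k)]
    _ ≤ 2 * ∫⁻ η : V, 8 * N * (ENNReal.ofReal (1 + (2 * Real.pi * (2 / s0)) ^ 2)
          * ENNReal.ofReal (s1⁻¹)⁻¹) * ∫⁻ q, ‖PP F (s1⁻¹) (2 / s0) η q‖ₑ ^ 2 := by
        gcongr 2 * ?_
        apply lintegral_mono_ae
        filter_upwards [hne] with η hη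
        exact h2 η hη
    _ = 2 * (8 * N * (ENNReal.ofReal (1 + (2 * Real.pi * (2 / s0)) ^ 2)
          * ENNReal.ofReal (s1⁻¹)⁻¹) * ∫⁻ η : V, ∫⁻ q, ‖PP F (s1⁻¹) (2 / s0) η q‖ₑ ^ 2) := by
        rw [lintegral_const_mul']
        exact ENNReal.mul_ne_top (ENNReal.mul_ne_top (by norm_num) (ENNReal.natCast_ne_top N))
          (ENNReal.mul_ne_top ENNReal.ofReal_ne_top ENNReal.ofReal_ne_top)
    _ ≤ _ := by
        gcongr
        exact lintegral_PP hF h0 h01

end Pool.Agent.W767.Kc
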