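import Pool.Agent.W767.Kc.Chain

set_option autoImplicit false
set_option linter.unusedSectionVars false

/-!
The maximal estimate for all nonnegative measurable functions.
-/

open MeasureTheory Set Filter Topology ENNReal NNReal FourierTransform

namespace Pool.Agent.W767.Kc

variable {V : Type*} [NormedAddCommGroup V] [InnerProductSpace ℝ V] [MeasurableSpace V]
  [BorelSpace V] [FiniteDimensional ℝ V]

/-- Truncation. -/
noncomputable def trc (H : V × ℝ → ℝ≥0∞) (n : ℕ) (q : V × ℝ) : ℝ≥0∞ :=
  (Metric.closedBall (0 : V × ℝ) n).indicator (fun q => min (H q) n) q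

theorem trc_mono (H : V × ℝ → ℝ≥0∞) (q : V × ℝ) : Monotone (fun n => trc H n q) := by
  intro n m hnm
  simp only [trc]
  by_cases h : q ∈ Metric.closedBall (0 : V × ℝ) n
  · have h' : q ∈ Metric.closedBall (0 : V × ℝ) m :=
      Metric.closedBall_subset_closedBall (by exact_mod_cast hnm) h
    rw [indicator_of_mem h, indicator_of_mem h']
    exact min_le_min le_rfl (by exact_mod_cast hnm)
  · rw [indicator_of_notMem h]
    exact zero_le

theorem trc_le (H : V × ℝ → ℝ≥0∞) (n : ℕ) (q : V × ℝ) : trc H n q ≤ H q := by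
  simp only [trc]
  by_cases h : q ∈ Metric.closedBall (0 : V × ℝ) n
  · rw [indicator_of_mem h]; exact min_le_left _ _
  · rw [indicator_of_notMem h]; exact zero_le

theorem trc_le_nat (H : V × ℝ → ℝ≥0∞) (n : ℕ) (q : V × ℝ) : trc H n q ≤ n := by
  simp only [trc]
  by_cases h : q ∈ Metric.closedBall (0 : V × ℝ) n
  · rw [indicator_of_mem h]; exact min_le_right _ _
  · rw [indicator_of_notMem h]; exact zero_le

theorem iSup_trc (H : V × ℝ → ℝ≥0∞) (q : V × ℝ) : ⨆ n, trc H n q = H q := by
  apply le_antisymm (iSup_le (fun n => trc_le H n q))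
  apply le_of_forall_lt
  intro c hc
  obtain ⟨n1, hn1⟩ := exists_nat_gt ‖q‖
  obtain ⟨n2, hn2⟩ := ENNReal.exists_nat_gt (lt_of_lt_of_le hc le_top).ne
  set n := max n1 n2 with hn
  have h : q ∈ Metric.closedBall (0 : V × ℝ) n := by
    simp only [Metric.mem_closedBall, dist_zero_right]
    exact hn1.le.trans (by exact_mod_cast le_max_left _ _)
  refine lt_of_lt_of_le ?_ (le_iSup (fun n => trc H n q) n)
  simp only [trc]
  rw [indicator_of_mem h]
  refine lt_min hc (hn2.trans_le ?_)
  exact_mod_cast le_max_right _ _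

theorem measurable_trc {H : V × ℝ → ℝ≥0∞} (hH : Measurable H) (n : ℕ) : Measurable (trc H n) :=
  (hH.min measurable_const).indicator Metric.isClosed_closedBall.measurableSet

theorem nice_trc {H : V × ℝ → ℝ≥0∞} (hH : Measurable H) (n : ℕ) :
    Nice (fun q => ((trc H n q).toReal : ℂ)) := by
  refine ⟨Complex.measurable_ofReal.comp (measurable_trc hH n).ennreal_toReal, ⟨n, fun q => ?_⟩,
    ⟨n, fun q hq => ?_⟩⟩
  · rw [Complex.norm_real, Real.norm_of_nonneg ENNReal.toReal_nonneg]
    have := ENNReal.toReal_mono (ENNReal.natCast_ne_top n) (trc_le_nat H n q)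
    simpa using this
  · by_contra h
    apply hq
    have : q ∉ Metric.closedBall (0 : V × ℝ) n := by simpa using h
    simp [trc, indicator_of_notMem this]

theorem gN_trc {H : V × ℝ → ℝ≥0∞} (hH : Measurable H) {s0 κ : ℝ} (hs0 : 0 < s0)
    (hsup : ∀ y h, H (y, h) ≠ 0 → s0 ≤ h - κ) (n : ℕ) (p v : V) :
    gN (trc H n) p κ v = ‖gg (fun q => ((trc H n q).toReal : ℂ)) p κ v‖ₑ := by
  have hsup' : ∀ y h, ((trc H n (y, h)).toReal : ℂ) ≠ 0 → s0 ≤ h - κ := by
    intro y h hne
    apply hsup y h
    intro h0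
    apply hne
    have : trc H n (y, h) = 0 := le_antisymm ((trc_le H n (y,h)).trans h0.le) zero_le
    simp [this]
  have hint : Integrable (fun h : ℝ => (trc H n (p + (h - κ) • v, h)).toReal) := by
    have h1 := ((nice_ggint (nice_trc hH n) hs0 hsup' p).section_right v).integrable
      (volume : Measure ℝ)
    have h2 := h1.norm
    refine h2.congr (Eventually.of_forall fun h => ?_)
    simp only
    rw [Complex.norm_real, Real.norm_of_nonneg ENNReal.toReal_nonneg]
  rw [gg, integral_complex_ofReal, ← ofReal_norm, Complex.norm_real,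
    Real.norm_of_nonneg (integral_nonneg (fun _ => ENNReal.toReal_nonneg)),
    ofReal_integral_eq_lintegral_ofReal hint (Eventually.of_forall (fun _ => ENNReal.toReal_nonneg)),
    gN]
  congr 1
  ext h
  rw [ENNReal.ofReal_toReal]
  exact ((trc_le_nat H n _).trans_lt (ENNReal.natCast_lt_top n)).ne

/-- The maximal estimate for nonnegative measurable functions. -/
theorem chain_meas (hd : 1 ≤ Module.finrank ℝ V) {H : V × ℝ → ℝ≥0∞} (hH : Measurable H)
    {s0 s1 : ℝ} (hs0 : 0 < s0) (hs1 : s0 ≤ s1) {N : ℕ} (J : ℕ) (p : ℕ → V) (κ : ℕ → ℝ)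
    (hc : CrossAll N p κ) (hsup : ∀ k y h, H (y, h) ≠ 0 → s0 ≤ h - κ k ∧ h - κ k ≤ s1) :
    ∫⁻ v, ((Finset.range (2 ^ J)).sup (fun k => gN H (p k) (κ k) v)) ^ 2
      ≤ ((J:ℝ≥0∞) + 1) ^ 2 * ((N + 1) * cc (Module.finrank ℝ V) s0 s1 * ∫⁻ q, H q ^ 2) := by
  set b : ℕ → V → ℝ≥0∞ := fun n v =>
    (Finset.range (2 ^ J)).sup (fun k => gN (trc H n) (p k) (κ k) v) with hb
  have hbm : ∀ n, Measurable (b n) := fun n =>
    measurable_finset_sup _ (fun k => measurable_gN (measurable_trc hH n) (p k) (κ k))
  have hgm : ∀ k v, Monotone (fun n => gN (trc H n) (p k) (κ k) v) := fun k v n m hnm =>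
    lintegral_mono (fun h => trc_mono H _ hnm)
  have hbmono : ∀ v, Monotone (fun n => b n v) := fun v n m hnm =>
    Finset.sup_mono_fun (fun k _ => hgm k v hnm)
  have hlim : ∀ v, (Finset.range (2 ^ J)).sup (fun k => gN H (p k) (κ k) v) ≤ ⨆ n, b n v := by
    intro v
    apply Finset.sup_le
    intro k hk
    have h1 : gN H (p k) (κ k) v = ⨆ n, gN (trc H n) (p k) (κ k) v := by
      rw [gN]
      calc ∫⁻ h, H (p k + (h - κ k) • v, h)
          = ∫⁻ h, ⨆ n, trc H n (p k + (h - κ k) • v, h) := by simp_rw [iSup_trc]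
        _ = _ := by
          rw [lintegral_iSup]
          · rfl
          · intro n
            exact (measurable_trc hH n).comp (by fun_prop)
          · intro n m hnm h
            exact trc_mono H _ hnm
    rw [h1]
    apply iSup_mono
    intro n
    exact Finset.le_sup (f := fun k => gN (trc H n) (p k) (κ k) v) hk
  calc ∫⁻ v, ((Finset.range (2 ^ J)).sup (fun k => gN H (p k) (κ k) v)) ^ 2
      ≤ ∫⁻ v, ⨆ n, b n v ^ 2 := by
        apply lintegral_mono
        intro v
        refine (pow_le_pow_left' (hlim v) 2).trans ?_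
        rw [ENNReal.iSup_pow]
    _ = ⨆ n, ∫⁻ v, b n v ^ 2 := by
        rw [lintegral_iSup]
        · intro n; exact (hbm n).pow_const 2
        · intro n m hnm v
          exact pow_le_pow_left' (hbmono v hnm) 2
    _ ≤ _ := by
        apply iSup_le
        intro n
        have hsup' : ∀ k y h, ((trc H n (y, h)).toReal : ℂ) ≠ 0 → s0 ≤ h - κ k ∧ h - κ k ≤ s1 := by
          intro k y h hne
          apply hsup k y h
          intro h0
          apply hne
          have : trc H n (y, h) = 0 := le_antisymm ((trc_le H n (y,h)).trans h0.le) zero_le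
          simp [this]
        have h1 := chain hd (nice_trc hH n) hs0 hs1 J p κ hc hsup'
        have h2 : ∀ v, b n v = (Finset.range (2 ^ J)).sup
            (fun k => ‖gg (fun q => ((trc H n q).toReal : ℂ)) (p k) (κ k) v‖ₑ) := by
          intro v
          simp only [hb]
          congr 1
          ext k
          exact gN_trc hH hs0 (fun y h hne => (hsup k y h hne).1) n (p k) v
        simp_rw [h2]
        refine h1.trans ?_
        gcongr with q
        rw [← ofReal_norm, Complex.norm_real, Real.norm_of_nonneg ENNReal.toReal_nonneg]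
        exact ENNReal.ofReal_toReal_le.trans (trc_le H n q)

end Pool.Agent.W767.Kc
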