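import Pool.Agent.W767.Kc.QV
import Pool.Agent.H153R4.Pl

set_option autoImplicit false

/-!
Bounded measurable functions with bounded support, their Fourier transforms.
-/

open MeasureTheory Set Filter Topology ENNReal NNReal FourierTransform

namespace Pool.Agent.W767.Kc

/-- Bounded measurable functions of bounded support. -/
def Nice {X : Type*} [NormedAddCommGroup X] [MeasurableSpace X] (f : X → ℂ) : Prop :=
  Measurable f ∧ (∃ C : ℝ, ∀ x, ‖f x‖ ≤ C) ∧ (∃ R : ℝ, ∀ x, f x ≠ 0 → ‖x‖ ≤ R)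

section
variable {X : Type*} [NormedAddCommGroup X] [MeasurableSpace X]

theorem Nice.mul_bdd {f : X → ℂ} (hf : Nice f) {g : X → ℂ} (hg : Measurable g) {C : ℝ}
    (hC : ∀ x, f x ≠ 0 → ‖g x‖ ≤ C) : Nice (fun x => g x * f x) := by
  obtain ⟨hm, ⟨D, hD⟩, ⟨R, hR⟩⟩ := hf
  refine ⟨hg.mul hm, ⟨|C| * |D|, fun x => ?_⟩, ⟨R, fun x hx => hR x (right_ne_zero_of_mul hx)⟩⟩
  by_cases h : f x = 0
  · simp only [h, mul_zero, norm_zero]; positivity
  · rw [norm_mul]
    exact mul_le_mul ((hC x h).trans (le_abs_self C)) ((hD x).trans (le_abs_self D))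
      (norm_nonneg _) (abs_nonneg _)

theorem Nice.indicator {f : X → ℂ} (hf : Nice f) {s : Set X} (hs : MeasurableSet s) :
    Nice (s.indicator f) := by
  obtain ⟨hm, ⟨D, hD⟩, ⟨R, hR⟩⟩ := hf
  refine ⟨hm.indicator hs, ⟨D, fun x => (norm_indicator_le_norm_self f x).trans (hD x)⟩,
    ⟨R, fun x hx => hR x ?_⟩⟩
  intro h
  apply hx
  by_cases hxs : x ∈ s
  · rw [indicator_of_mem hxs, h]
  · rw [indicator_of_notMem hxs]

theorem Nice.sub {f g : X → ℂ} (hf : Nice f) (hg : Nice g) : Nice (fun x => f x - g x) := by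
  obtain ⟨hm, ⟨D, hD⟩, ⟨R, hR⟩⟩ := hf
  obtain ⟨hm', ⟨D', hD'⟩, ⟨R', hR'⟩⟩ := hg
  refine ⟨hm.sub hm', ⟨D + D', fun x => (norm_sub_le _ _).trans (add_le_add (hD x) (hD' x))⟩,
    ⟨max R R', fun x hx => ?_⟩⟩
  by_cases h : f x = 0
  · have : g x ≠ 0 := by intro h'; apply hx; show f x - g x = 0; rw [h, h', sub_zero]
    exact (hR' x this).trans (le_max_right _ _)
  · exact (hR x h).trans (le_max_left _ _)

end

section
variable {X : Type*} [NormedAddCommGroup X] [MeasurableSpace X] [BorelSpace X] [ProperSpace X]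
  (μ : Measure X) [IsFiniteMeasureOnCompacts μ]

theorem Nice.integrable {f : X → ℂ} (hf : Nice f) : Integrable f μ := by
  obtain ⟨hm, ⟨D, hD⟩, ⟨R, hR⟩⟩ := hf
  have h1 : f = (Metric.closedBall (0:X) R).indicator f := by
    ext x
    by_cases hx : x ∈ Metric.closedBall (0:X) R
    · rw [indicator_of_mem hx]
    · rw [indicator_of_notMem hx]
      by_contra h
      exact hx (by simpa using hR x h)
  rw [h1, integrable_indicator_iff Metric.isClosed_closedBall.measurableSet]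
  apply Measure.integrableOn_of_bounded (M := D)
    ((isCompact_closedBall (0:X) R).measure_lt_top.ne) hm.aestronglyMeasurable
  exact Eventually.of_forall hD

theorem Nice.memLp {f : X → ℂ} (hf : Nice f) : MemLp f 2 μ := by
  have hi := hf.integrable μ
  obtain ⟨hm, ⟨D, hD⟩, ⟨R, hR⟩⟩ := hf
  have h : MemLp f 2 μ ↔ Integrable (fun x => ‖f x‖ ^ 2) μ :=
    memLp_two_iff_integrable_sq_norm hm.aestronglyMeasurable
  rw [h]
  apply Integrable.mono' (hi.norm.const_mul |D|) (hm.norm.pow_const 2).aestronglyMeasurable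
  apply Eventually.of_forall
  intro x
  rw [Real.norm_of_nonneg (by positivity), pow_two]
  exact mul_le_mul_of_nonneg_right ((hD x).trans (le_abs_self D)) (norm_nonneg _)

end

section
variable {X Y : Type*} [NormedAddCommGroup X] [MeasurableSpace X]
  [NormedAddCommGroup Y] [MeasurableSpace Y] [BorelSpace Y] [ProperSpace Y]
  (ν : Measure Y) [IsFiniteMeasureOnCompacts ν] [SFinite ν]

omit [BorelSpace Y] [ProperSpace Y] in
theorem Nice.section_right {f : X × Y → ℂ} (hf : Nice f) (x : X) : Nice (fun y => f (x, y)) := by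
  obtain ⟨hm, ⟨D, hD⟩, ⟨R, hR⟩⟩ := hf
  exact ⟨hm.comp measurable_prodMk_left, ⟨D, fun y => hD _⟩,
    ⟨R, fun y hy => (norm_snd_le (x, y)).trans (hR _ hy)⟩⟩

omit [BorelSpace Y] [ProperSpace Y] in
theorem Nice.section_left {f : X × Y → ℂ} (hf : Nice f) (y : Y) : Nice (fun x => f (x, y)) := by
  obtain ⟨hm, ⟨D, hD⟩, ⟨R, hR⟩⟩ := hf
  exact ⟨hm.comp measurable_prodMk_right, ⟨D, fun y => hD _⟩,
    ⟨R, fun x hx => (norm_fst_le (x, y)).trans (hR _ hx)⟩⟩

theorem Nice.integral_right {f : X × Y → ℂ} (hf : Nice f) : Nice (fun x => ∫ y, f (x, y) ∂ν) := by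
  have hf0 := hf
  obtain ⟨hm, ⟨D, hD⟩, ⟨R, hR⟩⟩ := hf
  refine ⟨?_, ⟨|D| * ν.real (Metric.closedBall (0:Y) R), fun x => ?_⟩, ⟨R, fun x hx => ?_⟩⟩
  · exact (hm.stronglyMeasurable.integral_prod_right (f := fun x y => f (x, y))).measurable
  · have h1 : ∫ y, f (x, y) ∂ν = ∫ y in Metric.closedBall (0:Y) R, f (x, y) ∂ν := by
      symm
      apply setIntegral_eq_integral_of_forall_compl_eq_zero
      intro y hy
      by_contra h
      exact hy (by simpa using (norm_snd_le (x, y)).trans (hR _ h))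
    show ‖∫ y, f (x, y) ∂ν‖ ≤ _
    rw [h1]
    apply norm_setIntegral_le_of_norm_le_const
      ((isCompact_closedBall (0:Y) R).measure_lt_top)
    intro y _
    exact (hD _).trans (le_abs_self D)
  · by_contra h
    apply hx
    have : ∀ y, f (x, y) = 0 := by
      intro y
      by_contra h'
      exact h ((norm_fst_le (x, y)).trans (hR _ h'))
    simp [this]

end

/-- The character `e^{2πix}`. -/
noncomputable def ee (x : ℝ) : ℂ := (Real.fourierChar x : ℂ)

theorem ee_add (x y : ℝ) : ee (x + y) = ee x * ee y := by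
  simp [ee, AddChar.map_add_eq_mul]

theorem norm_ee (x : ℝ) : ‖ee x‖ = 1 := Circle.norm_coe _

theorem continuous_ee : Continuous ee :=
  continuous_subtype_val.comp Real.continuous_fourierChar

theorem measurable_ee : Measurable ee := continuous_ee.measurable

section
variable {V : Type*} [NormedAddCommGroup V] [InnerProductSpace ℝ V] [MeasurableSpace V]
  [BorelSpace V] [FiniteDimensional ℝ V]

theorem fourier_ee (f : V → ℂ) (w : V) : 𝓕 f w = ∫ v, ee (-inner ℝ v w) * f v := by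
  rw [Real.fourier_eq]
  rfl

theorem fourier_real_ee (f : ℝ → ℂ) (w : ℝ) : 𝓕 f w = ∫ v, ee (-(v * w)) * f v := by
  rw [Real.fourier_real_eq]
  rfl

theorem Nice.plancherel {f : V → ℂ} (hf : Nice f) : ∫⁻ ξ, ‖𝓕 f ξ‖ₑ ^ 2 = ∫⁻ x, ‖f x‖ₑ ^ 2 :=
  Pool.Agent.H153R4.plancherel f (hf.integrable _) (hf.memLp _)

theorem Nice.continuous_fourier {f : V → ℂ} (hf : Nice f) : Continuous (𝓕 f) :=
  VectorFourier.fourierIntegral_continuous (L := innerₗ V) Real.continuous_fourierChar
      continuous_inner (hf.integrable _)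

theorem fourier_sub_nice {f g : V → ℂ} (hf : Nice f) (hg : Nice g) (w : V) :
    𝓕 (fun x => f x - g x) w = 𝓕 f w - 𝓕 g w := by
  rw [fourier_ee, fourier_ee, fourier_ee, ← integral_sub]
  · congr 1; ext v; ring
  · exact (hf.mul_bdd (measurable_ee.comp (by fun_prop)) (fun x _ => (norm_ee _).le)).integrable _
  · exact (hg.mul_bdd (measurable_ee.comp (by fun_prop)) (fun x _ => (norm_ee _).le)).integrable _

end

/-- The Fourier transform of a function supported in `[-R, R]`. -/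
theorem band_limited {h : ℝ → ℂ} (hh : Nice h) {R : ℝ} (hR : ∀ σ, h σ ≠ 0 → |σ| ≤ R) :
    ∃ G' : ℝ → ℂ, Continuous G' ∧ (∀ x, HasDerivAt (𝓕 h) (G' x) x) ∧
      ∫⁻ y, (‖𝓕 h y‖ₑ ^ 2 + ‖G' y‖ₑ ^ 2)
        ≤ ENNReal.ofReal (1 + (2 * Real.pi * R) ^ 2) * ∫⁻ σ, ‖h σ‖ₑ ^ 2 := by
  set h' : ℝ → ℂ := fun x => (-2 * Real.pi * Complex.I * x) * h x with hh'
  have hm' : Measurable (fun x : ℝ => (-2 * Real.pi * Complex.I * x : ℂ)) := by fun_prop
  have hn' : ∀ x : ℝ, ‖(-2 * Real.pi * Complex.I * x : ℂ)‖ = 2 * Real.pi * |x| := by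
    intro x
    simp [abs_of_pos Real.pi_pos]
  have hN' : Nice h' := by
    apply hh.mul_bdd hm' (C := 2 * Real.pi * R)
    intro x hx
    rw [hn']
    have := hR x hx
    have := Real.pi_pos
    gcongr
  refine ⟨𝓕 h', hN'.continuous_fourier, ?_, ?_⟩
  · intro x
    have h1 : Integrable (fun x : ℝ => x • h x) := by
      have : Nice (fun x : ℝ => (x : ℂ) * h x) := by
        apply hh.mul_bdd (by fun_prop) (C := R)
        intro x hx
        simpa using hR x hx
      have h2 := this.integrable (volume : Measure ℝ)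
      refine h2.congr (Eventually.of_forall fun x => ?_)
      simp
    exact Real.hasDerivAt_fourier (hh.integrable _) h1 x
  · rw [lintegral_add_left (hh.continuous_fourier.measurable.enorm.pow_const 2),
      hh.plancherel, hN'.plancherel]
    have h3 : ∀ x, ‖h' x‖ₑ ^ 2 ≤ ENNReal.ofReal ((2 * Real.pi * R) ^ 2) * ‖h x‖ₑ ^ 2 := by
      intro x
      by_cases hx : h x = 0
      · simp [hh', hx]
      · rw [hh', enorm_mul, mul_pow]
        gcongr
        have hpos := Real.pi_pos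
        rw [← ofReal_norm, ← ENNReal.ofReal_pow (norm_nonneg _), hn']
        apply ENNReal.ofReal_le_ofReal
        have := hR x hx
        gcongr
    have hm2 : Measurable (fun σ => ‖h σ‖ₑ ^ 2) := hh.1.enorm.pow_const 2
    have h4 : ∫⁻ σ, ‖h' σ‖ₑ ^ 2 ≤ ENNReal.ofReal ((2 * Real.pi * R) ^ 2) * ∫⁻ σ, ‖h σ‖ₑ ^ 2 := by
      rw [← lintegral_const_mul _ hm2]
      exact lintegral_mono h3
    calc (∫⁻ σ, ‖h σ‖ₑ ^ 2) + ∫⁻ σ, ‖h' σ‖ₑ ^ 2
        ≤ (∫⁻ σ, ‖h σ‖ₑ ^ 2) + ENNReal.ofReal ((2 * Real.pi * R) ^ 2) * ∫⁻ σ, ‖h σ‖ₑ ^ 2 := by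
          gcongr
      _ = _ := by
          rw [ENNReal.ofReal_add (by norm_num) (by positivity), add_mul]
          simp

end Pool.Agent.W767.Kc
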