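import Pool.Agent.W767.Kc.Nice

set_option autoImplicit false

/-!
The planar part of the estimate: differences of transforms along a sequence of lines.
-/

open MeasureTheory Set Filter Topology ENNReal NNReal FourierTransform

namespace Pool.Agent.W767.Kc

theorem Cross.neg {N M : ℕ} {x : ℕ → ℝ} (hx : Cross N M x) : Cross N M (fun k => -x k) := by
  have h1 := (Measure.measurePreserving_neg (volume : Measure ℝ)).quasiMeasurePreserving.ae hx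
  filter_upwards [h1] with y hy
  refine le_trans (Set.encard_le_encard ?_) hy
  rintro k ⟨hk, hk2⟩
  refine ⟨hk, ?_⟩
  simp only [btw, mem_Ioo, min_neg_neg, max_neg_neg] at hk2 ⊢
  constructor <;> linarith [hk2.1, hk2.2]

/-- `∫ (h-κ)⁻¹ e(r x / (h-κ)) Ψ(r/(h-κ), h) dh`. -/
noncomputable def BB (Ψ : ℝ × ℝ → ℂ) (x κ r : ℝ) : ℂ :=
  ∫ h, (((h - κ)⁻¹ : ℝ) : ℂ) * ee (r * x / (h - κ)) * Ψ (r / (h - κ), h)

/-- `∫ e(-σ h u) Ψ(σ, h) dh`. -/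
noncomputable def HH (Ψ : ℝ × ℝ → ℂ) (u σ : ℝ) : ℂ := ∫ h, ee (-(σ * h * u)) * Ψ (σ, h)

variable {Ψ : ℝ × ℝ → ℂ}

theorem nice_BBint (hΨ : Nice Ψ) {σ1 s0 κ : ℝ} (hs0 : 0 < s0)
    (hsup : ∀ σ h, Ψ (σ, h) ≠ 0 → |σ| ≤ σ1 ∧ s0 ≤ h - κ) (x : ℝ) :
    Nice (fun p : ℝ × ℝ => (((p.2 - κ)⁻¹ : ℝ) : ℂ) * ee (p.1 * x / (p.2 - κ))
      * Ψ (p.1 / (p.2 - κ), p.2)) := by
  obtain ⟨hm, ⟨D, hD⟩, ⟨R, hR⟩⟩ := hΨ
  have hm1 : Measurable (fun p : ℝ × ℝ => (((p.2 - κ)⁻¹ : ℝ) : ℂ)) := by fun_prop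
  have hm2 : Measurable (fun p : ℝ × ℝ => ee (p.1 * x / (p.2 - κ))) :=
    measurable_ee.comp (by fun_prop)
  have hm3 : Measurable (fun p : ℝ × ℝ => Ψ (p.1 / (p.2 - κ), p.2)) :=
    hm.comp (by fun_prop)
  refine ⟨(hm1.mul hm2).mul hm3, ⟨s0⁻¹ * |D|, ?_⟩, ⟨max (σ1 * (|R| + |κ|)) |R|, ?_⟩⟩
  · rintro ⟨r, h⟩
    by_cases hz : Ψ (r / (h - κ), h) = 0
    · simp only [hz, mul_zero, norm_zero]; positivity
    · obtain ⟨-, hs⟩ := hsup _ _ hz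
      simp only
      rw [norm_mul, norm_mul, norm_ee, mul_one]
      have hpos : 0 < h - κ := by linarith
      have h1 : ‖(((h - κ)⁻¹ : ℝ) : ℂ)‖ ≤ s0⁻¹ := by
        rw [Complex.norm_real, Real.norm_of_nonneg (inv_nonneg.2 hpos.le)]
        exact inv_anti₀ hs0 hs
      exact mul_le_mul h1 ((hD _).trans (le_abs_self D)) (norm_nonneg _) (by positivity)
  · rintro ⟨r, h⟩ hne
    have hz : Ψ (r / (h - κ), h) ≠ 0 := right_ne_zero_of_mul hne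
    obtain ⟨hσ, hs⟩ := hsup _ _ hz
    have hh : |h| ≤ |R| := by
      have := (norm_snd_le (r / (h-κ), h)).trans (hR _ hz)
      simp only [Real.norm_eq_abs] at this
      exact this.trans (le_abs_self R)
    have hpos : 0 < h - κ := by linarith
    have hr : |r| ≤ σ1 * (|R| + |κ|) := by
      have e : r = (r / (h - κ)) * (h - κ) := by field_simp
      rw [e, abs_mul]
      have h5 : |h - κ| ≤ |R| + |κ| := (abs_sub _ _).trans (add_le_add hh le_rfl)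
      exact mul_le_mul hσ h5 (abs_nonneg _) ((abs_nonneg _).trans hσ)
    rw [Prod.norm_def]
    exact max_le_max hr hh

theorem nice_BB (hΨ : Nice Ψ) {σ1 s0 κ : ℝ} (hs0 : 0 < s0)
    (hsup : ∀ σ h, Ψ (σ, h) ≠ 0 → |σ| ≤ σ1 ∧ s0 ≤ h - κ) (x : ℝ) : Nice (BB Ψ x κ) :=
  (nice_BBint hΨ hs0 hsup x).integral_right volume

theorem nice_HHint (hΨ : Nice Ψ) (u : ℝ) :
    Nice (fun p : ℝ × ℝ => ee (-(p.1 * p.2 * u)) * Ψ (p.1, p.2)) :=
  hΨ.mul_bdd (measurable_ee.comp (by fun_prop)) (fun x _ => (norm_ee _).le)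

theorem nice_HH (hΨ : Nice Ψ) (u : ℝ) : Nice (HH Ψ u) := (nice_HHint hΨ u).integral_right volume

/-- The Fourier transform of `BB`. -/
theorem fourier_BB (hΨ : Nice Ψ) {σ1 s0 κ : ℝ} (hs0 : 0 < s0)
    (hsup : ∀ σ h, Ψ (σ, h) ≠ 0 → |σ| ≤ σ1 ∧ s0 ≤ h - κ) (x u : ℝ) :
    𝓕 (BB Ψ x κ) u = 𝓕 (HH Ψ u) (-(x + κ * u)) := by
  have hN1 : Nice (fun p : ℝ × ℝ => ee (-(p.1 * u)) * ((((p.2 - κ)⁻¹ : ℝ) : ℂ)
      * ee (p.1 * x / (p.2 - κ)) * Ψ (p.1 / (p.2 - κ), p.2))) :=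
    (nice_BBint hΨ hs0 hsup x).mul_bdd (measurable_ee.comp (by fun_prop))
      (fun x _ => (norm_ee _).le)
  have hN2 : Nice (fun p : ℝ × ℝ => ee (-(p.1 * (-(x + κ * u)))) *
      (ee (-(p.1 * p.2 * u)) * Ψ (p.1, p.2))) :=
    (nice_HHint hΨ u).mul_bdd (measurable_ee.comp (by fun_prop)) (fun x _ => (norm_ee _).le)
  rw [fourier_real_ee, fourier_real_ee]
  have e1 : ∫ v, ee (-(v * u)) * BB Ψ x κ v
      = ∫ h, ∫ r, ee (-(r * u)) * ((((h - κ)⁻¹ : ℝ) : ℂ)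
      * ee (r * x / (h - κ)) * Ψ (r / (h - κ), h)) := by
    rw [← integral_integral_swap]
    · congr 1
      ext v
      rw [BB, integral_const_mul]
    · exact hN1.integrable _
  have e2 : ∫ v, ee (-(v * -(x + κ * u))) * HH Ψ u v
      = ∫ h, ∫ σ, ee (-(σ * (-(x + κ * u)))) * (ee (-(σ * h * u)) * Ψ (σ, h)) := by
    rw [← integral_integral_swap]
    · congr 1
      ext v
      rw [HH, integral_const_mul]
    · exact hN2.integrable _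
  rw [e1, e2]
  congr 1
  ext h
  by_cases hs : s0 ≤ h - κ
  · have hpos : 0 < h - κ := by linarith
    set s := h - κ with hsdef
    have h3 : ∀ r : ℝ, ee (-(r * u)) * (((s⁻¹ : ℝ) : ℂ) * ee (r * x / s) * Ψ (r / s, h))
        = ((s⁻¹ : ℝ) : ℂ) * (fun σ => ee (-(σ * (-(x + κ * u)))) *
          (ee (-(σ * h * u)) * Ψ (σ, h))) (r / s) := by
      intro r
      have e3 : ee (-(r * u)) * ee (r * x / s)
          = ee (-(r / s * (-(x + κ * u)))) * ee (-(r / s * h * u)) := by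
        rw [← ee_add, ← ee_add]
        congr 1
        have : h = s + κ := by rw [hsdef]; ring
        rw [this]
        field_simp
        ring
      simp only
      calc ee (-(r * u)) * (((s⁻¹ : ℝ) : ℂ) * ee (r * x / s) * Ψ (r / s, h))
          = ((s⁻¹ : ℝ) : ℂ) * (ee (-(r * u)) * ee (r * x / s)) * Ψ (r / s, h) := by ring
        _ = _ := by rw [e3]; ring
    have h4 := Measure.integral_comp_div (fun σ : ℝ => ee (-(σ * (-(x + κ * u)))) *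
          (ee (-(σ * h * u)) * Ψ (σ, h))) s
    rw [funext h3, integral_const_mul, h4, abs_of_pos hpos,
      Complex.real_smul, ← mul_assoc, ← Complex.ofReal_mul, inv_mul_cancel₀ hpos.ne']
    simp
  · have hz : ∀ σ, Ψ (σ, h) = 0 := by
      intro σ
      by_contra hne
      exact hs (hsup σ h hne).2
    simp [hz]

theorem lintegral_comp_mul {f : ℝ → ℝ≥0∞} (hf : Measurable f) {a : ℝ} (ha : a ≠ 0) :
    ∫⁻ x, f (a * x) = ENNReal.ofReal |a⁻¹| * ∫⁻ x, f x := by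
  rw [← smul_eq_mul, ← lintegral_smul_measure, ← Real.map_volume_mul_left ha,
    lintegral_map hf (by fun_prop)]

/-- The integrated transform. -/
theorem lintegral_HH (hΨ : Nice Ψ) {σ0 : ℝ} (h0 : 0 < σ0)
    (hsup : ∀ σ h, Ψ (σ, h) ≠ 0 → σ0 ≤ σ) :
    ∫⁻ u, ∫⁻ σ, ‖HH Ψ u σ‖ₑ ^ 2 ≤ ENNReal.ofReal σ0⁻¹ * ∫⁻ p, ‖Ψ p‖ₑ ^ 2 := by
  have hm : Measurable (fun p : ℝ × ℝ => HH Ψ p.1 p.2) := by
    have h1 : Measurable (fun q : (ℝ × ℝ) × ℝ => ee (-(q.1.2 * q.2 * q.1.1)) * Ψ (q.1.2, q.2)) := by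
      apply Measurable.mul
      · exact measurable_ee.comp (by fun_prop)
      · exact hΨ.1.comp (by fun_prop)
    exact (h1.stronglyMeasurable.integral_prod_right
      (f := fun (p : ℝ × ℝ) (h : ℝ) => ee (-(p.2 * h * p.1)) * Ψ (p.2, h))).measurable
  rw [lintegral_lintegral_swap (f := fun u σ => ‖HH Ψ u σ‖ₑ ^ 2)
    (hm.enorm.pow_const 2).aemeasurable]
  rw [Measure.volume_eq_prod, lintegral_prod _ (hΨ.1.enorm.pow_const 2).aemeasurable,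
    ← lintegral_const_mul _ (Measurable.lintegral_prod_right (hΨ.1.enorm.pow_const 2))]
  apply lintegral_mono
  intro σ
  simp only
  by_cases hσ : σ0 ≤ σ
  · have hσp : 0 < σ := by linarith
    have h2 : ∀ u, HH Ψ u σ = 𝓕 (fun h => Ψ (σ, h)) (σ * u) := by
      intro u
      rw [HH, fourier_real_ee]
      congr 1
      ext h
      congr 2
      ring
    have hN := hΨ.section_right σ
    simp_rw [h2]
    rw [lintegral_comp_mul (f := fun y => ‖𝓕 (fun h => Ψ (σ, h)) y‖ₑ ^ 2)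
      (hN.continuous_fourier.measurable.enorm.pow_const 2) hσp.ne', hN.plancherel]
    gcongr
    rw [abs_of_pos (by positivity)]
    exact inv_anti₀ h0 hσ
  · have hz : ∀ h, Ψ (σ, h) = 0 := by
      intro h
      by_contra hne
      exact hσ (hsup σ h hne)
    have h2 : ∀ u, HH Ψ u σ = 0 := by
      intro u
      simp [HH, hz]
    simp [h2]

/-- The planar estimate. -/
theorem plane_est (hΨ : Nice Ψ) {σ0 σ1 s0 : ℝ} (h0 : 0 < σ0) (hs0 : 0 < s0) (x κ : ℕ → ℝ)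
    {N M : ℕ} (hsup : ∀ k σ h, Ψ (σ, h) ≠ 0 → σ0 ≤ σ ∧ σ ≤ σ1 ∧ s0 ≤ h - κ k)
    (hcross : ∀ u, Cross N M (fun k => x k + κ k * u)) :
    ∑ k ∈ Finset.range M, ∫⁻ r, ‖BB Ψ (x (k+1)) (κ (k+1)) r - BB Ψ (x k) (κ k) r‖ₑ ^ 2
      ≤ 8 * N * (ENNReal.ofReal (1 + (2 * Real.pi * σ1) ^ 2) * ENNReal.ofReal σ0⁻¹)
        * ∫⁻ p, ‖Ψ p‖ₑ ^ 2 := by
  have hsup' : ∀ k σ h, Ψ (σ, h) ≠ 0 → |σ| ≤ σ1 ∧ s0 ≤ h - κ k := by
    intro k σ h hne
    obtain ⟨h1, h2, h3⟩ := hsup k σ h hne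
    exact ⟨by rw [abs_of_pos (by linarith)]; exact h2, h3⟩
  have hN : ∀ k, Nice (BB Ψ (x k) (κ k)) := fun k => nice_BB hΨ hs0 (hsup' k) (x k)
  have h1 : ∀ k, ∫⁻ r, ‖BB Ψ (x (k+1)) (κ (k+1)) r - BB Ψ (x k) (κ k) r‖ₑ ^ 2
      = ∫⁻ u, ‖𝓕 (HH Ψ u) (-(x (k+1) + κ (k+1) * u)) - 𝓕 (HH Ψ u) (-(x k + κ k * u))‖ₑ ^ 2 := by
    intro k
    rw [← ((hN (k+1)).sub (hN k)).plancherel]
    congr 1
    ext u
    rw [fourier_sub_nice (hN (k+1)) (hN k), fourier_BB hΨ hs0 (hsup' (k+1)),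
      fourier_BB hΨ hs0 (hsup' k)]
  have hmeas : ∀ k, Measurable (fun u => ‖𝓕 (HH Ψ u) (-(x (k+1) + κ (k+1) * u))
      - 𝓕 (HH Ψ u) (-(x k + κ k * u))‖ₑ ^ 2) := by
    intro k
    have h2 : ∀ u, 𝓕 (HH Ψ u) (-(x (k+1) + κ (k+1) * u)) - 𝓕 (HH Ψ u) (-(x k + κ k * u))
        = 𝓕 (fun r => BB Ψ (x (k+1)) (κ (k+1)) r - BB Ψ (x k) (κ k) r) u := by
      intro u
      rw [fourier_sub_nice (hN (k+1)) (hN k), fourier_BB hΨ hs0 (hsup' (k+1)),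
      fourier_BB hΨ hs0 (hsup' k)]
    simp_rw [h2]
    exact ((hN (k+1)).sub (hN k)).continuous_fourier.measurable.enorm.pow_const 2
  calc ∑ k ∈ Finset.range M, ∫⁻ r, ‖BB Ψ (x (k+1)) (κ (k+1)) r - BB Ψ (x k) (κ k) r‖ₑ ^ 2
      = ∑ k ∈ Finset.range M, ∫⁻ u, ‖𝓕 (HH Ψ u) (-(x (k+1) + κ (k+1) * u))
          - 𝓕 (HH Ψ u) (-(x k + κ k * u))‖ₑ ^ 2 := Finset.sum_congr rfl (fun k _ => h1 k)
    _ = ∫⁻ u, ∑ k ∈ Finset.range M, ‖𝓕 (HH Ψ u) (-(x (k+1) + κ (k+1) * u))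
          - 𝓕 (HH Ψ u) (-(x k + κ k * u))‖ₑ ^ 2 := by
        rw [lintegral_finsetSum _ (fun k _ => hmeas k)]
    _ ≤ ∫⁻ u, 8 * N * ENNReal.ofReal (1 + (2 * Real.pi * σ1) ^ 2) * ∫⁻ σ, ‖HH Ψ u σ‖ₑ ^ 2 := by
        apply lintegral_mono
        intro u
        have hsupH : ∀ σ, HH Ψ u σ ≠ 0 → |σ| ≤ σ1 := by
          intro σ hne
          by_contra hσ
          apply hne
          have hz : ∀ h, Ψ (σ, h) = 0 := by
            intro h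
            by_contra hne'
            exact hσ (hsup' 0 σ h hne').1
          simp [HH, hz]
        obtain ⟨G', hG'c, hG', hint⟩ := band_limited (nice_HH hΨ u) hsupH
        have h3 := quadVar hG' hG'c (hcross u).neg
        refine h3.trans ?_
        show _ ≤ 8 * (N:ℝ≥0∞) * ENNReal.ofReal (1 + (2 * Real.pi * σ1) ^ 2)
          * ∫⁻ (σ : ℝ), ‖HH Ψ u σ‖ₑ ^ 2
        rw [mul_assoc (8 * (N:ℝ≥0∞))]
        exact mul_le_mul_right hint _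
    _ = 8 * N * ENNReal.ofReal (1 + (2 * Real.pi * σ1) ^ 2) * ∫⁻ u, ∫⁻ σ, ‖HH Ψ u σ‖ₑ ^ 2 := by
        rw [lintegral_const_mul']
        exact ENNReal.mul_ne_top (ENNReal.mul_ne_top (by norm_num) (ENNReal.natCast_ne_top N))
          ENNReal.ofReal_ne_top
    _ ≤ 8 * N * ENNReal.ofReal (1 + (2 * Real.pi * σ1) ^ 2) *
          (ENNReal.ofReal σ0⁻¹ * ∫⁻ p, ‖Ψ p‖ₑ ^ 2) := by
        gcongr
        exact lintegral_HH hΨ h0 (fun σ h hne => (hsup 0 σ h hne).1)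
    _ = _ := by ring

end Pool.Agent.W767.Kc
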