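import Mathlib

set_option autoImplicit false

/-!
Quadratic variation of a function of one variable with square integrable derivative.
-/

open MeasureTheory Set Filter Topology ENNReal NNReal

namespace Pool.Agent.W767.Kc

theorem add_sq_le (a b : ℝ≥0∞) : (a + b) ^ 2 ≤ 2 * (a ^ 2 + b ^ 2) := by
  rcases eq_or_ne a ∞ with ha | ha
  · subst ha; simp
  rcases eq_or_ne b ∞ with hb | hb
  · subst hb; simp
  lift a to ℝ≥0 using ha
  lift b to ℝ≥0 using hb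
  norm_cast
  rw [← NNReal.coe_le_coe]
  push_cast
  nlinarith [sq_nonneg ((a:ℝ) - b)]

/-- Cauchy–Schwarz. -/
theorem lintegral_sq_le {α : Type*} [MeasurableSpace α] (μ : Measure α) {g : α → ℝ≥0∞}
    (hg : AEMeasurable g μ) : (∫⁻ x, g x ∂μ) ^ 2 ≤ μ univ * ∫⁻ x, g x ^ 2 ∂μ := by
  have h := ENNReal.lintegral_mul_le_Lp_mul_Lq μ Real.HolderConjugate.two_two hg
    (aemeasurable_const (b := (1:ℝ≥0∞)))
  simp only [Pi.mul_apply, mul_one, ENNReal.rpow_ofNat, one_pow, lintegral_one] at h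
  calc (∫⁻ x, g x ∂μ) ^ 2 ≤ ((∫⁻ x, g x ^ 2 ∂μ) ^ (1 / 2 : ℝ) * μ univ ^ (1 / 2 : ℝ)) ^ 2 := by
        gcongr
    _ = μ univ * ∫⁻ x, g x ^ 2 ∂μ := by
        rw [mul_pow, ← ENNReal.rpow_natCast, ← ENNReal.rpow_natCast, ← ENNReal.rpow_mul,
          ← ENNReal.rpow_mul]
        norm_num
        rw [mul_comm]

theorem enorm_sub_sq_le' (z w : ℂ) : ‖z - w‖ₑ ^ 2 ≤ 2 * (‖z‖ₑ ^ 2 + ‖w‖ₑ ^ 2) :=
  (pow_le_pow_left' (enorm_sub_le) 2).trans (add_sq_le _ _)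

theorem enorm_add_sq_le' (z w : ℂ) : ‖z + w‖ₑ ^ 2 ≤ 2 * (‖z‖ₑ ^ 2 + ‖w‖ₑ ^ 2) :=
  (pow_le_pow_left' (enorm_add_le _ _) 2).trans (add_sq_le _ _)

variable {G G' : ℝ → ℂ}

theorem enorm_sub_sq_le (hG : ∀ x, HasDerivAt G (G' x) x) (hG' : Continuous G') {a b : ℝ}
    (hab : a ≤ b) (hab1 : b ≤ a + 1) :
    ‖G b - G a‖ₑ ^ 2 ≤ ∫⁻ x in Ioo a b, ‖G' x‖ₑ ^ 2 := by
  have h1 : ∫ x in a..b, G' x = G b - G a :=
    intervalIntegral.integral_eq_sub_of_hasDerivAt (fun x _ => hG x) (hG'.intervalIntegrable _ _)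
  rw [← h1, intervalIntegral.integral_of_le hab, integral_Ioc_eq_integral_Ioo]
  calc ‖∫ x in Ioo a b, G' x‖ₑ ^ 2 ≤ (∫⁻ x in Ioo a b, ‖G' x‖ₑ) ^ 2 := by
        gcongr
        exact enorm_integral_le_lintegral_enorm _
    _ ≤ (volume.restrict (Ioo a b)) univ * ∫⁻ x in Ioo a b, ‖G' x‖ₑ ^ 2 :=
        lintegral_sq_le _ hG'.measurable.enorm.aemeasurable
    _ ≤ 1 * ∫⁻ x in Ioo a b, ‖G' x‖ₑ ^ 2 := by
        gcongr
        rw [Measure.restrict_apply_univ, Real.volume_Ioo]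
        rw [← ENNReal.ofReal_one]
        exact ENNReal.ofReal_le_ofReal (by linarith)
    _ = _ := one_mul _

theorem enorm_sq_le_left (hG : ∀ x, HasDerivAt G (G' x) x) (hG' : Continuous G') (a : ℝ) :
    ‖G a‖ₑ ^ 2 ≤ 2 * ∫⁻ x in Ioo a (a+1), (‖G x‖ₑ ^ 2 + ‖G' x‖ₑ ^ 2) := by
  have hGc : Continuous G := continuous_iff_continuousAt.2 (fun x => (hG x).continuousAt)
  have hv : volume (Ioo a (a+1)) = 1 := by rw [Real.volume_Ioo]; simp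
  have hpt : ∀ x ∈ Ioo a (a+1), ‖G a‖ₑ ^ 2
      ≤ 2 * (‖G x‖ₑ ^ 2 + ∫⁻ y in Ioo a (a+1), ‖G' y‖ₑ ^ 2) := by
    intro x hx
    have e : G a = G x - (G x - G a) := by ring
    calc ‖G a‖ₑ ^ 2 = ‖G x - (G x - G a)‖ₑ ^ 2 := by rw [← e]
      _ ≤ 2 * (‖G x‖ₑ ^ 2 + ‖G x - G a‖ₑ ^ 2) := enorm_sub_sq_le' _ _
      _ ≤ _ := by
        gcongr
        refine (enorm_sub_sq_le hG hG' hx.1.le hx.2.le).trans ?_
        exact lintegral_mono_set (Ioo_subset_Ioo le_rfl hx.2.le)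
  calc ‖G a‖ₑ ^ 2 = ∫⁻ x in Ioo a (a+1), ‖G a‖ₑ ^ 2 := by
        rw [setLIntegral_const, hv, mul_one]
    _ ≤ ∫⁻ x in Ioo a (a+1), 2 * (‖G x‖ₑ ^ 2 + ∫⁻ y in Ioo a (a+1), ‖G' y‖ₑ ^ 2) :=
        setLIntegral_mono' measurableSet_Ioo hpt
    _ = 2 * ((∫⁻ x in Ioo a (a+1), ‖G x‖ₑ ^ 2) + ∫⁻ y in Ioo a (a+1), ‖G' y‖ₑ ^ 2) := by
        rw [lintegral_const_mul' _ _ (by norm_num), lintegral_add_right _ measurable_const,
          setLIntegral_const, hv, mul_one]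
    _ = _ := by
        rw [lintegral_add_right _ (hG'.measurable.enorm.pow_const 2)]

theorem enorm_sq_le_right (hG : ∀ x, HasDerivAt G (G' x) x) (hG' : Continuous G') (b : ℝ) :
    ‖G b‖ₑ ^ 2 ≤ 2 * ∫⁻ x in Ioo (b-1) b, (‖G x‖ₑ ^ 2 + ‖G' x‖ₑ ^ 2) := by
  have hGc : Continuous G := continuous_iff_continuousAt.2 (fun x => (hG x).continuousAt)
  have hv : volume (Ioo (b-1) b) = 1 := by rw [Real.volume_Ioo]; simp
  have hpt : ∀ x ∈ Ioo (b-1) b, ‖G b‖ₑ ^ 2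
      ≤ 2 * (‖G x‖ₑ ^ 2 + ∫⁻ y in Ioo (b-1) b, ‖G' y‖ₑ ^ 2) := by
    intro x hx
    have e : G b = G x + (G b - G x) := by ring
    calc ‖G b‖ₑ ^ 2 = ‖G x + (G b - G x)‖ₑ ^ 2 := by rw [← e]
      _ ≤ 2 * (‖G x‖ₑ ^ 2 + ‖G b - G x‖ₑ ^ 2) := enorm_add_sq_le' _ _
      _ ≤ _ := by
        gcongr
        refine (enorm_sub_sq_le hG hG' hx.2.le (by linarith [hx.1])).trans ?_
        exact lintegral_mono_set (Ioo_subset_Ioo hx.1.le le_rfl)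
  calc ‖G b‖ₑ ^ 2 = ∫⁻ x in Ioo (b-1) b, ‖G b‖ₑ ^ 2 := by
        rw [setLIntegral_const, hv, mul_one]
    _ ≤ ∫⁻ x in Ioo (b-1) b, 2 * (‖G x‖ₑ ^ 2 + ∫⁻ y in Ioo (b-1) b, ‖G' y‖ₑ ^ 2) :=
        setLIntegral_mono' measurableSet_Ioo hpt
    _ = 2 * ((∫⁻ x in Ioo (b-1) b, ‖G x‖ₑ ^ 2) + ∫⁻ y in Ioo (b-1) b, ‖G' y‖ₑ ^ 2) := by
        rw [lintegral_const_mul' _ _ (by norm_num), lintegral_add_right _ measurable_const,
          setLIntegral_const, hv, mul_one]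
    _ = _ := by
        rw [lintegral_add_right _ (hG'.measurable.enorm.pow_const 2)]

theorem enorm_sub_sq_le8 (hG : ∀ x, HasDerivAt G (G' x) x) (hG' : Continuous G') {a b : ℝ}
    (hab : a ≤ b) :
    ‖G b - G a‖ₑ ^ 2 ≤ 8 * ∫⁻ x in Ioo a b, (‖G x‖ₑ ^ 2 + ‖G' x‖ₑ ^ 2) := by
  rcases le_or_gt b (a+1) with h | h
  · refine (enorm_sub_sq_le hG hG' hab h).trans ?_
    calc ∫⁻ x in Ioo a b, ‖G' x‖ₑ ^ 2 ≤ 1 * ∫⁻ x in Ioo a b, (‖G x‖ₑ ^ 2 + ‖G' x‖ₑ ^ 2) := by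
          rw [one_mul]
          exact lintegral_mono (fun x => le_add_self)
      _ ≤ _ := by gcongr; norm_num
  · calc ‖G b - G a‖ₑ ^ 2 ≤ 2 * (‖G b‖ₑ ^ 2 + ‖G a‖ₑ ^ 2) := enorm_sub_sq_le' _ _
      _ ≤ 2 * (2 * (∫⁻ x in Ioo a b, (‖G x‖ₑ ^ 2 + ‖G' x‖ₑ ^ 2))
            + 2 * ∫⁻ x in Ioo a b, (‖G x‖ₑ ^ 2 + ‖G' x‖ₑ ^ 2)) := by
          gcongr
          · refine (enorm_sq_le_right hG hG' b).trans ?_
            gcongr
            linarith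
          · refine (enorm_sq_le_left hG hG' a).trans ?_
            gcongr
      _ = _ := by ring

/-- The open interval between two reals. -/
def btw (x y : ℝ) : Set ℝ := Ioo (min x y) (max x y)

theorem measurableSet_btw (x y : ℝ) : MeasurableSet (btw x y) := measurableSet_Ioo

theorem enorm_sub_sq_le_btw (hG : ∀ x, HasDerivAt G (G' x) x) (hG' : Continuous G') (a b : ℝ) :
    ‖G b - G a‖ₑ ^ 2 ≤ 8 * ∫⁻ x in btw a b, (‖G x‖ₑ ^ 2 + ‖G' x‖ₑ ^ 2) := by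
  rcases le_total a b with h | h
  · rw [btw, min_eq_left h, max_eq_right h]
    exact enorm_sub_sq_le8 hG hG' h
  · rw [btw, min_eq_right h, max_eq_left h, ← enorm_neg, neg_sub]
    exact enorm_sub_sq_le8 hG hG' h

/-- `Cross N M x`: almost every level is crossed at most `N` times by the first `M` steps of the
sequence `x`. -/
def Cross (N M : ℕ) (x : ℕ → ℝ) : Prop :=
  ∀ᵐ y : ℝ, {k | k < M ∧ y ∈ btw (x k) (x (k+1))}.encard ≤ N

/-- Quadratic variation along a sequence. -/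
theorem quadVar (hG : ∀ x, HasDerivAt G (G' x) x) (hG' : Continuous G') {N M : ℕ} {x : ℕ → ℝ}
    (hx : Cross N M x) :
    ∑ k ∈ Finset.range M, ‖G (x (k+1)) - G (x k)‖ₑ ^ 2
      ≤ 8 * N * ∫⁻ y, (‖G y‖ₑ ^ 2 + ‖G' y‖ₑ ^ 2) := by
  have hGc : Continuous G := continuous_iff_continuousAt.2 (fun x => (hG x).continuousAt)
  have hm : Measurable (fun y => ‖G y‖ₑ ^ 2 + ‖G' y‖ₑ ^ 2) :=
    (hGc.measurable.enorm.pow_const 2).add (hG'.measurable.enorm.pow_const 2)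
  calc ∑ k ∈ Finset.range M, ‖G (x (k+1)) - G (x k)‖ₑ ^ 2
      ≤ ∑ k ∈ Finset.range M, 8 * ∫⁻ y in btw (x k) (x (k+1)), (‖G y‖ₑ ^ 2 + ‖G' y‖ₑ ^ 2) :=
        Finset.sum_le_sum (fun k _ => enorm_sub_sq_le_btw hG hG' _ _)
    _ = 8 * ∑ k ∈ Finset.range M, ∫⁻ y, (btw (x k) (x (k+1))).indicator
          (fun y => ‖G y‖ₑ ^ 2 + ‖G' y‖ₑ ^ 2) y := by
        rw [← Finset.mul_sum]
        congr 1
        apply Finset.sum_congr rfl
        intro k _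
        rw [lintegral_indicator (measurableSet_btw _ _)]
    _ = 8 * ∫⁻ y, ∑ k ∈ Finset.range M, (btw (x k) (x (k+1))).indicator
          (fun y => ‖G y‖ₑ ^ 2 + ‖G' y‖ₑ ^ 2) y := by
        rw [lintegral_finsetSum]
        intro k _
        exact hm.indicator (measurableSet_btw _ _)
    _ ≤ 8 * ∫⁻ y, N * (‖G y‖ₑ ^ 2 + ‖G' y‖ₑ ^ 2) := by
        gcongr 8 * ?_
        apply lintegral_mono_ae
        filter_upwards [hx] with y hy
        classical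
        have h1 : ∑ k ∈ Finset.range M, (btw (x k) (x (k+1))).indicator
            (fun y => ‖G y‖ₑ ^ 2 + ‖G' y‖ₑ ^ 2) y
            = ((Finset.range M).filter (fun k => y ∈ btw (x k) (x (k+1)))).card
              * (‖G y‖ₑ ^ 2 + ‖G' y‖ₑ ^ 2) := by
          rw [← nsmul_eq_mul, ← Finset.sum_const, Finset.sum_filter]
          apply Finset.sum_congr rfl
          intro k _
          simp [indicator]
        rw [h1]
        gcongr
        have h2 : {k | k < M ∧ y ∈ btw (x k) (x (k+1))}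
            = (((Finset.range M).filter (fun k => y ∈ btw (x k) (x (k+1))) : Finset ℕ) : Set ℕ) := by
          ext k; simp
        rw [h2, Set.encard_coe_eq_coe_finsetCard] at hy
        exact_mod_cast hy
    _ = _ := by
        rw [lintegral_const_mul _ hm, mul_assoc]

end Pool.Agent.W767.Kc
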