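import Pool.Agent.W767.Kc.Chart

set_option autoImplicit false
set_option linter.unusedSectionVars false

/-!
From the chart to the whole sphere and to all scales.
-/

open MeasureTheory Set Filter Topology ENNReal NNReal Metric

namespace Pool.Agent.W767.Kc

open Pool.Agent.H742R2.Kk

theorem measurable_dir {d : ℕ} : Measurable (fun x : E (d + 1) => ‖x‖⁻¹ • x) :=
  measurable_norm.inv.smul measurable_id

theorem ball_cone {d : ℕ} {M : E (d + 1) → ℝ≥0∞} (hM : Measurable M) :
    ∫⁻ x in closedBall (0 : E (d + 1)) 1, (cone d).indicator M (‖x‖⁻¹ • x)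
      ≤ ∫⁻ v : E d, M (‖ins 1 v‖⁻¹ • ins 1 v) := by
  have hm1 : Measurable (fun x : E (d + 1) => (cone d).indicator M (‖x‖⁻¹ • x)) :=
    (hM.indicator (measurableSet_cone d)).comp measurable_dir
  have hm2 : Measurable (fun x : E (d + 1) => M (‖x‖⁻¹ • x)) := hM.comp measurable_dir
  rw [← lintegral_indicator isClosed_closedBall.measurableSet,
    lintegral_ins (hm1.indicator isClosed_closedBall.measurableSet)]
  set X := ∫⁻ v : E d, M (‖ins 1 v‖⁻¹ • ins 1 v) with hX
  calc ∫⁻ r : ℝ, ∫⁻ y : E d, (closedBall (0 : E (d + 1)) 1).indicator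
        (fun x => (cone d).indicator M (‖x‖⁻¹ • x)) (ins r y)
      ≤ ∫⁻ r : ℝ, (Icc (0:ℝ) 1).indicator (fun _ => X) r := by
        have hne : ∀ᵐ r : ℝ, r ≠ 0 := by
          rw [ae_iff]
          simp
        apply lintegral_mono_ae
        filter_upwards [hne] with r hr
        have key : ∀ y : E d, (closedBall (0 : E (d + 1)) 1).indicator
            (fun x => (cone d).indicator M (‖x‖⁻¹ • x)) (ins r y)
            ≤ (Icc (0:ℝ) 1).indicator (fun _ => M (‖ins r y‖⁻¹ • ins r y)) r := by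
          intro y
          by_cases h1 : ins r y ∈ closedBall (0 : E (d + 1)) 1
          · rw [indicator_of_mem h1]
            by_cases h2 : ‖ins r y‖⁻¹ • ins r y ∈ cone d
            · rw [indicator_of_mem h2]
              have h3 : r ∈ Icc (0:ℝ) 1 := by
                have h4 : ‖ins r y‖ ≤ 1 := by simpa using h1
                have h5 := abs_apply_le (ins r y) 0
                rw [ins_zero] at h5
                have h6 : 0 ≤ (‖ins r y‖⁻¹ • ins r y : E (d + 1)) 0 := (norm_nonneg _).trans h2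
                rw [PiLp.smul_apply, ins_zero, smul_eq_mul] at h6
                have h7 : 0 < ‖ins r y‖ := by
                  rw [norm_pos_iff]
                  intro h
                  have := congrArg (fun x : E (d + 1) => x 0) h
                  simp only [ins_zero] at this
                  exact hr this
                have h8 : 0 ≤ r := by
                  by_contra hneg
                  push Not at hneg
                  have : ‖ins r y‖⁻¹ * r < 0 := mul_neg_of_pos_of_neg (by positivity) hneg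
                  linarith
                exact ⟨h8, (le_abs_self r).trans (h5.trans h4)⟩
              rw [indicator_of_mem h3]
            · rw [indicator_of_notMem h2]; exact zero_le
          · rw [indicator_of_notMem h1]; exact zero_le
        refine (lintegral_mono key).trans ?_
        by_cases h3 : r ∈ Icc (0:ℝ) 1
        · simp only [indicator_of_mem h3]
          have hr0 : 0 < r := lt_of_le_of_ne h3.1 (Ne.symm hr)
          set G : E d → ℝ≥0∞ := fun y => M (‖ins r y‖⁻¹ • ins r y) with hG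
          have hGm : Measurable G := by
            have h1 : Measurable (fun v : E d => ins r v) :=
              measurable_ins.comp (measurable_const.prodMk measurable_id)
            exact hM.comp (h1.norm.inv.smul h1)
          have h5 := lintegral_comp_smulV hGm hr0.ne'
          have h6 : ∀ v : E d, G (r • v) = M (‖ins 1 v‖⁻¹ • ins 1 v) := by
            intro v
            have e : ins r (r • v) = r • ins 1 v := by rw [← ins_smul, mul_one]
            rw [hG]
            simp only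
            rw [e, norm_smul, Real.norm_of_nonneg hr0.le, smul_smul, mul_inv, mul_comm r⁻¹,
              mul_assoc, inv_mul_cancel₀ hr, mul_one]
          simp_rw [h6] at h5
          rw [abs_of_pos (by positivity)] at h5
          have h7 : ENNReal.ofReal (r ^ Module.finrank ℝ (E d)) *
              ENNReal.ofReal ((r ^ Module.finrank ℝ (E d))⁻¹) = 1 := by
            rw [← ENNReal.ofReal_mul (by positivity), mul_inv_cancel₀ (by positivity),
              ENNReal.ofReal_one]
          calc ∫⁻ y, G y = ENNReal.ofReal (r ^ Module.finrank ℝ (E d)) *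
              (ENNReal.ofReal ((r ^ Module.finrank ℝ (E d))⁻¹) * ∫⁻ y, G y) := by
                rw [← mul_assoc, h7, one_mul]
            _ = ENNReal.ofReal (r ^ Module.finrank ℝ (E d)) * X := by rw [← h5]
            _ ≤ 1 * X := by
                gcongr
                rw [← ENNReal.ofReal_one]
                apply ENNReal.ofReal_le_ofReal
                exact pow_le_one₀ hr0.le h3.2
            _ = X := one_mul _
        · simp only [indicator_of_notMem h3]
          simp
    _ = X := by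
        rw [lintegral_indicator measurableSet_Icc, setLIntegral_const, Real.volume_Icc]
        simp

/-- Finitely many rotated cones cover the space. -/
theorem exists_rot (d : ℕ) : ∃ s : Finset (E (d + 1) ≃ₗᵢ[ℝ] E (d + 1)),
    ∀ e : E (d + 1), ‖e‖ = 1 → ∃ R ∈ s, R e ∈ cone d := by
  classical
  set e0 : E (d + 1) := ins 1 0 with he0
  have hn0 : ‖e0‖ = 1 := by
    have h := norm_sq_eq e0
    rw [he0, ins_zero, tl_ins] at h
    simp only [norm_zero] at h
    have h1 : ‖ins (1:ℝ) (0 : E d)‖ ^ 2 = 1 := by rw [h]; norm_num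
    exact (pow_eq_one_iff_of_nonneg (norm_nonneg _) (by norm_num)).1 h1
  set R : E (d + 1) → (E (d + 1) ≃ₗᵢ[ℝ] E (d + 1)) :=
    fun e => (ℝ ∙ (e - e0))ᗮ.reflection with hR
  have hRe : ∀ e, ‖e‖ = 1 → R e e = e0 := by
    intro e he
    exact Submodule.reflection_sub (by rw [he, hn0])
  set U : E (d + 1) → Set (E (d + 1)) := fun e => {x | ‖tl (R e x)‖ < (R e x) 0} with hU
  have hUo : ∀ e, IsOpen (U e) := by
    intro e
    have h1 : Continuous (fun x => tl (R e x)) := by
      have : Continuous (fun x : E (d + 1) => tl x) := by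
        unfold tl
        fun_prop
      exact this.comp (R e).continuous
    have h2 : Continuous (fun x => (R e x) 0) := by fun_prop
    exact isOpen_lt h1.norm h2
  have hcov : sphere (0 : E (d + 1)) 1 ⊆ ⋃ e ∈ sphere (0 : E (d + 1)) 1, U e := by
    intro e he
    have he1 : ‖e‖ = 1 := by simpa using he
    simp only [mem_iUnion]
    refine ⟨e, he, ?_⟩
    show ‖tl (R e e)‖ < (R e e) 0
    rw [hRe e he1, he0, tl_ins, ins_zero]
    simp
  obtain ⟨b, hb1, hb2, hb3⟩ := (isCompact_sphere (0 : E (d + 1)) 1).elim_finite_subcover_image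
    (fun e _ => hUo e) hcov
  refine ⟨hb2.toFinset.image R, ?_⟩
  intro e he
  have h1 := hb3 (by simpa using he : e ∈ sphere (0 : E (d + 1)) 1)
  simp only [mem_iUnion] at h1
  obtain ⟨i, hi, hei⟩ := h1
  refine ⟨R i, Finset.mem_image.2 ⟨i, hb2.mem_toFinset.2 hi, rfl⟩, ?_⟩
  have h2 : ‖tl (R i e)‖ < (R i e) 0 := hei
  exact h2.le

/-- The estimate on the whole sphere at unit scale. -/
theorem sph_unit (d : ℕ) (hd : 1 ≤ d) : ∃ C : ℝ≥0∞, C ≠ ∞ ∧
    ∀ (N : ℕ) (γ : ℝ → E (d + 1)), Continuous γ → OrderLE N γ →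
    ∀ (H1 H2 : E (d + 1) → ℝ≥0∞), Measurable H2 →
    ∀ δ : ℝ, 0 < δ → (∀ x x', ‖x - x'‖ ≤ δ → H1 x ≤ H2 x') →
    ∀ J : ℕ, 1 + (d + 1) * N / (4 * δ) ≤ (2:ℝ) ^ J →
    ∃ M : E (d + 1) → ℝ≥0∞, Measurable M ∧
      (∀ e, ‖e‖ = 1 → ∀ t, (∫⁻ s in Icc (1:ℝ) 2, H1 (γ t + s • e)) ^ 2 ≤ M e) ∧
      ∫⁻ x in closedBall (0 : E (d + 1)) 1, M (‖x‖⁻¹ • x)
        ≤ C * (((J:ℝ≥0∞) + 1) ^ 2 * (N + 1)) * ∫⁻ x, H2 x ^ 2 := by
  obtain ⟨s, hs⟩ := exists_rot d
  refine ⟨s.card * cChart d, ENNReal.mul_ne_top (ENNReal.natCast_ne_top _) (cChart_ne_top d), ?_⟩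
  intro N γ hγ hN H1 H2 hH2 δ hδ h12 J hJ
  have hex : ∀ R : E (d + 1) ≃ₗᵢ[ℝ] E (d + 1), ∃ M : E (d + 1) → ℝ≥0∞, Measurable M ∧
      (∀ e ∈ cone d, ‖e‖ = 1 → ∀ t,
        (∫⁻ s in Icc (1:ℝ) 2, H1 (R.symm (R (γ t) + s • e))) ^ 2 ≤ M e) ∧
      ∫⁻ v : E d, M (‖ins 1 v‖⁻¹ • ins 1 v)
        ≤ cChart d * (((J:ℝ≥0∞) + 1) ^ 2 * (N + 1)) * ∫⁻ x, H2 x ^ 2 := by
    intro R
    obtain ⟨M, h1, h2, h3⟩ := chart_est hd (R.continuous.comp hγ) (hN.map R)
      (H1 := fun x => H1 (R.symm x)) (H2 := fun x => H2 (R.symm x))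
      (hH2.comp R.symm.continuous.measurable) hδ (by
        intro x x' hxx'
        apply h12
        rw [← map_sub, R.symm.norm_map]
        exact hxx') hJ
    refine ⟨M, h1, h2, h3.trans (le_of_eq ?_)⟩
    congr 1
    exact R.symm.measurePreserving.lintegral_comp (hH2.pow_const 2)
  choose M hMm hMle hMint using hex
  refine ⟨fun e => ∑ R ∈ s, (cone d).indicator (M R) (R e), ?_, ?_, ?_⟩
  · apply Finset.measurable_fun_sum
    intro R _
    exact ((hMm R).indicator (measurableSet_cone d)).comp R.continuous.measurable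
  · intro e he t
    obtain ⟨R, hRs, hRe⟩ := hs e he
    refine le_trans ?_ (Finset.single_le_sum (f := fun R => (cone d).indicator (M R) (R e))
      (fun _ _ => zero_le) hRs)
    rw [indicator_of_mem hRe]
    have h1 := hMle R (R e) hRe (by rw [R.norm_map, he]) t
    refine le_trans (le_of_eq ?_) h1
    congr 2
    ext s
    rw [← map_smul, ← map_add, R.symm_apply_apply]
  · have hm : ∀ R : E (d + 1) ≃ₗᵢ[ℝ] E (d + 1),
        Measurable (fun x : E (d + 1) => (cone d).indicator (M R) (R (‖x‖⁻¹ • x))) := fun R =>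
      (((hMm R).indicator (measurableSet_cone d)).comp R.continuous.measurable).comp measurable_dir
    rw [lintegral_finsetSum _ (fun R _ => hm R)]
    calc ∑ R ∈ s, ∫⁻ x in closedBall (0 : E (d + 1)) 1,
          (cone d).indicator (M R) (R (‖x‖⁻¹ • x))
        ≤ ∑ R ∈ s, cChart d * (((J:ℝ≥0∞) + 1) ^ 2 * (N + 1)) * ∫⁻ x, H2 x ^ 2 := by
          apply Finset.sum_le_sum
          intro R _
          refine le_trans (le_of_eq ?_) ((ball_cone (hMm R)).trans (hMint R))
          have h1 := (R.measurePreserving.restrict_preimage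
            (isClosed_closedBall (x := (0 : E (d + 1))) (ε := 1)).measurableSet).lintegral_comp
            (((hMm R).indicator (measurableSet_cone d)).comp measurable_dir)
          have h2 : R ⁻¹' closedBall (0 : E (d + 1)) 1 = closedBall 0 1 := by
            ext x
            simp
          rw [h2] at h1
          refine Eq.trans ?_ h1
          congr 1
          ext x
          simp only [Function.comp]
          rw [R.norm_map, map_smul]
      _ = _ := by
          rw [Finset.sum_const, nsmul_eq_mul]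
          ring

/-- The shell `{s : λ ≤ |s| ≤ 2 λ}`. -/
def shell (l : ℝ) : Set ℝ := {s | l ≤ |s| ∧ |s| ≤ 2 * l}

theorem shell_subset {l : ℝ} : shell l ⊆ Icc l (2 * l) ∪ Icc (-(2 * l)) (-l) := by
  rintro s ⟨h1, h2⟩
  rcases le_or_gt 0 s with h | h
  · rw [abs_of_nonneg h] at h1 h2
    exact Or.inl ⟨h1, h2⟩
  · rw [abs_of_neg h] at h1 h2
    exact Or.inr ⟨by linarith, by linarith⟩

/-- The estimate at all scales. -/
theorem sph_scale (d : ℕ) (hd : 1 ≤ d) : ∃ C : ℝ≥0∞, C ≠ ∞ ∧
    ∀ (N : ℕ) (γ : ℝ → E (d + 1)), Continuous γ → OrderLE N γ →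
    ∀ (H1 H2 : E (d + 1) → ℝ≥0∞), Measurable H1 → Measurable H2 →
    ∀ δ : ℝ, 0 < δ → (∀ x x', ‖x - x'‖ ≤ δ → H1 x ≤ H2 x') →
    ∀ l : ℝ, 0 < l → ∀ J : ℕ, 1 + (d + 1) * N * l / (4 * δ) ≤ (2:ℝ) ^ J →
    ∃ M : E (d + 1) → ℝ≥0∞, Measurable M ∧
      (∀ e, ‖e‖ = 1 → ∀ t, (∫⁻ s in shell l, H1 (γ t + s • e)) ^ 2 ≤ M e) ∧
      ∫⁻ x in closedBall (0 : E (d + 1)) 1, M (‖x‖⁻¹ • x)
        ≤ C * (((J:ℝ≥0∞) + 1) ^ 2 * (N + 1)) * (ENNReal.ofReal (l * (l ^ d)⁻¹)
          * ∫⁻ x, H2 x ^ 2) := by
  obtain ⟨C, hC, hS⟩ := sph_unit d hd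
  refine ⟨4 * C, ENNReal.mul_ne_top (by norm_num) hC, ?_⟩
  intro N γ hγ hN H1 H2 hH1 hH2 δ hδ h12 l hl J hJ
  obtain ⟨M, hMm, hMle, hMint⟩ := hS N (fun t => l⁻¹ • γ t) (by fun_prop)
    (hN.smul (by positivity)) (fun x => H1 (l • x)) (fun x => H2 (l • x))
    (hH2.comp (measurable_const_smul l)) (δ / l) (by positivity) (by
      intro x x' hxx'
      apply h12
      rw [← smul_sub, norm_smul, Real.norm_of_nonneg hl.le]
      rw [le_div_iff₀ hl] at hxx'
      linarith) J (by
      refine le_trans (le_of_eq ?_) hJ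
      field_simp)
  have hone : ∀ e, ‖e‖ = 1 → ∀ t, (∫⁻ s in Icc l (2 * l), H1 (γ t + s • e)) ^ 2
      ≤ ENNReal.ofReal (l ^ 2) * M e := by
    intro e he t
    have h1 := hMle e he t
    simp only [smul_add, smul_smul, mul_inv_cancel₀ hl.ne', one_smul] at h1
    set g : ℝ → ℝ≥0∞ := (Icc l (2 * l)).indicator (fun s => H1 (γ t + s • e)) with hg
    have hgm : Measurable g := by
      apply Measurable.indicator _ measurableSet_Icc
      exact hH1.comp (by fun_prop)
    have h2 : ∫⁻ s in Icc (1:ℝ) 2, H1 (γ t + (l * s) • e) = ∫⁻ s, g (l * s) := by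
      rw [← lintegral_indicator measurableSet_Icc]
      congr 1
      ext s
      by_cases hs : s ∈ Icc (1:ℝ) 2
      · have hs' : l * s ∈ Icc l (2 * l) := ⟨by nlinarith [hs.1], by nlinarith [hs.2]⟩
        rw [indicator_of_mem hs, hg, indicator_of_mem hs']
      · have hs' : l * s ∉ Icc l (2 * l) := by
          intro h
          apply hs
          constructor
          · by_contra h3
            push Not at h3
            nlinarith [h.1]
          · by_contra h3
            push Not at h3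
            nlinarith [h.2]
        rw [indicator_of_notMem hs, hg, indicator_of_notMem hs']
    rw [h2, lintegral_comp_mul hgm hl.ne', abs_of_pos (by positivity)] at h1
    have h3 : ∫⁻ s in Icc l (2 * l), H1 (γ t + s • e) = ∫⁻ s, g s := by
      rw [hg, lintegral_indicator measurableSet_Icc]
    have h4 : ENNReal.ofReal l * ENNReal.ofReal l⁻¹ = 1 := by
      rw [← ENNReal.ofReal_mul hl.le, mul_inv_cancel₀ hl.ne', ENNReal.ofReal_one]
    calc (∫⁻ s in Icc l (2 * l), H1 (γ t + s • e)) ^ 2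
        = (ENNReal.ofReal l * (ENNReal.ofReal l⁻¹ * ∫⁻ s, g s)) ^ 2 := by
          rw [h3, ← mul_assoc, h4, one_mul]
      _ = ENNReal.ofReal (l ^ 2) * (ENNReal.ofReal l⁻¹ * ∫⁻ s, g s) ^ 2 := by
          rw [mul_pow, ENNReal.ofReal_pow hl.le]
      _ ≤ _ := by gcongr
  refine ⟨fun e => 2 * (ENNReal.ofReal (l ^ 2) * M e + ENNReal.ofReal (l ^ 2) * M (-e)),
    ?_, ?_, ?_⟩
  · exact ((hMm.const_mul _).add ((hMm.comp measurable_neg).const_mul _)).const_mul _
  · intro e he t
    have hneg : ∫⁻ s in Icc (-(2 * l)) (-l), H1 (γ t + s • e)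
        = ∫⁻ s in Icc l (2 * l), H1 (γ t + s • (-e)) := by
      have h2 := (Measure.measurePreserving_neg (volume : Measure ℝ)).restrict_preimage
        (measurableSet_Icc (a := -(2 * l)) (b := -l))
      have h3 : Measurable (fun s : ℝ => H1 (γ t + s • e)) := hH1.comp (by fun_prop)
      have h4 := h2.lintegral_comp h3
      have h5 : Neg.neg ⁻¹' Icc (-(2 * l)) (-l) = Icc l (2 * l) := by
        ext s
        simp only [mem_preimage, mem_Icc]
        constructor
        · rintro ⟨h6, h7⟩; constructor <;> linarith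
        · rintro ⟨h6, h7⟩; constructor <;> linarith
      rw [h5] at h4
      rw [← h4]
      congr 1
      ext s
      rw [smul_neg, neg_smul]
    have h1 : ∫⁻ s in shell l, H1 (γ t + s • e)
        ≤ (∫⁻ s in Icc l (2 * l), H1 (γ t + s • e))
          + ∫⁻ s in Icc l (2 * l), H1 (γ t + s • (-e)) := by
      rw [← hneg]
      exact (lintegral_mono_set shell_subset).trans (lintegral_union_le _ _ _)
    calc (∫⁻ s in shell l, H1 (γ t + s • e)) ^ 2
        ≤ ((∫⁻ s in Icc l (2 * l), H1 (γ t + s • e))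
          + ∫⁻ s in Icc l (2 * l), H1 (γ t + s • (-e))) ^ 2 := pow_le_pow_left' h1 2
      _ ≤ 2 * ((∫⁻ s in Icc l (2 * l), H1 (γ t + s • e)) ^ 2
          + (∫⁻ s in Icc l (2 * l), H1 (γ t + s • (-e))) ^ 2) := add_sq_le _ _
      _ ≤ _ := by
          have h6 := hone e he t
          have h7 := hone (-e) (by rw [norm_neg, he]) t
          exact mul_le_mul_right (add_le_add h6 h7) _
  · have hm1 : Measurable (fun x : E (d + 1) => M (‖x‖⁻¹ • x)) := hMm.comp measurable_dir
    have hm2 : Measurable (fun x : E (d + 1) => M (-(‖x‖⁻¹ • x))) :=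
      (hMm.comp measurable_neg).comp measurable_dir
    have hneg : ∫⁻ x in closedBall (0 : E (d + 1)) 1, M (-(‖x‖⁻¹ • x))
        = ∫⁻ x in closedBall (0 : E (d + 1)) 1, M (‖x‖⁻¹ • x) := by
      have h2 := (Measure.measurePreserving_neg (volume : Measure (E (d + 1)))).restrict_preimage
        (isClosed_closedBall (x := (0 : E (d + 1))) (ε := 1)).measurableSet
      have h4 := h2.lintegral_comp hm1
      have h5 : Neg.neg ⁻¹' closedBall (0 : E (d + 1)) 1 = closedBall 0 1 := by
        ext x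
        simp
      rw [h5] at h4
      refine Eq.trans ?_ h4
      congr 1
      ext x
      rw [norm_neg, smul_neg]
    rw [lintegral_const_mul' _ _ (by norm_num), lintegral_add_left (hm1.const_mul _),
      lintegral_const_mul' _ _ ENNReal.ofReal_ne_top, lintegral_const_mul' _ _ ENNReal.ofReal_ne_top,
      hneg]
    have hfr : Module.finrank ℝ (E (d + 1)) = d + 1 := by simp
    have h8 : ∫⁻ x, H2 (l • x) ^ 2 = ENNReal.ofReal ((l ^ (d + 1))⁻¹) * ∫⁻ x, H2 x ^ 2 := by
      have := lintegral_comp_smulV (f := fun x : E (d + 1) => H2 x ^ 2) (hH2.pow_const 2) hl.ne'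
      rw [this, hfr, abs_of_pos (by positivity)]
    rw [h8] at hMint
    have h9 : ENNReal.ofReal (l ^ 2) * ENNReal.ofReal ((l ^ (d + 1))⁻¹)
        = ENNReal.ofReal (l * (l ^ d)⁻¹) := by
      rw [← ENNReal.ofReal_mul (by positivity)]
      congr 1
      field_simp
      ring
    calc 2 * ((ENNReal.ofReal (l ^ 2) * ∫⁻ x in closedBall (0 : E (d + 1)) 1, M (‖x‖⁻¹ • x))
          + ENNReal.ofReal (l ^ 2) * ∫⁻ x in closedBall (0 : E (d + 1)) 1, M (‖x‖⁻¹ • x))
        = 4 * (ENNReal.ofReal (l ^ 2) * ∫⁻ x in closedBall (0 : E (d + 1)) 1, M (‖x‖⁻¹ • x)) := by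
          ring
      _ ≤ 4 * (ENNReal.ofReal (l ^ 2) * (C * (((J:ℝ≥0∞) + 1) ^ 2 * (N + 1)) *
          (ENNReal.ofReal ((l ^ (d + 1))⁻¹) * ∫⁻ x, H2 x ^ 2))) := by
          gcongr
      _ = 4 * C * (((J:ℝ≥0∞) + 1) ^ 2 * (N + 1)) * ((ENNReal.ofReal (l ^ 2) *
          ENNReal.ofReal ((l ^ (d + 1))⁻¹)) * ∫⁻ x, H2 x ^ 2) := by ring
      _ = _ := by rw [h9]

end Pool.Agent.W767.Kc
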