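import Pool.Agent.W767.Kc.Sph
import Pool.Agent.H742R2.Kk.Sphere

set_option autoImplicit false
set_option linter.unusedSectionVars false

/-!
Averages over balls and over tubes.
-/

open MeasureTheory Set Filter Topology ENNReal NNReal Metric

namespace Pool.Agent.W767.Kc

open Pool.Agent.H742R2.Kk

theorem holder_pow {α : Type*} [MeasurableSpace α] (μ : Measure α) {g : α → ℝ≥0∞}
    (hg : AEMeasurable g μ) {p : ℝ} (hp : 1 < p) :
    (∫⁻ x, g x ∂μ) ^ p ≤ (μ univ) ^ (p - 1) * ∫⁻ x, g x ^ p ∂μ := by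
  have hc : p.HolderConjugate (p / (p - 1)) := Real.HolderConjugate.conjExponent hp
  have h := ENNReal.lintegral_mul_le_Lp_mul_Lq μ hc hg (aemeasurable_const (b := (1:ℝ≥0∞)))
  simp only [Pi.mul_apply, mul_one, ENNReal.one_rpow, lintegral_one] at h
  have hp0 : 0 < p := by linarith
  have hp1 : 0 < p - 1 := by linarith
  calc (∫⁻ x, g x ∂μ) ^ p
      ≤ ((∫⁻ x, g x ^ p ∂μ) ^ (1 / p) * μ univ ^ (1 / (p / (p - 1)))) ^ p :=
        ENNReal.rpow_le_rpow h hp0.le
    _ = _ := by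
        rw [ENNReal.mul_rpow_of_nonneg _ _ hp0.le, ← ENNReal.rpow_mul, ← ENNReal.rpow_mul,
          mul_comm]
        congr 1
        · congr 1
          field_simp
        · rw [one_div, inv_mul_cancel₀ hp0.ne', ENNReal.rpow_one]

/-- Integral over the ball with centre `x`. -/
noncomputable def Av {n : ℕ} (r : ℝ) (F : E n → ℝ≥0∞) (x : E n) : ℝ≥0∞ :=
  ∫⁻ y in closedBall x r, F y

/-- Volume of a ball. -/
noncomputable def vB (n : ℕ) (r : ℝ) : ℝ≥0∞ := volume (closedBall (0 : E n) r)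

theorem vB_eq (n : ℕ) {r : ℝ} (hr : 0 ≤ r) : vB n r = ENNReal.ofReal (r ^ n) * vB n 1 := by
  unfold vB
  rw [Measure.addHaar_closedBall' volume (0 : E n) hr]
  simp

theorem vB_ne_top (n : ℕ) (r : ℝ) : vB n r ≠ ∞ := measure_closedBall_lt_top.ne

theorem vB_ne_zero (n : ℕ) {r : ℝ} (hr : 0 < r) : vB n r ≠ 0 :=
  (measure_closedBall_pos volume _ hr).ne'

/-- Average over the ball with centre `x`. -/
noncomputable def Phi {n : ℕ} (r : ℝ) (F : E n → ℝ≥0∞) (x : E n) : ℝ≥0∞ :=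
  (vB n r)⁻¹ * Av r F x

theorem Av_eq {n : ℕ} (r : ℝ) (F : E n → ℝ≥0∞) (x : E n) :
    Av r F x = ∫⁻ y, ({q : E n × E n | ‖q.2 - q.1‖ ≤ r}).indicator (fun q => F q.2) (x, y) := by
  rw [Av, ← lintegral_indicator isClosed_closedBall.measurableSet]
  congr 1

theorem measurableSet_near {n : ℕ} (r : ℝ) :
    MeasurableSet {q : E n × E n | ‖q.2 - q.1‖ ≤ r} :=
  measurableSet_le (by fun_prop) measurable_const

theorem measurable_Av {n : ℕ} (r : ℝ) {F : E n → ℝ≥0∞} (hF : Measurable F) :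
    Measurable (Av r F) := by
  have h1 : Measurable (({q : E n × E n | ‖q.2 - q.1‖ ≤ r}).indicator (fun q => F q.2)) :=
    (hF.comp measurable_snd).indicator (measurableSet_near r)
  have h2 : Av r F = fun x => ∫⁻ y,
      ({q : E n × E n | ‖q.2 - q.1‖ ≤ r}).indicator (fun q => F q.2) (x, y) := by
    ext x
    exact Av_eq r F x
  rw [h2]
  exact Measurable.lintegral_prod_right h1

theorem measurable_Phi {n : ℕ} (r : ℝ) {F : E n → ℝ≥0∞} (hF : Measurable F) :
    Measurable (Phi r F) := (measurable_Av r hF).const_mul _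

theorem lintegral_Av {n : ℕ} (r : ℝ) {F : E n → ℝ≥0∞} (hF : Measurable F) :
    ∫⁻ x, Av r F x = vB n r * ∫⁻ y, F y := by
  have h1 : Measurable (({q : E n × E n | ‖q.2 - q.1‖ ≤ r}).indicator (fun q => F q.2)) :=
    (hF.comp measurable_snd).indicator (measurableSet_near r)
  simp_rw [Av_eq]
  rw [lintegral_lintegral_swap (f := fun x y =>
    ({q : E n × E n | ‖q.2 - q.1‖ ≤ r}).indicator (fun q => F q.2) (x, y)) h1.aemeasurable,
    ← lintegral_const_mul' _ _ (vB_ne_top n r)]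
  congr 1
  ext y
  have h2 : ∀ x, ({q : E n × E n | ‖q.2 - q.1‖ ≤ r}).indicator (fun q => F q.2) (x, y)
      = (closedBall y r).indicator (fun _ => F y) x := by
    intro x
    by_cases h : x ∈ closedBall y r
    · rw [indicator_of_mem h, indicator_of_mem]
      have : dist x y ≤ r := h
      rw [dist_comm, dist_eq_norm] at this
      exact this
    · rw [indicator_of_notMem h, indicator_of_notMem]
      intro h'
      apply h
      have h3 : ‖y - x‖ ≤ r := h'
      rw [mem_closedBall, dist_comm, dist_eq_norm]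
      exact h3
  simp_rw [h2]
  rw [lintegral_indicator isClosed_closedBall.measurableSet, setLIntegral_const,
    Measure.addHaar_closedBall_center, mul_comm]
  rfl

theorem Av_mono_ball {n : ℕ} {r s : ℝ} (F : E n → ℝ≥0∞) {x x' : E n} (h : ‖x - x'‖ ≤ s) :
    Av r F x ≤ Av (r + s) F x' := by
  apply lintegral_mono_set
  apply closedBall_subset_closedBall'
  rw [dist_eq_norm]
  linarith

theorem Phi_pow_le {n : ℕ} {r : ℝ} (hr : 0 < r) {F : E n → ℝ≥0∞} (hF : Measurable F) {m : ℕ}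
    (hm : 2 ≤ m) (x : E n) :
    Phi r F x ^ m ≤ (vB n r)⁻¹ * Av r (fun y => F y ^ m) x := by
  have h := holder_pow (volume.restrict (closedBall x r)) hF.aemeasurable (p := m)
    (by exact_mod_cast hm)
  rw [Measure.restrict_apply_univ, Measure.addHaar_closedBall_center] at h
  simp only [ENNReal.rpow_natCast] at h
  have e1 : (m:ℝ) - 1 = ((m - 1 : ℕ) : ℝ) := by
    rw [Nat.cast_sub (by omega)]; simp
  rw [e1, ENNReal.rpow_natCast] at h
  have hv : volume (closedBall (0 : E n) r) = vB n r := rfl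
  rw [hv] at h
  have h0 := vB_ne_zero n hr
  have ht := vB_ne_top n r
  unfold Phi
  rw [mul_pow]
  calc ((vB n r)⁻¹) ^ m * Av r F x ^ m
      ≤ ((vB n r)⁻¹) ^ m * (vB n r ^ (m - 1) * ∫⁻ y in closedBall x r, F y ^ m) := by
        gcongr
        exact h
    _ = (vB n r)⁻¹ * Av r (fun y => F y ^ m) x := by
        obtain ⟨k, rfl⟩ : ∃ k, m = k + 1 := ⟨m - 1, by omega⟩
        rw [Nat.add_sub_cancel, pow_succ, mul_comm (((vB n r)⁻¹) ^ k), mul_assoc, ← mul_assoc
          (((vB n r)⁻¹) ^ k), ← mul_pow, ENNReal.inv_mul_cancel h0 ht, one_pow, one_mul]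
        rfl

theorem lintegral_Phi_pow {n : ℕ} {r : ℝ} (hr : 0 < r) {F : E n → ℝ≥0∞} (hF : Measurable F)
    {m : ℕ} (hm : 2 ≤ m) : ∫⁻ x, Phi r F x ^ m ≤ ∫⁻ y, F y ^ m := by
  calc ∫⁻ x, Phi r F x ^ m ≤ ∫⁻ x, (vB n r)⁻¹ * Av r (fun y => F y ^ m) x :=
        lintegral_mono (fun x => Phi_pow_le hr hF hm x)
    _ = _ := by
        rw [lintegral_const_mul' _ _ (ENNReal.inv_ne_top.2 (vB_ne_zero n hr)),
          lintegral_Av r (hF.pow_const m), ← mul_assoc,
          ENNReal.inv_mul_cancel (vB_ne_zero n hr) (vB_ne_top n r), one_mul]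

theorem Phi_sup {n : ℕ} {r : ℝ} (hr : 0 < r) {F : E n → ℝ≥0∞} (hF : Measurable F) {m : ℕ}
    (hm : 2 ≤ m) (x : E n) : Phi r F x ^ m ≤ (vB n r)⁻¹ * ∫⁻ y, F y ^ m := by
  refine (Phi_pow_le hr hF hm x).trans ?_
  gcongr
  exact setLIntegral_le_lintegral _ _

theorem Phi_le_Phi {n : ℕ} {δ : ℝ} (hδ : 0 < δ) (F : E n → ℝ≥0∞) {x x' : E n}
    (h : ‖x - x'‖ ≤ δ) :
    Phi (3 * δ) F x ≤ ENNReal.ofReal ((4 / 3) ^ n) * Phi (4 * δ) F x' := by
  have h1 := Av_mono_ball (r := 3 * δ) F h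
  have e : 3 * δ + δ = 4 * δ := by ring
  rw [e] at h1
  unfold Phi
  rw [← mul_assoc]
  have h3 : (vB n (3 * δ))⁻¹ = ENNReal.ofReal ((4 / 3) ^ n) * (vB n (4 * δ))⁻¹ := by
    rw [vB_eq n (by positivity : (0:ℝ) ≤ 3 * δ), vB_eq n (by positivity : (0:ℝ) ≤ 4 * δ)]
    rw [ENNReal.mul_inv (Or.inl (by simp; positivity)) (Or.inl ENNReal.ofReal_ne_top),
      ENNReal.mul_inv (Or.inl (by simp; positivity)) (Or.inl ENNReal.ofReal_ne_top), ← mul_assoc]
    congr 1
    rw [← ENNReal.ofReal_inv_of_pos (by positivity), ← ENNReal.ofReal_inv_of_pos (by positivity),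
      ← ENNReal.ofReal_mul (by positivity)]
    congr 1
    rw [mul_pow, mul_pow, div_pow]
    field_simp
  rw [h3]
  gcongr

/-- The closed tube of length `1` and radius `δ` with centre `b` and axis direction `e`. -/
def tube {n : ℕ} (δ : ℝ) (e b : E n) : Set (E n) :=
  {y | |inner ℝ (y - b) e| ≤ 1 / 2 ∧ ‖(y - b) - (inner ℝ (y - b) e : ℝ) • e‖ ≤ δ}

theorem isClosed_tube {n : ℕ} (δ : ℝ) (e b : E n) : IsClosed (tube δ e b) := by
  have h1 : Continuous (fun y : E n => |inner ℝ (y - b) e|) := by fun_prop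
  have h2 : Continuous (fun y : E n => ‖(y - b) - (inner ℝ (y - b) e : ℝ) • e‖) := by fun_prop
  exact (isClosed_le h1 continuous_const).inter (isClosed_le h2 continuous_const)

/-- Integrals over a tube whose axis passes near the point `p`. -/
theorem tube_le {n : ℕ} {δ : ℝ} (hδ : 0 < δ) (hδ1 : δ ≤ 1) {F : E n → ℝ≥0∞} (hF : Measurable F)
    {e a p : E n} (he : ‖e‖ = 1)
    (hp : ‖(a - p) - (inner ℝ (a - p) e : ℝ) • e‖ ≤ δ) :
    ENNReal.ofReal (2 * δ) * ∫⁻ y in tube δ e a, F y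
      ≤ ∫⁻ s in Icc ((inner ℝ (a - p) e : ℝ) - 3 / 2) ((inner ℝ (a - p) e : ℝ) + 3 / 2),
          Av (3 * δ) F (p + s • e) := by
  set s0 : ℝ := inner ℝ (a - p) e with hs0
  set S : Set (ℝ × E n) := {q | ‖q.2 - (p + q.1 • e)‖ ≤ 3 * δ} with hS
  have hSm : MeasurableSet S := measurableSet_le (by fun_prop) measurable_const
  have hAv : ∀ s : ℝ, Av (3 * δ) F (p + s • e) = ∫⁻ y, S.indicator (fun q => F q.2) (s, y) := by
    intro s
    rw [Av, ← lintegral_indicator isClosed_closedBall.measurableSet]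
    congr 1
  simp_rw [hAv]
  have hm : Measurable (S.indicator (fun q : ℝ × E n => F q.2)) :=
    (hF.comp measurable_snd).indicator hSm
  rw [lintegral_lintegral_swap (f := fun s y => S.indicator (fun q : ℝ × E n => F q.2) (s, y))
    hm.aemeasurable, ← lintegral_const_mul' _ _ ENNReal.ofReal_ne_top]
  refine le_trans ?_ (setLIntegral_le_lintegral (tube δ e a) _)
  apply setLIntegral_mono' (isClosed_tube δ e a).measurableSet
  intro y hy
  obtain ⟨hy1, hy2⟩ := hy
  set τ : ℝ := inner ℝ (y - p) e with hτ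
  have hτs : |τ - s0| ≤ 1 / 2 := by
    have : τ - s0 = inner ℝ (y - a) e := by
      rw [hτ, hs0, ← inner_sub_left]
      congr 1
      abel
    rw [this]
    exact hy1
  have hd : ‖(y - p) - τ • e‖ ≤ 2 * δ := by
    have e1 : (y - p) - τ • e = ((y - a) - (inner ℝ (y - a) e : ℝ) • e) + ((a - p) - s0 • e) := by
      have : τ = inner ℝ (y - a) e + s0 := by
        rw [hτ, hs0, ← inner_add_left]
        congr 1
        abel
      rw [this, add_smul]
      abel
    rw [e1]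
    refine (norm_add_le _ _).trans ?_
    linarith
  have hsub : ∀ s ∈ Icc (τ - δ) (τ + δ), (s, y) ∈ S := by
    intro s hs
    show ‖y - (p + s • e)‖ ≤ 3 * δ
    have e1 : y - (p + s • e) = ((y - p) - τ • e) + (τ - s) • e := by
      rw [sub_smul]; abel
    rw [e1]
    refine (norm_add_le _ _).trans ?_
    rw [norm_smul, he, mul_one, Real.norm_eq_abs]
    have : |τ - s| ≤ δ := abs_le.2 ⟨by linarith [hs.2], by linarith [hs.1]⟩
    linarith
  have hIcc : Icc (τ - δ) (τ + δ) ⊆ Icc (s0 - 3/2) (s0 + 3/2) := by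
    have := abs_le.1 hτs
    apply Icc_subset_Icc <;> linarith [this.1, this.2]
  calc ENNReal.ofReal (2 * δ) * F y = ∫⁻ s in Icc (τ - δ) (τ + δ), F y := by
        rw [setLIntegral_const, Real.volume_Icc, mul_comm]
        congr 2
        ring
    _ ≤ ∫⁻ s in Icc (τ - δ) (τ + δ), S.indicator (fun q : ℝ × E n => F q.2) (s, y) := by
        apply setLIntegral_mono' measurableSet_Icc
        intro s hs
        rw [indicator_of_mem (hsub s hs)]
    _ ≤ _ := lintegral_mono_set hIcc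

/-- Averages over a tube whose axis passes near the point `p`. -/
theorem tube_avg (d : ℕ) : ∃ C : ℝ≥0∞, C ≠ ∞ ∧ ∀ (δ : ℝ), 0 < δ → δ ≤ 1 →
    ∀ (F : E (d + 1) → ℝ≥0∞), Measurable F → ∀ (e a p : E (d + 1)), ‖e‖ = 1 →
    ‖(a - p) - (inner ℝ (a - p) e : ℝ) • e‖ ≤ δ →
    (volume (tube δ e a))⁻¹ * ∫⁻ y in tube δ e a, F y
      ≤ C * ∫⁻ s in Icc ((inner ℝ (a - p) e : ℝ) - 3 / 2) ((inner ℝ (a - p) e : ℝ) + 3 / 2),
          Phi (3 * δ) F (p + s • e) := by
  obtain ⟨c, hc, hvol⟩ := volume_tube d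
  refine ⟨ENNReal.ofReal (3 ^ (d + 1) / (2 * c)) * vB (d + 1) 1,
    ENNReal.mul_ne_top ENNReal.ofReal_ne_top (vB_ne_top _ _), ?_⟩
  intro δ hδ hδ1 F hF e a p he hp
  have h1 := tube_le hδ hδ1 hF he hp
  have h2 : ENNReal.ofReal (c * δ ^ d) ≤ volume (tube δ e a) := hvol δ e a hδ he
  set I := ∫⁻ y in tube δ e a, F y with hI
  set X := ∫⁻ s in Icc ((inner ℝ (a - p) e : ℝ) - 3 / 2) ((inner ℝ (a - p) e : ℝ) + 3 / 2),
          Av (3 * δ) F (p + s • e) with hX
  have h3 : ∫⁻ s in Icc ((inner ℝ (a - p) e : ℝ) - 3 / 2) ((inner ℝ (a - p) e : ℝ) + 3 / 2),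
          Phi (3 * δ) F (p + s • e) = (vB (d + 1) (3 * δ))⁻¹ * X := by
    unfold Phi
    rw [lintegral_const_mul' _ _ (ENNReal.inv_ne_top.2 (vB_ne_zero _ (by positivity)))]
  rw [h3]
  have h4 : ENNReal.ofReal (2 * δ) ≠ 0 := by simp; positivity
  have h5 : I ≤ ENNReal.ofReal ((2 * δ)⁻¹) * X := by
    calc I = ENNReal.ofReal ((2 * δ)⁻¹) * (ENNReal.ofReal (2 * δ) * I) := by
          rw [← mul_assoc, ← ENNReal.ofReal_mul (by positivity), inv_mul_cancel₀ (by positivity),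
            ENNReal.ofReal_one, one_mul]
      _ ≤ _ := by gcongr
  calc (volume (tube δ e a))⁻¹ * I
      ≤ (ENNReal.ofReal (c * δ ^ d))⁻¹ * (ENNReal.ofReal ((2 * δ)⁻¹) * X) := by
        gcongr
    _ = _ := by
        rw [vB_eq (d + 1) (by positivity : (0:ℝ) ≤ 3 * δ),
          ENNReal.mul_inv (Or.inl (by simp; positivity)) (Or.inl ENNReal.ofReal_ne_top),
          ← ENNReal.ofReal_inv_of_pos (by positivity), ← ENNReal.ofReal_inv_of_pos (by positivity)]
        have h6 : ENNReal.ofReal (3 ^ (d + 1) / (2 * c)) * vB (d + 1) 1 *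
            (ENNReal.ofReal (((3 * δ) ^ (d + 1))⁻¹) * (vB (d + 1) 1)⁻¹ * X)
            = ENNReal.ofReal (3 ^ (d + 1) / (2 * c)) * ENNReal.ofReal (((3 * δ) ^ (d + 1))⁻¹)
              * (vB (d + 1) 1 * (vB (d + 1) 1)⁻¹) * X := by ring
        rw [h6, ENNReal.mul_inv_cancel (vB_ne_zero _ one_pos) (vB_ne_top _ _), mul_one,
          ← ENNReal.ofReal_mul (by positivity), ← mul_assoc, ← ENNReal.ofReal_mul (by positivity)]
        congr 2
        rw [mul_pow]
        field_simp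
        ring

end Pool.Agent.W767.Kc
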